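import Mathlib

/-!
Sums `F1 + F2 + x G` of two periodic functions and `x` times a periodic function on an interval:
the summands are bounded by the sum.
-/

set_option autoImplicit false

namespace Pool.Agent.X115.PR

open Finset MeasureTheory intervalIntegral

noncomputable section

/-- periodicity and vanishing averages -/
structure Dec (n1 n2 : ℕ) (h : ℝ) (F1 F2 G : ℝ → ℂ) : Prop where
  p1 : ∀ x, F1 (x + n1 * h) = F1 x
  p2 : ∀ x, F2 (x + n2 * h) = F2 x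
  pg : ∀ x, G (x + h) = G x
  z1 : ∀ x, ∑ l ∈ range n2, F2 (x + l * h) = 0
  z2 : ∀ x, ∑ l ∈ range n2, F2 (x + l * (n1 * h)) = 0

/-- the sum -/
def EE (F1 F2 G : ℝ → ℂ) (x : ℝ) : ℂ := F1 x + F2 x + x * G x

/-- the sum of the absolute values in the cells -/
def SS (n : ℕ) (h : ℝ) (E : ℝ → ℂ) (x : ℝ) : ℝ := ∑ j ∈ range n, ‖E (x + j * h)‖

variable {n1 n2 : ℕ} {h : ℝ} {F1 F2 G : ℝ → ℂ}

lemma SS_single {n : ℕ} (E : ℝ → ℂ) (x : ℝ) {j : ℕ} (hj : j < n) : ‖E (x + j * h)‖ ≤ SS n h E x :=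
  Finset.single_le_sum (f := fun j : ℕ => ‖E (x + j * h)‖) (fun _ _ => norm_nonneg _)
    (Finset.mem_range.mpr hj)

lemma SS_nonneg (n : ℕ) (h : ℝ) (E : ℝ → ℂ) (x : ℝ) : 0 ≤ SS n h E x :=
  Finset.sum_nonneg fun _ _ => norm_nonneg _

lemma Dec.pgn (H : Dec n1 n2 h F1 F2 G) (j : ℕ) (x : ℝ) : G (x + j * h) = G x := by
  induction j with
  | zero => simp
  | succ j ih =>
    rw [← ih, ← H.pg (x + j * h)]
    congr 1
    push_cast
    ring

lemma Dec.p2n (H : Dec n1 n2 h F1 F2 G) (j : ℕ) (x : ℝ) : F2 (x + j * (n2 * h)) = F2 x := by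
  induction j with
  | zero => simp
  | succ j ih =>
    rw [← ih, ← H.p2 (x + j * (n2 * h))]
    congr 1
    push_cast
    ring

lemma Dec.diff (H : Dec n1 n2 h F1 F2 G) (x : ℝ) (j : ℕ) :
    EE F1 F2 G (x + ((j + n1 : ℕ) : ℝ) * h) - EE F1 F2 G (x + j * h) =
      (F2 (x + j * h + n1 * h) - F2 (x + j * h)) + n1 * h * G x := by
  have e1 : x + ((j + n1 : ℕ) : ℝ) * h = x + j * h + n1 * h := by push_cast; ring
  have e2 : G (x + j * h + n1 * h) = G x := by
    rw [H.pgn n1, H.pgn j]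
  rw [e1, EE, EE, H.p1, e2, H.pgn j]
  push_cast
  ring

lemma Dec.G_le (H : Dec n1 n2 h F1 F2 G) (hh : 0 < h) (x : ℝ) :
    n1 * n2 * h * ‖G x‖ ≤ 2 * SS (n1 + n2) h (EE F1 F2 G) x := by
  have h1 : ∑ j ∈ range n2, (EE F1 F2 G (x + ((j + n1 : ℕ) : ℝ) * h) - EE F1 F2 G (x + j * h)) =
      n1 * n2 * h * G x := by
    rw [Finset.sum_congr rfl fun j _ => H.diff x j, Finset.sum_add_distrib,
      Finset.sum_sub_distrib, H.z1]
    have e : ∑ j ∈ range n2, F2 (x + j * h + n1 * h) = 0 := by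
      rw [← H.z1 (x + n1 * h)]
      refine Finset.sum_congr rfl fun j _ => ?_
      congr 1
      ring
    rw [e, Finset.sum_const, Finset.card_range, nsmul_eq_mul]
    ring
  have h2 : ‖((n1 : ℂ) * n2 * h * G x)‖ = n1 * n2 * h * ‖G x‖ := by
    rw [norm_mul, norm_mul, norm_mul, Complex.norm_natCast, Complex.norm_natCast,
      Complex.norm_real, Real.norm_of_nonneg hh.le]
  rw [← h2, ← h1]
  refine (norm_sum_le _ _).trans ?_
  have h3 : ∑ j ∈ range n2, ‖EE F1 F2 G (x + ((j + n1 : ℕ) : ℝ) * h) - EE F1 F2 G (x + j * h)‖ ≤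
      ∑ j ∈ range n2, ‖EE F1 F2 G (x + ((j + n1 : ℕ) : ℝ) * h)‖ +
      ∑ j ∈ range n2, ‖EE F1 F2 G (x + j * h)‖ := by
    rw [← Finset.sum_add_distrib]
    exact Finset.sum_le_sum fun j _ => norm_sub_le _ _
  have h4 : ∑ j ∈ range n2, ‖EE F1 F2 G (x + ((j + n1 : ℕ) : ℝ) * h)‖ ≤
      SS (n1 + n2) h (EE F1 F2 G) x := by
    rw [SS, Finset.sum_range_add (fun j : ℕ => ‖EE F1 F2 G (x + j * h)‖) n1 n2]
    have h5 : 0 ≤ ∑ j ∈ range n1, ‖EE F1 F2 G (x + j * h)‖ :=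
      Finset.sum_nonneg fun _ _ => norm_nonneg _
    have h6 : ∑ j ∈ range n2, ‖EE F1 F2 G (x + ((j + n1 : ℕ) : ℝ) * h)‖ =
        ∑ j ∈ range n2, ‖EE F1 F2 G (x + ((n1 + j : ℕ) : ℝ) * h)‖ :=
      Finset.sum_congr rfl fun j _ => by rw [add_comm j n1]
    linarith
  have h5 : ∑ j ∈ range n2, ‖EE F1 F2 G (x + j * h)‖ ≤ SS (n1 + n2) h (EE F1 F2 G) x :=
    Finset.sum_le_sum_of_subset_of_nonneg (Finset.range_subset_range.mpr (by omega))
      fun _ _ _ => norm_nonneg _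
  linarith

lemma Dec.step (H : Dec n1 n2 h F1 F2 G) (hh : 0 < h) (h2 : 0 < n2) (x : ℝ) (l : ℕ) :
    ‖F2 (x + l * h + n1 * h) - F2 (x + l * h)‖ ≤ 4 * SS (n1 + n2) h (EE F1 F2 G) x := by
  set j := l % n2 with hj
  have hjn : j < n2 := Nat.mod_lt _ h2
  have hl : (l : ℝ) = j + (l / n2 : ℕ) * n2 := by
    have := Nat.mod_add_div l n2
    have h3 : (l : ℝ) = ((l % n2 + n2 * (l / n2) : ℕ) : ℝ) := by rw [this]
    rw [h3]
    push_cast
    ring
  have e1 : F2 (x + l * h) = F2 (x + j * h) := by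
    rw [← H.p2n (l / n2) (x + j * h)]
    congr 1
    rw [hl]
    ring
  have e2 : F2 (x + l * h + n1 * h) = F2 (x + j * h + n1 * h) := by
    rw [← H.p2n (l / n2) (x + j * h + n1 * h)]
    congr 1
    rw [hl]
    ring
  rw [e1, e2]
  have h3 := H.diff x j
  have h4 : F2 (x + j * h + n1 * h) - F2 (x + j * h) =
      EE F1 F2 G (x + ((j + n1 : ℕ) : ℝ) * h) - EE F1 F2 G (x + j * h) - n1 * h * G x := by
    rw [h3]; ring
  rw [h4]
  have h5 := SS_single (h := h) (EE F1 F2 G) x (show j + n1 < n1 + n2 by omega)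
  have h6 := SS_single (h := h) (EE F1 F2 G) x (show j < n1 + n2 by omega)
  have h7 := H.G_le hh x
  have h8 : ‖(n1 : ℂ) * h * G x‖ = n1 * h * ‖G x‖ := by
    rw [norm_mul, norm_mul, Complex.norm_natCast, Complex.norm_real, Real.norm_of_nonneg hh.le]
  have h9 : n1 * h * ‖G x‖ ≤ n1 * n2 * h * ‖G x‖ := by
    have : (1 : ℝ) ≤ n2 := by exact_mod_cast h2
    have h10 : 0 ≤ n1 * h * ‖G x‖ := by positivity
    calc n1 * h * ‖G x‖ = 1 * (n1 * h * ‖G x‖) := by ring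
      _ ≤ n2 * (n1 * h * ‖G x‖) := mul_le_mul_of_nonneg_right this h10
      _ = _ := by ring
  calc _ ≤ ‖EE F1 F2 G (x + ((j + n1 : ℕ) : ℝ) * h) - EE F1 F2 G (x + j * h)‖ +
        ‖(n1 : ℂ) * h * G x‖ := norm_sub_le _ _
    _ ≤ ‖EE F1 F2 G (x + ((j + n1 : ℕ) : ℝ) * h)‖ + ‖EE F1 F2 G (x + j * h)‖ +
        ‖(n1 : ℂ) * h * G x‖ := by
        have := norm_sub_le (EE F1 F2 G (x + ((j + n1 : ℕ) : ℝ) * h)) (EE F1 F2 G (x + j * h))
        linarith
    _ ≤ _ := by rw [h8]; linarith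

lemma Dec.steps (H : Dec n1 n2 h F1 F2 G) (hh : 0 < h) (h2 : 0 < n2) (x : ℝ) (l r : ℕ) :
    ‖F2 (x + l * h + r * (n1 * h)) - F2 (x + l * h)‖ ≤
      r * (4 * SS (n1 + n2) h (EE F1 F2 G) x) := by
  induction r with
  | zero => simp
  | succ r ih =>
    have h1 := H.step hh h2 x (l + r * n1)
    have e1 : x + ((l + r * n1 : ℕ) : ℝ) * h = x + l * h + r * (n1 * h) := by push_cast; ring
    rw [e1] at h1
    have e2 : x + l * h + ((r + 1 : ℕ) : ℝ) * (n1 * h) = x + l * h + r * (n1 * h) + n1 * h := by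
      push_cast; ring
    rw [e2]
    calc _ = ‖(F2 (x + l * h + r * (n1 * h) + n1 * h) - F2 (x + l * h + r * (n1 * h))) +
          (F2 (x + l * h + r * (n1 * h)) - F2 (x + l * h))‖ := by congr 1; ring
      _ ≤ _ := norm_add_le _ _
      _ ≤ 4 * SS (n1 + n2) h (EE F1 F2 G) x + r * (4 * SS (n1 + n2) h (EE F1 F2 G) x) :=
          add_le_add h1 ih
      _ = _ := by push_cast; ring

lemma Dec.F2_le (H : Dec n1 n2 h F1 F2 G) (hh : 0 < h) (h2 : 0 < n2) (x : ℝ) (l : ℕ) :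
    ‖F2 (x + l * h)‖ ≤ 4 * n2 * SS (n1 + n2) h (EE F1 F2 G) x := by
  set S := SS (n1 + n2) h (EE F1 F2 G) x with hS
  have hS0 : 0 ≤ S := SS_nonneg _ _ _ _
  have h1 : (n2 : ℂ) * F2 (x + l * h) =
      -∑ r ∈ range n2, (F2 (x + l * h + r * (n1 * h)) - F2 (x + l * h)) := by
    rw [Finset.sum_sub_distrib, H.z2, Finset.sum_const, Finset.card_range, nsmul_eq_mul]
    ring
  have h3 : ‖(n2 : ℂ) * F2 (x + l * h)‖ ≤ n2 * (n2 * (4 * S)) := by
    rw [h1, norm_neg]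
    refine (norm_sum_le _ _).trans ?_
    calc _ ≤ ∑ r ∈ range n2, (n2 * (4 * S) : ℝ) := by
          refine Finset.sum_le_sum fun r hr => ?_
          refine (H.steps hh h2 x l r).trans ?_
          have : (r : ℝ) ≤ n2 := by exact_mod_cast (Finset.mem_range.mp hr).le
          exact mul_le_mul_of_nonneg_right this (by linarith)
      _ = _ := by rw [Finset.sum_const, Finset.card_range, nsmul_eq_mul]
  rw [norm_mul, Complex.norm_natCast] at h3
  have h4 : (0 : ℝ) < n2 := by exact_mod_cast h2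
  have h5 := le_of_mul_le_mul_left h3 h4
  linarith

/-- the constant in the pointwise bounds -/
def KK (n1 n2 : ℕ) (h R : ℝ) : ℝ := 1 + 4 * n2 + (R + 1) * (2 / (n1 * n2 * h))

lemma Dec.G_le' (H : Dec n1 n2 h F1 F2 G) (hh : 0 < h) (h1 : 0 < n1) (h2 : 0 < n2) (x : ℝ) :
    ‖G x‖ ≤ 2 / (n1 * n2 * h) * SS (n1 + n2) h (EE F1 F2 G) x := by
  have h3 := H.G_le hh x
  have h1' : (0 : ℝ) < n1 := by exact_mod_cast h1
  have h2' : (0 : ℝ) < n2 := by exact_mod_cast h2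
  have h4 : 0 < n1 * n2 * h := by positivity
  rw [div_mul_eq_mul_div, le_div_iff₀ h4]
  linarith

lemma Dec.all_le (H : Dec n1 n2 h F1 F2 G) (hh : 0 < h) (h1 : 0 < n1) (h2 : 0 < n2) {R : ℝ}
    (hR : 0 ≤ R) (x : ℝ) :
    ‖G x‖ ≤ KK n1 n2 h R * SS (n1 + n2) h (EE F1 F2 G) x ∧
    (∀ l : ℕ, ‖F2 (x + l * h)‖ ≤ KK n1 n2 h R * SS (n1 + n2) h (EE F1 F2 G) x) ∧
    ∀ j : ℕ, j < n1 → |x + j * h| ≤ R →
      ‖F1 (x + j * h)‖ ≤ KK n1 n2 h R * SS (n1 + n2) h (EE F1 F2 G) x := by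
  set S := SS (n1 + n2) h (EE F1 F2 G) x with hS
  have hS0 : 0 ≤ S := SS_nonneg _ _ _ _
  have h1' : (0 : ℝ) < n1 := by exact_mod_cast h1
  have h2' : (0 : ℝ) < n2 := by exact_mod_cast h2
  set q := 2 / (n1 * n2 * h) with hq
  have hq0 : 0 < q := by positivity
  have hG := H.G_le' hh h1 h2 x
  have hqS : 0 ≤ q * S := by positivity
  have hRq : 0 ≤ R * (q * S) := by positivity
  have hnS : 0 ≤ n2 * S := by positivity
  have hKK : KK n1 n2 h R * S = S + 4 * (n2 * S) + R * (q * S) + q * S := by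
    rw [KK]; ring
  rw [hKK]
  refine ⟨by linarith, fun l => ?_, fun j hj hR' => ?_⟩
  · have := H.F2_le hh h2 x l
    nlinarith
  · have h3 := SS_single (h := h) (EE F1 F2 G) x (show j < n1 + n2 by omega)
    have h4 := H.F2_le hh h2 x j
    have e : F1 (x + j * h) = EE F1 F2 G (x + j * h) - F2 (x + j * h) -
        ((x + j * h : ℝ) : ℂ) * G x := by
      rw [EE, H.pgn j]
      ring
    have h5 : ‖((x + j * h : ℝ) : ℂ) * G x‖ ≤ R * (q * S) := by
      rw [norm_mul, Complex.norm_real, Real.norm_eq_abs]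
      exact mul_le_mul hR' hG (norm_nonneg _) hR
    rw [e]
    have h6 := norm_sub_le (EE F1 F2 G (x + j * h) - F2 (x + j * h)) (((x + j * h : ℝ) : ℂ) * G x)
    have h7 := norm_sub_le (EE F1 F2 G (x + j * h)) (F2 (x + j * h))
    linarith

/-- integrals over the union of the cells -/
lemma cells {V : Type*} [NormedAddCommGroup V] [NormedSpace ℝ V] {g : ℝ → V} {x0 h : ℝ} (N : ℕ)
    (hh : 0 ≤ h) (hg : IntervalIntegrable g volume x0 (x0 + N * h)) :
    ∫ x in x0..(x0 + N * h), g x = ∑ j ∈ range N, ∫ x in x0..(x0 + h), g (x + j * h) := by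
  have h1 := sum_integral_adjacent_intervals (f := g) (μ := volume)
    (a := fun k : ℕ => x0 + k * h) (n := N) (fun k hk => by
      refine hg.mono_set ?_
      have h2 : (k : ℝ) + 1 ≤ N := by exact_mod_cast hk
      have h3 : (0 : ℝ) ≤ k := Nat.cast_nonneg k
      rw [Set.uIcc_of_le (by push_cast; nlinarith), Set.uIcc_of_le (by nlinarith)]
      refine Set.Icc_subset_Icc (by nlinarith) ?_
      push_cast
      nlinarith)
  simp only [Nat.cast_zero, zero_mul, add_zero] at h1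
  rw [← h1]
  refine Finset.sum_congr rfl fun j _ => ?_
  rw [integral_comp_add_right]
  congr 1
  push_cast
  ring

lemma int_SS {E : ℝ → ℂ} (hE : Continuous E) (n : ℕ) {x0 : ℝ} (hh : 0 ≤ h) :
    ∫ x in x0..(x0 + h), SS n h E x ^ 2 ≤ n * ∫ x in x0..(x0 + n * h), ‖E x‖ ^ 2 := by
  have hc : Continuous fun x => ‖E x‖ ^ 2 := by fun_prop
  rw [cells n hh (hc.intervalIntegrable _ _)]
  have hs : ∑ j ∈ range n, ∫ x in x0..(x0 + h), ‖E (x + j * h)‖ ^ 2 =
      ∫ x in x0..(x0 + h), ∑ j ∈ range n, ‖E (x + j * h)‖ ^ 2 := by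
    rw [intervalIntegral.integral_finsetSum]
    intro j _
    refine Continuous.intervalIntegrable ?_ _ _
    fun_prop
  rw [hs, ← intervalIntegral.integral_const_mul]
  refine intervalIntegral.integral_mono_on (by linarith) ?_ ?_ fun x _ => ?_
  · refine Continuous.intervalIntegrable ?_ _ _
    unfold SS
    fun_prop
  · refine Continuous.intervalIntegrable ?_ _ _
    fun_prop
  · have := sq_sum_le_card_mul_sum_sq (s := range n) (f := fun j : ℕ => ‖E (x + j * h)‖)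
    rw [Finset.card_range] at this
    exact this

/-- the integral inequalities -/
lemma Dec.int_le (H : Dec n1 n2 h F1 F2 G) (hF1 : Continuous F1) (hF2 : Continuous F2)
    (hG : Continuous G) (hh : 0 < h) (h1 : 0 < n1) (h2 : 0 < n2) {R x0 : ℝ}
    (hR : ∀ j : ℕ, j < n1 → ∀ x ∈ Set.Icc x0 (x0 + h), |x + j * h| ≤ R) :
    let I := KK n1 n2 h R ^ 2 * ((n1 + n2 : ℕ) *
      ∫ x in x0..(x0 + (n1 + n2 : ℕ) * h), ‖EE F1 F2 G x‖ ^ 2)
    (∫ x in x0..(x0 + h), ‖G x‖ ^ 2 ≤ I) ∧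
    (∫ x in x0..(x0 + n1 * h), ‖F1 x‖ ^ 2 ≤ n1 * I) ∧
    (∫ x in x0..(x0 + n2 * h), ‖F2 x‖ ^ 2 ≤ n2 * I) := by
  intro I
  have hR0 : 0 ≤ R := le_trans (abs_nonneg _) (hR 0 h1 x0 ⟨le_refl _, by linarith⟩)
  have hE : Continuous (EE F1 F2 G) := by
    unfold EE
    fun_prop
  have hI := int_SS hE (n1 + n2) (x0 := x0) hh.le
  have key : ∀ f : ℝ → ℂ, Continuous f →
      (∀ x ∈ Set.Icc x0 (x0 + h), ‖f x‖ ≤ KK n1 n2 h R * SS (n1 + n2) h (EE F1 F2 G) x) →
      ∫ x in x0..(x0 + h), ‖f x‖ ^ 2 ≤ I := by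
    intro f hf hfl
    calc ∫ x in x0..(x0 + h), ‖f x‖ ^ 2 ≤
          ∫ x in x0..(x0 + h), KK n1 n2 h R ^ 2 * SS (n1 + n2) h (EE F1 F2 G) x ^ 2 := by
          refine intervalIntegral.integral_mono_on (by linarith) ?_ ?_ fun x hx => ?_
          · exact Continuous.intervalIntegrable (by fun_prop) _ _
          · refine Continuous.intervalIntegrable ?_ _ _
            unfold SS
            fun_prop
          · rw [← mul_pow]
            exact pow_le_pow_left₀ (norm_nonneg _) (hfl x hx) 2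
      _ = KK n1 n2 h R ^ 2 * ∫ x in x0..(x0 + h), SS (n1 + n2) h (EE F1 F2 G) x ^ 2 := by
          rw [intervalIntegral.integral_const_mul]
      _ ≤ I := mul_le_mul_of_nonneg_left hI (by positivity)
  refine ⟨key G hG fun x _ => (H.all_le hh h1 h2 hR0 x).1, ?_, ?_⟩
  · rw [cells n1 hh.le (Continuous.intervalIntegrable (by fun_prop) _ _)]
    calc _ ≤ ∑ j ∈ range n1, I := by
          refine Finset.sum_le_sum fun j hj => ?_
          exact key (fun x => F1 (x + j * h)) (by fun_prop) fun x hx =>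
            (H.all_le hh h1 h2 hR0 x).2.2 j (Finset.mem_range.mp hj)
              (hR j (Finset.mem_range.mp hj) x hx)
      _ = _ := by rw [Finset.sum_const, Finset.card_range, nsmul_eq_mul]
  · rw [cells n2 hh.le (Continuous.intervalIntegrable (by fun_prop) _ _)]
    calc _ ≤ ∑ j ∈ range n2, I := by
          refine Finset.sum_le_sum fun j _ => ?_
          exact key (fun x => F2 (x + j * h)) (by fun_prop) fun x _ =>
            (H.all_le hh h1 h2 hR0 x).2.1 j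
      _ = _ := by rw [Finset.sum_const, Finset.card_range, nsmul_eq_mul]

end

end Pool.Agent.X115.PR
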