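import Mathlib

/-!
Parseval identities for finite sums of cosines or sines.
-/

set_option autoImplicit false

namespace Pool.Agent.X115.PR

open Finset MeasureTheory intervalIntegral Real

noncomputable section

lemma realPars {κ : Type*} [DecidableEq κ] {e : κ → ℝ → ℝ} (he : ∀ i, Continuous (e i)) {a b : ℝ}
    (ho : ∀ i j, i ≠ j → ∫ x in a..b, e i x * e j x = 0) (s : Finset κ) (c : κ → ℝ) :
    ∫ x in a..b, (∑ i ∈ s, c i * e i x) ^ 2 = ∑ i ∈ s, c i ^ 2 * ∫ x in a..b, e i x ^ 2 := by
  have h1 : ∀ x, (∑ i ∈ s, c i * e i x) ^ 2 =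
      ∑ i ∈ s, ∑ j ∈ s, c i * c j * (e i x * e j x) := by
    intro x
    rw [sq, Finset.sum_mul_sum]
    refine Finset.sum_congr rfl fun i _ => Finset.sum_congr rfl fun j _ => ?_
    ring
  have hc : ∀ i j, Continuous fun x => c i * c j * (e i x * e j x) := fun i j =>
    continuous_const.mul ((he i).mul (he j))
  simp only [h1]
  rw [intervalIntegral.integral_finsetSum fun i _ =>
    (continuous_finsetSum _ fun j _ => hc i j).intervalIntegrable _ _]
  refine Finset.sum_congr rfl fun i hi => ?_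
  rw [intervalIntegral.integral_finsetSum fun j _ => (hc i j).intervalIntegrable _ _]
  rw [Finset.sum_eq_single_of_mem i hi]
  · rw [intervalIntegral.integral_const_mul]
    congr 1
    · ring
    · refine intervalIntegral.integral_congr fun x _ => ?_
      ring
  · intro j _ hj
    rw [intervalIntegral.integral_const_mul, ho i j (Ne.symm hj), mul_zero]

lemma cPars {κ : Type*} [DecidableEq κ] {e : κ → ℝ → ℝ} (he : ∀ i, Continuous (e i)) {a b : ℝ}
    (ho : ∀ i j, i ≠ j → ∫ x in a..b, e i x * e j x = 0) (s : Finset κ) (c : κ → ℂ) :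
    ∫ x in a..b, ‖∑ i ∈ s, c i * (e i x : ℂ)‖ ^ 2 = ∑ i ∈ s, ‖c i‖ ^ 2 * ∫ x in a..b, e i x ^ 2 := by
  have h1 : ∀ x, ‖∑ i ∈ s, c i * (e i x : ℂ)‖ ^ 2 =
      (∑ i ∈ s, (c i).re * e i x) ^ 2 + (∑ i ∈ s, (c i).im * e i x) ^ 2 := by
    intro x
    rw [Complex.sq_norm, Complex.normSq_apply, Complex.re_sum, Complex.im_sum]
    simp only [Complex.re_mul_ofReal, Complex.im_mul_ofReal]
    ring
  simp only [h1]
  have hc : ∀ f : κ → ℝ, Continuous fun x => (∑ i ∈ s, f i * e i x) ^ 2 := fun f =>
    (continuous_finsetSum _ fun i _ => continuous_const.mul (he i)).pow 2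
  rw [intervalIntegral.integral_add ((hc _).intervalIntegrable _ _)
    ((hc _).intervalIntegrable _ _), realPars he ho, realPars he ho, ← Finset.sum_add_distrib]
  refine Finset.sum_congr rfl fun i _ => ?_
  rw [Complex.sq_norm, Complex.normSq_apply]
  ring

lemma cosInt {T : ℝ} (hT : 0 < T) (x0 : ℝ) (r : ℤ) :
    ∫ x in x0..(x0 + T), cos (2 * π * r / T * x) = if r = 0 then T else 0 := by
  split_ifs with hr
  · subst hr
    simp
  · have hc : 2 * π * r / T ≠ 0 := by
      have : (r : ℝ) ≠ 0 := by exact_mod_cast hr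
      have := Real.pi_pos
      positivity
    rw [intervalIntegral.integral_comp_mul_left (fun x => cos x) hc, integral_cos]
    have e : 2 * π * r / T * (x0 + T) = 2 * π * r / T * x0 + r * (2 * π) := by
      field_simp
    rw [e, Real.sin_add_int_mul_two_pi, sub_self, smul_zero]

lemma coscos {T : ℝ} (hT : 0 < T) (x0 : ℝ) (p q : ℕ) :
    ∫ x in x0..(x0 + T), cos (2 * π * p / T * x) * cos (2 * π * q / T * x) =
      ((if (p : ℤ) - q = 0 then T else 0) + (if (p : ℤ) + q = 0 then T else 0)) / 2 := by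
  rw [← cosInt hT x0, ← cosInt hT x0, ← intervalIntegral.integral_add
    (Continuous.intervalIntegrable (by fun_prop) _ _)
    (Continuous.intervalIntegrable (by fun_prop) _ _), ← intervalIntegral.integral_div]
  refine intervalIntegral.integral_congr fun x _ => ?_
  have e1 : 2 * π * (((p : ℤ) - q : ℤ) : ℝ) / T * x = 2 * π * p / T * x - 2 * π * q / T * x := by
    push_cast; ring
  have e2 : 2 * π * (((p : ℤ) + q : ℤ) : ℝ) / T * x = 2 * π * p / T * x + 2 * π * q / T * x := by
    push_cast; ring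
  rw [e1, e2, Real.cos_sub, Real.cos_add]
  ring

lemma sinsin {T : ℝ} (hT : 0 < T) (x0 : ℝ) (p q : ℕ) :
    ∫ x in x0..(x0 + T), sin (2 * π * p / T * x) * sin (2 * π * q / T * x) =
      ((if (p : ℤ) - q = 0 then T else 0) - (if (p : ℤ) + q = 0 then T else 0)) / 2 := by
  rw [← cosInt hT x0, ← cosInt hT x0, ← intervalIntegral.integral_sub
    (Continuous.intervalIntegrable (by fun_prop) _ _)
    (Continuous.intervalIntegrable (by fun_prop) _ _), ← intervalIntegral.integral_div]
  refine intervalIntegral.integral_congr fun x _ => ?_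
  have e1 : 2 * π * (((p : ℤ) - q : ℤ) : ℝ) / T * x = 2 * π * p / T * x - 2 * π * q / T * x := by
    push_cast; ring
  have e2 : 2 * π * (((p : ℤ) + q : ℤ) : ℝ) / T * x = 2 * π * p / T * x + 2 * π * q / T * x := by
    push_cast; ring
  rw [e1, e2, Real.cos_sub, Real.cos_add]
  ring

/-- sums of cosines with distinct frequencies -/
lemma cosPars {κ : Type*} [DecidableEq κ] {T : ℝ} (hT : 0 < T) (x0 : ℝ) (f : κ → ℕ)
    (hf : Function.Injective f) (s : Finset κ) (c : κ → ℂ) :
    T / 2 * ∑ i ∈ s, ‖c i‖ ^ 2 ≤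
      ∫ x in x0..(x0 + T), ‖∑ i ∈ s, c i * ((cos (2 * π * f i / T * x) : ℝ) : ℂ)‖ ^ 2 ∧
    ∫ x in x0..(x0 + T), ‖∑ i ∈ s, c i * ((cos (2 * π * f i / T * x) : ℝ) : ℂ)‖ ^ 2 ≤
      T * ∑ i ∈ s, ‖c i‖ ^ 2 := by
  rw [cPars (e := fun i x => cos (2 * π * f i / T * x)) (fun i => by fun_prop) ?_ s c]
  · have h1 : ∀ i, ∫ x in x0..(x0 + T), cos (2 * π * f i / T * x) ^ 2 =
        (T + if f i = 0 then T else 0) / 2 := by
      intro i
      have := coscos hT x0 (f i) (f i)
      rw [sub_self, if_pos rfl] at this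
      simp only [← sq] at this
      rw [this]
      congr 2
      by_cases h0 : f i = 0
      · simp [h0]
      · rw [if_neg h0, if_neg (by omega)]
    simp only [h1]
    constructor
    · rw [Finset.mul_sum]
      refine Finset.sum_le_sum fun i _ => ?_
      have h2 : T / 2 ≤ (T + if f i = 0 then T else 0) / 2 := by
        split_ifs <;> linarith
      rw [mul_comm]
      exact mul_le_mul_of_nonneg_left h2 (by positivity)
    · rw [Finset.mul_sum]
      refine Finset.sum_le_sum fun i _ => ?_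
      have h2 : (T + if f i = 0 then T else 0) / 2 ≤ T := by
        split_ifs <;> linarith
      rw [mul_comm]
      exact mul_le_mul_of_nonneg_right h2 (by positivity)
  · intro i j hij
    rw [coscos hT]
    have h1 : f i ≠ f j := fun h => hij (hf h)
    rw [if_neg (by omega), if_neg (by omega)]
    simp

/-- sums of sines with distinct positive frequencies -/
lemma sinPars {κ : Type*} [DecidableEq κ] {T : ℝ} (hT : 0 < T) (x0 : ℝ) (f : κ → ℕ)
    (hf : Function.Injective f) (hf0 : ∀ i, f i ≠ 0) (s : Finset κ) (c : κ → ℂ) :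
    ∫ x in x0..(x0 + T), ‖∑ i ∈ s, c i * ((sin (2 * π * f i / T * x) : ℝ) : ℂ)‖ ^ 2 =
      T / 2 * ∑ i ∈ s, ‖c i‖ ^ 2 := by
  rw [cPars (e := fun i x => sin (2 * π * f i / T * x)) (fun i => by fun_prop) ?_ s c]
  · have h1 : ∀ i, ∫ x in x0..(x0 + T), sin (2 * π * f i / T * x) ^ 2 = T / 2 := by
      intro i
      have := sinsin hT x0 (f i) (f i)
      have h0 := hf0 i
      rw [sub_self, if_pos rfl, if_neg (by omega), sub_zero] at this
      simp only [← sq] at this
      exact this
    simp only [h1]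
    rw [← Finset.sum_mul]
    ring
  · intro i j hij
    rw [sinsin hT]
    have h1 : f i ≠ f j := fun h => hij (hf h)
    rw [if_neg (by omega), if_neg (by omega)]
    simp

end

end Pool.Agent.X115.PR
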