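import Mathlib

/-!
From two-sided bounds and completeness to a Schauder basis.
-/

set_option autoImplicit false

namespace Pool.Agent.X115.PR

open Filter Topology Finset

noncomputable section

variable {X : Type*} [NormedAddCommGroup X] [NormedSpace ℂ X] [CompleteSpace X] {ι : Type*}

/-- two-sided bounds -/
structure Bds (ψ : ι → X) (A B : ℝ) : Prop where
  A0 : 0 < A
  B0 : 0 < B
  lo : ∀ (s : Finset ι) (c : ι → ℂ), ∑ j ∈ s, ‖c j‖ ^ 2 ≤ A * ‖∑ j ∈ s, c j • ψ j‖ ^ 2
  up : ∀ (s : Finset ι) (c : ι → ℂ), ‖∑ j ∈ s, c j • ψ j‖ ^ 2 ≤ B * ∑ j ∈ s, ‖c j‖ ^ 2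

lemma Bds.summable {ψ : ι → X} {A B : ℝ} (h : Bds ψ A B) {c : ι → ℂ}
    (hc : Summable fun j => ‖c j‖ ^ 2) : Summable fun j => c j • ψ j := by
  rw [summable_iff_vanishing_norm]
  intro ε hε
  rw [summable_iff_vanishing_norm] at hc
  obtain ⟨s, hs⟩ := hc (ε ^ 2 / B) (by have := h.B0; positivity)
  refine ⟨s, fun t ht => ?_⟩
  have h1 := h.up t c
  have h2 := hs t ht
  rw [Real.norm_of_nonneg (Finset.sum_nonneg fun _ _ => by positivity)] at h2
  have h3 : ‖∑ j ∈ t, c j • ψ j‖ ^ 2 < ε ^ 2 := by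
    calc _ ≤ B * ∑ j ∈ t, ‖c j‖ ^ 2 := h1
      _ < B * (ε ^ 2 / B) := mul_lt_mul_of_pos_left h2 h.B0
      _ = ε ^ 2 := by field_simp [h.B0.ne']
  exact lt_of_pow_lt_pow_left₀ 2 hε.le h3

/-- the synthesis operator -/
def Bds.T {ψ : ι → X} {A B : ℝ} (h : Bds ψ A B) : lp (fun _ : ι => ℂ) 2 →L[ℂ] X :=
  LinearMap.mkContinuous
    { toFun := fun c => ∑' j, c j • ψ j
      map_add' := by
        intro c d
        have hs : ∀ c : lp (fun _ : ι => ℂ) 2, Summable fun j => c j • ψ j := fun c =>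
          h.summable (by
            have := (lp.memℓp c).summable (by norm_num : 0 < (2 : ENNReal).toReal)
            simpa using this)
        rw [← (hs c).tsum_add (hs d)]
        congr 1
        funext j
        simp [add_smul]
      map_smul' := by
        intro a c
        have hs : Summable fun j => c j • ψ j :=
          h.summable (by
            have := (lp.memℓp c).summable (by norm_num : 0 < (2 : ENNReal).toReal)
            simpa using this)
        rw [RingHom.id_apply, ← hs.tsum_const_smul]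
        congr 1
        funext j
        simp [mul_smul] } (Real.sqrt B) (by
      intro c
      have hsq : Summable fun j => ‖c j‖ ^ 2 := by
        have := (lp.memℓp c).summable (by norm_num : 0 < (2 : ENNReal).toReal)
        simpa using this
      have hn : ‖c‖ ^ 2 = ∑' j, ‖c j‖ ^ 2 := by
        have := lp.norm_rpow_eq_tsum (by norm_num : 0 < (2 : ENNReal).toReal) c
        simpa using this
      have hs := h.summable hsq
      have h1 : ‖∑' j, c j • ψ j‖ ^ 2 ≤ B * ‖c‖ ^ 2 := by
        rw [hn]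
        have h2 := (hs.hasSum.norm).pow 2
        have h3 := hsq.hasSum.mul_left B
        refine le_of_tendsto_of_tendsto' h2 h3 fun s => ?_
        rw [← Finset.mul_sum]
        exact h.up s c
      show ‖∑' j, c j • ψ j‖ ≤ Real.sqrt B * ‖c‖
      rw [← Real.sqrt_sq (norm_nonneg c), ← Real.sqrt_mul h.B0.le]
      exact Real.le_sqrt_of_sq_le h1)

lemma sqSum (c : lp (fun _ : ι => ℂ) 2) : Summable fun j => ‖c j‖ ^ 2 := by
  have := (lp.memℓp c).summable (by norm_num : 0 < (2 : ENNReal).toReal)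
  simpa using this

lemma normSq (c : lp (fun _ : ι => ℂ) 2) : ‖c‖ ^ 2 = ∑' j, ‖c j‖ ^ 2 := by
  have := lp.norm_rpow_eq_tsum (by norm_num : 0 < (2 : ENNReal).toReal) c
  simpa using this

lemma Bds.T_hasSum {ψ : ι → X} {A B : ℝ} (h : Bds ψ A B) (c : lp (fun _ : ι => ℂ) 2) :
    HasSum (fun j => c j • ψ j) (h.T c) := (h.summable (sqSum c)).hasSum

lemma Bds.T_lo {ψ : ι → X} {A B : ℝ} (h : Bds ψ A B) (c : lp (fun _ : ι => ℂ) 2) :
    ‖c‖ ≤ Real.sqrt A * ‖h.T c‖ := by
  have h1 : ‖c‖ ^ 2 ≤ A * ‖h.T c‖ ^ 2 := by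
    rw [normSq]
    have h2 := (((h.T_hasSum c).norm).pow 2).const_mul A
    refine le_of_tendsto_of_tendsto' (sqSum c).hasSum h2 fun s => h.lo s c
  rw [← Real.sqrt_sq (norm_nonneg (h.T c)), ← Real.sqrt_mul h.A0.le]
  exact Real.le_sqrt_of_sq_le h1

lemma Bds.range {ψ : ι → X} {A B : ℝ} (h : Bds ψ A B)
    (hd : (Submodule.span ℂ (Set.range ψ)).topologicalClosure = ⊤) (f : X) :
    ∃ c : ι → ℂ, (Summable fun j => ‖c j‖ ^ 2) ∧ HasSum (fun j => c j • ψ j) f := by
  classical
  have hcl : IsClosed (Set.range h.T) := by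
    have ha : AntilipschitzWith (Real.toNNReal (Real.sqrt A)) h.T := by
      refine ContinuousLinearMap.antilipschitz_of_bound _ fun c => ?_
      rw [Real.coe_toNNReal _ (Real.sqrt_nonneg A)]
      exact h.T_lo c
    exact ha.isClosed_range h.T.uniformContinuous
  have hsub : (Submodule.span ℂ (Set.range ψ)).topologicalClosure ≤ LinearMap.range h.T.toLinearMap := by
    apply Submodule.topologicalClosure_minimal
    · rw [Submodule.span_le]
      rintro _ ⟨j, rfl⟩
      refine ⟨lp.single 2 j (1 : ℂ), ?_⟩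
      have h1 := h.T_hasSum (lp.single 2 j (1 : ℂ))
      have h2 : HasSum (fun i => (lp.single 2 j (1 : ℂ) : lp (fun _ : ι => ℂ) 2) i • ψ i) (ψ j) := by
        have h3 : HasSum (fun i => if i = j then ψ j else 0) (ψ j) := by
          simpa using hasSum_ite_eq j (ψ j)
        have h4 : (fun i => (lp.single 2 j (1 : ℂ) : lp (fun _ : ι => ℂ) 2) i • ψ i) =
            fun i => if i = j then ψ j else 0 := by
          funext i
          by_cases hij : i = j
          · subst hij
            simp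
          · rw [if_neg hij, lp.single_apply_ne 2 j 1 hij, zero_smul]
        rw [h4]
        exact h3
      exact h1.unique h2
    · exact hcl
  rw [hd] at hsub
  obtain ⟨c, hc⟩ := hsub (Submodule.mem_top : f ∈ ⊤)
  exact ⟨c, sqSum c, by rw [← hc]; exact h.T_hasSum c⟩

/-- every vector has a unique expansion whose partial sums, in the given order, converge -/
def IsSchauder {X : Type*} [NormedAddCommGroup X] [NormedSpace ℂ X] (ψ : ℕ → X) : Prop :=
  ∀ f : X, ∃! c : ℕ → ℂ, Tendsto (fun n => ∑ j ∈ Finset.range n, c j • ψ j) atTop (𝓝 f)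

omit [CompleteSpace X] in
lemma Bds.comp {κ : Type*} {ψ : ι → X} {A B : ℝ} (h : Bds ψ A B) (e : κ ≃ ι) :
    Bds (ψ ∘ e) A B := by
  refine ⟨h.A0, h.B0, fun s c => ?_, fun s c => ?_⟩
  · have := h.lo (s.map e.toEmbedding) (c ∘ e.symm)
    simpa using this
  · have := h.up (s.map e.toEmbedding) (c ∘ e.symm)
    simpa using this

lemma Bds.schauder {ψ : ℕ → X} {A B : ℝ} (h : Bds ψ A B)
    (hd : (Submodule.span ℂ (Set.range ψ)).topologicalClosure = ⊤) : IsSchauder ψ := by
  intro f
  obtain ⟨c, -, hc⟩ := h.range hd f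
  refine ⟨c, hc.tendsto_sum_nat, fun d hd' => ?_⟩
  have h0 : Tendsto (fun n => ∑ j ∈ Finset.range n, (d j - c j) • ψ j) atTop (𝓝 0) := by
    have := Tendsto.sub hd' hc.tendsto_sum_nat
    rw [sub_self] at this
    refine this.congr fun n => ?_
    rw [← Finset.sum_sub_distrib]
    exact Finset.sum_congr rfl fun j _ => (sub_smul _ _ _).symm
  have h1 : Tendsto (fun n => A * ‖∑ j ∈ Finset.range n, (d j - c j) • ψ j‖ ^ 2) atTop (𝓝 0) := by
    have := ((h0.norm).pow 2).const_mul A
    simpa using this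
  funext j
  have h2 : ‖d j - c j‖ ^ 2 ≤ 0 := by
    refine ge_of_tendsto h1 ?_
    filter_upwards [eventually_gt_atTop j] with n hn
    have h3 := h.lo (Finset.range n) (fun j => d j - c j)
    refine le_trans ?_ h3
    exact Finset.single_le_sum (f := fun j => ‖d j - c j‖ ^ 2) (fun _ _ => by positivity)
      (Finset.mem_range.mpr hn)
  have h4 : ‖d j - c j‖ = 0 := by
    have : ‖d j - c j‖ ^ 2 = 0 := le_antisymm h2 (by positivity)
    exact pow_eq_zero_iff (by norm_num) |>.mp this
  exact sub_eq_zero.mp (norm_eq_zero.mp h4)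

end

end Pool.Agent.X115.PR
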