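import Mathlib

/-!
The space `L²(-π/2, π/2)` and the elements given by continuous functions.
-/

set_option autoImplicit false

namespace Pool.Agent.X115.PR

open Finset MeasureTheory intervalIntegral

noncomputable section

/-- Lebesgue measure on the interval `(-π/2, π/2)` -/
abbrev mu0 : Measure ℝ := volume.restrict (Set.Ioo (-(Real.pi / 2)) (Real.pi / 2))

/-- the Hilbert space -/
abbrev XX := Lp ℂ 2 mu0

lemma normsq (f : XX) : ‖f‖ ^ 2 = ∫ x, ‖f x‖ ^ 2 ∂mu0 := by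
  have h := L2.inner_def (𝕜 := ℂ) f f
  have h2 : inner ℂ f f = ((‖f‖ ^ 2 : ℝ) : ℂ) := by
    rw [inner_self_eq_norm_sq_to_K]
    norm_cast
  have h3 : ∀ x, inner ℂ (f x) (f x) = ((‖f x‖ ^ 2 : ℝ) : ℂ) := by
    intro x
    rw [inner_self_eq_norm_sq_to_K]
    norm_cast
  rw [h2] at h
  simp only [h3] at h
  rw [integral_complex_ofReal] at h
  exact_mod_cast h

lemma memC (g : C(ℝ, ℂ)) : MemLp (g : ℝ → ℂ) 2 mu0 := by
  obtain ⟨C, hC⟩ := (isCompact_Icc (a := -(Real.pi / 2)) (b := Real.pi / 2)).exists_bound_of_continuousOn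
    g.continuous.continuousOn
  refine MemLp.of_bound g.continuous.aestronglyMeasurable C ?_
  rw [ae_restrict_iff' measurableSet_Ioo]
  exact Filter.Eventually.of_forall fun x hx => hC x ⟨hx.1.le, hx.2.le⟩

/-- the class of a continuous function -/
def el : C(ℝ, ℂ) →ₗ[ℂ] XX where
  toFun g := (memC g).toLp g
  map_add' g g' := rfl
  map_smul' c g := rfl

lemma el_coe (g : C(ℝ, ℂ)) : el g =ᵐ[mu0] g := (memC g).coeFn_toLp

lemma integral_mu0 (f : ℝ → ℝ) :
    ∫ x, f x ∂mu0 = ∫ x in (-(Real.pi / 2))..(Real.pi / 2), f x := by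
  rw [intervalIntegral.integral_of_le (by linarith [Real.pi_pos]),
    integral_Ioc_eq_integral_Ioo]

lemma norm_el (g : C(ℝ, ℂ)) :
    ‖el g‖ ^ 2 = ∫ x in (-(Real.pi / 2))..(Real.pi / 2), ‖g x‖ ^ 2 := by
  rw [normsq, ← integral_mu0]
  refine integral_congr_ae ?_
  filter_upwards [el_coe g] with x hx
  rw [hx]

/-- reflection -/
def refl (g : C(ℝ, ℂ)) : C(ℝ, ℂ) := ⟨fun x => g (-x), g.continuous.comp continuous_neg⟩

lemma norm_refl (g : C(ℝ, ℂ)) : ‖el (refl g)‖ = ‖el g‖ := by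
  have h : ‖el (refl g)‖ ^ 2 = ‖el g‖ ^ 2 := by
    rw [norm_el, norm_el]
    have := intervalIntegral.integral_comp_neg (a := -(Real.pi / 2)) (b := Real.pi / 2)
      (fun x => ‖g x‖ ^ 2)
    rw [neg_neg] at this
    exact this
  exact (pow_left_inj₀ (norm_nonneg _) (norm_nonneg _) (by norm_num)).mp h

/-- the even part of a sum of an even and an odd function has at most the norm of the sum -/
lemma even_odd {g u v : C(ℝ, ℂ)} (hg : g = u + v) (hu : ∀ x, u (-x) = u x)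
    (hv : ∀ x, v (-x) = -v x) : ‖el u‖ ≤ ‖el g‖ ∧ ‖el v‖ ≤ ‖el g‖ := by
  have h1 : (2 : ℂ) • u = g + refl g := by
    ext x
    simp only [hg, refl, ContinuousMap.smul_apply, ContinuousMap.add_apply, ContinuousMap.coe_mk,
      hu, hv, smul_eq_mul]
    ring
  have h2 : (2 : ℂ) • v = g - refl g := by
    ext x
    simp only [hg, refl, ContinuousMap.smul_apply, ContinuousMap.add_apply, ContinuousMap.sub_apply,
      ContinuousMap.coe_mk, hu, hv, smul_eq_mul]
    ring
  have h3 : ‖el ((2 : ℂ) • u)‖ ≤ 2 * ‖el g‖ := by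
    rw [h1, map_add]
    refine (norm_add_le _ _).trans ?_
    rw [norm_refl]
    linarith
  have h4 : ‖el ((2 : ℂ) • v)‖ ≤ 2 * ‖el g‖ := by
    rw [h2, map_sub]
    refine (norm_sub_le _ _).trans ?_
    rw [norm_refl]
    linarith
  rw [map_smul, norm_smul] at h3 h4
  norm_num at h3 h4
  exact ⟨h3, h4⟩

/-- periodic functions -/
lemma perUp {f : ℝ → ℂ} (hf : Continuous f) {T x0 L : ℝ} {N : ℕ}
    (hper : ∀ x, f (x + T) = f x) (hL0 : 0 ≤ L) (hL : L ≤ N * T) :
    ∫ x in x0..(x0 + L), ‖f x‖ ^ 2 ≤ N * ∫ x in x0..(x0 + T), ‖f x‖ ^ 2 := by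
  have hc : Continuous fun x => ‖f x‖ ^ 2 := by fun_prop
  have hp : Function.Periodic (fun x => ‖f x‖ ^ 2) T := fun x => by simp only [hper]
  have h1 : ∫ x in x0..(x0 + L), ‖f x‖ ^ 2 ≤ ∫ x in x0..(x0 + N * T), ‖f x‖ ^ 2 := by
    refine intervalIntegral.integral_mono_interval (le_refl _) (by linarith) (by linarith) ?_
      (hc.intervalIntegrable _ _)
    exact Filter.Eventually.of_forall fun x => by positivity
  refine h1.trans (le_of_eq ?_)
  have h2 := hp.intervalIntegral_add_zsmul_eq (N : ℤ) x0 (fun t₁ t₂ => hc.intervalIntegrable _ _)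
  simp only [zsmul_eq_mul, Int.cast_natCast] at h2
  rw [h2, hp.intervalIntegral_add_eq x0 0]

end

end Pool.Agent.X115.PR
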