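import Mathlib
import Pool.Agent.X115.PR.Riesz
import Pool.Agent.X115.PR.Cells
import Pool.Agent.X115.PR.Pars
import Pool.Agent.X115.PR.Space

/-!
The functions of the root system and the two-sided bounds.
-/

set_option autoImplicit false

namespace Pool.Agent.X115.PR

open Finset MeasureTheory intervalIntegral

noncomputable section

/-- the size of the cells -/
def hh (n1 n2 : ℕ) : ℝ := Real.pi / (n1 + n2 : ℕ)

/-- cosine -/
def cosC (k : ℝ) : C(ℝ, ℂ) := ⟨fun x => ((Real.cos (k * x) : ℝ) : ℂ), by fun_prop⟩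

/-- sine -/
def sinC (k : ℝ) : C(ℝ, ℂ) := ⟨fun x => ((Real.sin (k * x) : ℝ) : ℂ), by fun_prop⟩

/-- `x` times the sine -/
def xsinC (k : ℝ) : C(ℝ, ℂ) := ⟨fun x => (x : ℂ) * ((Real.sin (k * x) : ℝ) : ℂ), by fun_prop⟩

/-- the frequencies -/
def kA (n1 n2 j : ℕ) : ℝ := 2 * Real.pi * j / (n1 * hh n1 n2)

/-- the frequencies -/
def kB (n1 n2 j : ℕ) : ℝ := 2 * Real.pi * j / (n2 * hh n1 n2)

/-- the frequencies -/
def kG (n1 n2 j : ℕ) : ℝ := 2 * Real.pi * (j + 1 : ℕ) / hh n1 n2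

/-- the frequencies -/
def kO (j : ℕ) : ℝ := 2 * Real.pi * (j + 1 : ℕ) / Real.pi

/-- the coefficients of the last family -/
def aO (n1 n2 m : ℕ) : ℝ :=
  if (n1 + n2) ∣ (m + 1) then 0 else Real.cos (kO m * (n1 * hh n1 n2 / 2))

/-- the coefficients of the last family -/
def bO (n1 n2 m : ℕ) : ℝ :=
  if (n1 + n2) ∣ (m + 1) then 1 else Real.sin (kO m * (n1 * hh n1 n2 / 2))

/-- the last family -/
def gO (n1 n2 m : ℕ) : C(ℝ, ℂ) := (bO n1 n2 m : ℂ) • sinC (kO m) + (aO n1 n2 m : ℂ) • cosC (kO m)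

/-- the index set -/
abbrev Ind (n2 : ℕ) := ℕ ⊕ ({j : ℕ // ¬ n2 ∣ j} ⊕ (ℕ ⊕ ℕ))

/-- all functions -/
def gI (n1 n2 : ℕ) : Ind n2 → C(ℝ, ℂ) :=
  Sum.elim (fun j => cosC (kA n1 n2 j)) (Sum.elim (fun j => cosC (kB n1 n2 j))
    (Sum.elim (fun j => xsinC (kG n1 n2 j)) (gO n1 n2)))

lemma sum_sum' {α β V : Type*} [AddCommMonoid V] (u : Finset (α ⊕ β)) (f : α ⊕ β → V) :
    ∑ x ∈ u, f x = ∑ x ∈ u.toLeft, f (Sum.inl x) + ∑ x ∈ u.toRight, f (Sum.inr x) := by
  conv_lhs => rw [← Finset.toLeft_disjSum_toRight (u := u)]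
  rw [Finset.sum_disjSum]

lemma hh_pos {n1 n2 : ℕ} (h1 : 0 < n1) : 0 < hh n1 n2 := by
  have : 0 < n1 + n2 := by omega
  have h2 : (0 : ℝ) < (n1 + n2 : ℕ) := by exact_mod_cast this
  exact div_pos Real.pi_pos h2

lemma hh_mul {n1 n2 : ℕ} (h1 : 0 < n1) : ((n1 + n2 : ℕ) : ℝ) * hh n1 n2 = Real.pi := by
  have : 0 < n1 + n2 := by omega
  have h2 : (0 : ℝ) < (n1 + n2 : ℕ) := by exact_mod_cast this
  rw [hh]
  field_simp

/-- sums over the roots of unity -/
lemma rootsum {n : ℕ} (hn : 0 < n) {p : ℕ} (hp : ¬ n ∣ p) (θ : ℝ) :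
    ∑ l ∈ range n, Real.cos (θ + 2 * Real.pi * p * l / n) = 0 := by
  set ζ : ℂ := Complex.exp (2 * Real.pi * Complex.I * (p / n)) with hζ
  have hn0 : (n : ℂ) ≠ 0 := by
    have : n ≠ 0 := by omega
    exact_mod_cast this
  have h1 : ζ ≠ 1 := by
    intro h
    rw [hζ, Complex.exp_eq_one_iff] at h
    obtain ⟨m, hm⟩ := h
    have h2 : (p : ℂ) / n = m := by
      have h3 : (2 * Real.pi * Complex.I : ℂ) ≠ 0 := Complex.two_pi_I_ne_zero
      have h4 : (2 * Real.pi * Complex.I : ℂ) * (p / n) = (2 * Real.pi * Complex.I) * m := by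
        rw [hm]; ring
      exact mul_left_cancel₀ h3 h4
    rw [div_eq_iff hn0] at h2
    have h5 : (p : ℤ) = m * n := by exact_mod_cast h2
    apply hp
    have h6 : (n : ℤ) ∣ p := ⟨m, by rw [h5]; ring⟩
    exact_mod_cast h6
  have h2 : ζ ^ n = 1 := by
    rw [hζ, ← Complex.exp_nat_mul]
    rw [Complex.exp_eq_one_iff]
    refine ⟨p, ?_⟩
    push_cast
    field_simp
  have h3 : ∑ l ∈ range n, ζ ^ l = 0 := by
    rw [geom_sum_eq h1, h2, sub_self, zero_div]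
  have h4 : ((∑ l ∈ range n, Real.cos (θ + 2 * Real.pi * p * l / n) : ℝ) : ℝ) =
      (Complex.exp (θ * Complex.I) * ∑ l ∈ range n, ζ ^ l).re := by
    rw [Finset.mul_sum, Complex.re_sum]
    refine Finset.sum_congr rfl fun l _ => ?_
    rw [hζ, ← Complex.exp_nat_mul, ← Complex.exp_add]
    have e : (θ : ℂ) * Complex.I + l * (2 * Real.pi * Complex.I * (p / n)) =
        ((θ + 2 * Real.pi * p * l / n : ℝ) : ℂ) * Complex.I := by
      push_cast
      ring
    rw [e, Complex.exp_ofReal_mul_I_re]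
  rw [h4, h3, mul_zero, Complex.zero_re]

lemma sinlow {n : ℕ} (hn : 0 < n) {p : ℕ} (hp : ¬ n ∣ p) :
    2 / (n : ℝ) ≤ |Real.sin (Real.pi * p / n)| := by
  have hn0 : (0 : ℝ) < n := by exact_mod_cast hn
  set r := p % n with hr
  have hr0 : 0 < r := Nat.pos_of_ne_zero fun h => hp (Nat.dvd_of_mod_eq_zero h)
  have hrn : r < n := Nat.mod_lt _ hn
  have e : Real.pi * p / n = Real.pi * r / n + (p / n : ℕ) * Real.pi := by
    have h1 : (p : ℝ) = r + n * (p / n : ℕ) := by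
      have := Nat.mod_add_div p n
      exact_mod_cast this.symm
    rw [h1]
    field_simp
  rw [e, Real.sin_add_nat_mul_pi, abs_mul, abs_pow, abs_neg, abs_one, one_pow, one_mul]
  have hr0' : (1 : ℝ) ≤ r := by exact_mod_cast hr0
  have hrn' : (r : ℝ) + 1 ≤ n := by exact_mod_cast hrn
  have hpi := Real.pi_pos
  refine le_trans ?_ (le_abs_self _)
  rcases le_total (2 * r) n with h | h
  · have h' : 2 * (r : ℝ) ≤ n := by exact_mod_cast h
    have h1 := Real.mul_le_sin (x := Real.pi * r / n) (by positivity) (by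
      rw [div_le_div_iff₀ hn0 (by norm_num)]
      nlinarith)
    refine le_trans ?_ h1
    rw [show 2 / Real.pi * (Real.pi * r / n) = 2 * r / n by field_simp]
    rw [div_le_div_iff_of_pos_right hn0]
    linarith
  · have h' : (n : ℝ) ≤ 2 * r := by exact_mod_cast h
    have e2 : Real.sin (Real.pi * r / n) = Real.sin (Real.pi * (n - r) / n) := by
      rw [← Real.sin_pi_sub]
      congr 1
      field_simp
    have h1 := Real.mul_le_sin (x := Real.pi * (n - r) / n) (by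
        have : 0 ≤ (n : ℝ) - r := by linarith
        positivity) (by
      rw [div_le_div_iff₀ hn0 (by norm_num)]
      nlinarith)
    rw [e2]
    refine le_trans ?_ h1
    rw [show 2 / Real.pi * (Real.pi * (n - r) / n) = 2 * (n - r) / n by field_simp]
    rw [div_le_div_iff_of_pos_right hn0]
    linarith

lemma bO_low {n1 n2 : ℕ} (h1 : 0 < n1) (h2 : 0 < n2) (hc : Nat.Coprime n1 n2) (m : ℕ) :
    2 / ((n1 + n2 : ℕ) : ℝ) ≤ |bO n1 n2 m| := by
  have hn : 0 < n1 + n2 := by omega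
  have hn0 : (0 : ℝ) < (n1 + n2 : ℕ) := by exact_mod_cast hn
  rw [bO]
  split_ifs with hd
  · rw [abs_one, div_le_one hn0]
    exact_mod_cast (by omega : 2 ≤ n1 + n2)
  · have h3 : ¬ (n1 + n2) ∣ (m + 1) * n1 := by
      intro h
      apply hd
      refine Nat.Coprime.dvd_of_dvd_mul_right ?_ h
      rw [Nat.Coprime, Nat.gcd_comm, Nat.gcd_self_add_right]
      exact hc
    have h4 := sinlow hn h3
    have e : kO m * (n1 * hh n1 n2 / 2) = Real.pi * ((m + 1) * n1 : ℕ) / (n1 + n2 : ℕ) := by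
      rw [kO, hh]
      have := Real.pi_pos
      push_cast
      field_simp
    rw [e]
    exact h4

lemma bO_le {n1 n2 : ℕ} (m : ℕ) : |bO n1 n2 m| ≤ 1 := by
  rw [bO]
  split_ifs
  · simp
  · exact Real.abs_sin_le_one _

lemma aO_le {n1 n2 : ℕ} (m : ℕ) : |aO n1 n2 m| ≤ 1 := by
  rw [aO]
  split_ifs
  · simp
  · exact Real.abs_cos_le_one _

/-- the sine series -/
def GG (n1 n2 : ℕ) (s : Finset ℕ) (c : ℕ → ℂ) : C(ℝ, ℂ) := ∑ j ∈ s, c j • sinC (kG n1 n2 j)

lemma sumC_apply {κ : Type*} (s : Finset κ) (c : κ → ℂ) (g : κ → C(ℝ, ℂ)) (x : ℝ) :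
    (∑ j ∈ s, c j • g j) x = ∑ j ∈ s, c j * g j x := by
  rw [ContinuousMap.sum_apply]
  rfl

lemma mkDec {n1 n2 : ℕ} (h1 : 0 < n1) (h2 : 0 < n2) (hc : Nat.Coprime n1 n2)
    (sA : Finset ℕ) (sB : Finset {j : ℕ // ¬ n2 ∣ j}) (sG : Finset ℕ) (cA : ℕ → ℂ)
    (cB : {j : ℕ // ¬ n2 ∣ j} → ℂ) (cG : ℕ → ℂ) :
    Dec n1 n2 (hh n1 n2) (∑ j ∈ sA, cA j • cosC (kA n1 n2 j) : C(ℝ, ℂ))
      (∑ j ∈ sB, cB j • cosC (kB n1 n2 j) : C(ℝ, ℂ)) (GG n1 n2 sG cG) := by
  have hh0 : hh n1 n2 ≠ 0 := (hh_pos h1).ne'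
  have h10 : (n1 : ℝ) ≠ 0 := by exact_mod_cast h1.ne'
  have h20 : (n2 : ℝ) ≠ 0 := by exact_mod_cast h2.ne'
  refine ⟨fun x => ?_, fun x => ?_, fun x => ?_, fun x => ?_, fun x => ?_⟩
  · rw [sumC_apply, sumC_apply]
    refine Finset.sum_congr rfl fun j _ => ?_
    simp only [cosC, ContinuousMap.coe_mk]
    have e : kA n1 n2 j * (x + n1 * hh n1 n2) = kA n1 n2 j * x + j * (2 * Real.pi) := by
      rw [kA]; field_simp
    rw [e, Real.cos_add_nat_mul_two_pi]
  · rw [sumC_apply, sumC_apply]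
    refine Finset.sum_congr rfl fun j _ => ?_
    simp only [cosC, ContinuousMap.coe_mk]
    have e : kB n1 n2 j * (x + n2 * hh n1 n2) = kB n1 n2 j * x + (j : ℕ) * (2 * Real.pi) := by
      rw [kB]; field_simp
    rw [e, Real.cos_add_nat_mul_two_pi]
  · rw [GG, sumC_apply, sumC_apply]
    refine Finset.sum_congr rfl fun j _ => ?_
    simp only [sinC, ContinuousMap.coe_mk]
    have e : kG n1 n2 j * (x + hh n1 n2) = kG n1 n2 j * x + (j + 1 : ℕ) * (2 * Real.pi) := by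
      rw [kG]; field_simp
    rw [e, Real.sin_add_nat_mul_two_pi]
  · simp only [sumC_apply]
    rw [Finset.sum_comm]
    refine Finset.sum_eq_zero fun j _ => ?_
    rw [← Finset.mul_sum]
    have e : ∑ l ∈ range n2, (cosC (kB n1 n2 j)) (x + l * hh n1 n2) =
        ((∑ l ∈ range n2, Real.cos (kB n1 n2 j * x + 2 * Real.pi * (j : ℕ) * l / n2) : ℝ) : ℂ) := by
      rw [Complex.ofReal_sum]
      refine Finset.sum_congr rfl fun l _ => ?_
      simp only [cosC, ContinuousMap.coe_mk]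
      congr 2
      rw [kB]
      field_simp
    rw [e, rootsum h2 j.2, Complex.ofReal_zero, mul_zero]
  · simp only [sumC_apply]
    rw [Finset.sum_comm]
    refine Finset.sum_eq_zero fun j _ => ?_
    rw [← Finset.mul_sum]
    have hj : ¬ n2 ∣ (j : ℕ) * n1 := by
      intro h
      exact j.2 (Nat.Coprime.dvd_of_dvd_mul_right hc.symm h)
    have e : ∑ l ∈ range n2, (cosC (kB n1 n2 j)) (x + l * (n1 * hh n1 n2)) =
        ((∑ l ∈ range n2,
          Real.cos (kB n1 n2 j * x + 2 * Real.pi * ((j : ℕ) * n1 : ℕ) * l / n2) : ℝ) : ℂ) := by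
      rw [Complex.ofReal_sum]
      refine Finset.sum_congr rfl fun l _ => ?_
      simp only [cosC, ContinuousMap.coe_mk]
      congr 2
      rw [kB]
      push_cast
      field_simp
    rw [e, rootsum h2 hj, Complex.ofReal_zero, mul_zero]

end

end Pool.Agent.X115.PR
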