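import Mathlib
import Pool.Agent.X115.PR.Bounds

/-!
The two-sided bounds.
-/

set_option autoImplicit false

namespace Pool.Agent.X115.PR

open Finset MeasureTheory intervalIntegral

noncomputable section

variable {n1 n2 : ℕ}

/-- the sum over the last family -/
def PO (n1 n2 : ℕ) (s : Finset ℕ) (c : ℕ → ℂ) : C(ℝ, ℂ) := ∑ m ∈ s, c m • gO n1 n2 m

/-- the even functions -/
def PE (n1 n2 : ℕ) (sA : Finset ℕ) (sB : Finset {j : ℕ // ¬ n2 ∣ j}) (sG : Finset ℕ) (cA : ℕ → ℂ)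
    (cB : {j : ℕ // ¬ n2 ∣ j} → ℂ) (cG : ℕ → ℂ) : C(ℝ, ℂ) :=
  ∑ j ∈ sA, cA j • cosC (kA n1 n2 j) + ∑ j ∈ sB, cB j • cosC (kB n1 n2 j) +
    ∑ j ∈ sG, cG j • xsinC (kG n1 n2 j)

lemma total (s : Finset (Ind n2)) (c : Ind n2 → ℂ) :
    ∃ (sA : Finset ℕ) (sB : Finset {j : ℕ // ¬ n2 ∣ j}) (sG sO : Finset ℕ) (cA : ℕ → ℂ)
      (cB : {j : ℕ // ¬ n2 ∣ j} → ℂ) (cG cO : ℕ → ℂ),
      ∑ i ∈ s, c i • gI n1 n2 i = PE n1 n2 sA sB sG cA cB cG + PO n1 n2 sO cO ∧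
      ∑ i ∈ s, ‖c i‖ ^ 2 = ∑ j ∈ sA, ‖cA j‖ ^ 2 + ∑ j ∈ sB, ‖cB j‖ ^ 2 + ∑ j ∈ sG, ‖cG j‖ ^ 2 +
        ∑ j ∈ sO, ‖cO j‖ ^ 2 := by
  refine ⟨s.toLeft, s.toRight.toLeft, s.toRight.toRight.toLeft, s.toRight.toRight.toRight,
    fun j => c (Sum.inl j), fun j => c (Sum.inr (Sum.inl j)),
    fun j => c (Sum.inr (Sum.inr (Sum.inl j))), fun j => c (Sum.inr (Sum.inr (Sum.inr j))), ?_, ?_⟩
  · rw [sum_sum', sum_sum', sum_sum', PE, PO]
    simp only [gI, Sum.elim_inl, Sum.elim_inr]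
    abel
  · rw [sum_sum', sum_sum', sum_sum']
    ring

lemma pi_int (n1 : ℕ) (n2 : ℕ) (h1 : 0 < n1) :
    -(Real.pi / 2) + ((n1 + n2 : ℕ) : ℝ) * hh n1 n2 = Real.pi / 2 := by
  rw [hh_mul h1]
  ring

lemma evenLow (h1 : 0 < n1) (h2 : 0 < n2) (hc : Nat.Coprime n1 n2)
    (sA : Finset ℕ) (sB : Finset {j : ℕ // ¬ n2 ∣ j}) (sG : Finset ℕ) (cA : ℕ → ℂ)
    (cB : {j : ℕ // ¬ n2 ∣ j} → ℂ) (cG : ℕ → ℂ) :
    ∑ j ∈ sA, ‖cA j‖ ^ 2 + ∑ j ∈ sB, ‖cB j‖ ^ 2 + ∑ j ∈ sG, ‖cG j‖ ^ 2 ≤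
      6 / hh n1 n2 * (KK n1 n2 (hh n1 n2) (Real.pi / 2) ^ 2 * (n1 + n2 : ℕ)) *
        ‖el (PE n1 n2 sA sB sG cA cB cG)‖ ^ 2 := by
  set h := hh n1 n2 with hdef
  have hh0 : 0 < h := hh_pos h1
  have h1' : (0 : ℝ) < n1 := by exact_mod_cast h1
  have h2' : (0 : ℝ) < n2 := by exact_mod_cast h2
  have hD := mkDec h1 h2 hc sA sB sG cA cB cG
  have hR : ∀ j : ℕ, j < n1 → ∀ x ∈ Set.Icc (-(Real.pi / 2)) (-(Real.pi / 2) + h),
      |x + j * h| ≤ Real.pi / 2 := by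
    intro j hj x hx
    have h3 := pi_int n1 n2 h1
    rw [← hdef] at h3
    have h4 : ((j : ℝ) + 1) ≤ (n1 + n2 : ℕ) := by exact_mod_cast (by omega : j + 1 ≤ n1 + n2)
    have h5 : (0 : ℝ) ≤ j := Nat.cast_nonneg j
    rw [abs_le]
    constructor
    · nlinarith [hx.1]
    · have : ((j : ℝ) + 1) * h ≤ ((n1 + n2 : ℕ) : ℝ) * h := mul_le_mul_of_nonneg_right h4 hh0.le
      nlinarith [hx.2]
  have hI := hD.int_le (ContinuousMap.continuous _) (ContinuousMap.continuous _)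
    (ContinuousMap.continuous _) hh0 h1 h2 hR
  rw [← hdef, pi_int n1 n2 h1] at hI
  have hE : ‖el (PE n1 n2 sA sB sG cA cB cG)‖ ^ 2 = ∫ x in (-(Real.pi / 2))..(Real.pi / 2),
      ‖EE (∑ j ∈ sA, cA j • cosC (kA n1 n2 j) : C(ℝ, ℂ))
        (∑ j ∈ sB, cB j • cosC (kB n1 n2 j) : C(ℝ, ℂ)) (GG n1 n2 sG cG) x‖ ^ 2 := by
    rw [norm_el]
    refine intervalIntegral.integral_congr fun x _ => ?_
    have e : (PE n1 n2 sA sB sG cA cB cG) x = EE (∑ j ∈ sA, cA j • cosC (kA n1 n2 j) : C(ℝ, ℂ))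
        (∑ j ∈ sB, cB j • cosC (kB n1 n2 j) : C(ℝ, ℂ)) (GG n1 n2 sG cG) x := by
      rw [PE, EE, ContinuousMap.add_apply, ContinuousMap.add_apply, GG, sumC_apply sG, sumC_apply sG,
        Finset.mul_sum]
      congr 1
      refine Finset.sum_congr rfl fun j _ => ?_
      simp only [xsinC, sinC, ContinuousMap.coe_mk]
      ring
    simp only [e]
  rw [← hE] at hI
  set I := KK n1 n2 h (Real.pi / 2) ^ 2 * ((n1 + n2 : ℕ) * ‖el (PE n1 n2 sA sB sG cA cB cG)‖ ^ 2)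
    with hIdef
  obtain ⟨i1, i2, i3⟩ := hI
  have a1 := (cosPars (mul_pos h1' hh0) (-(Real.pi / 2)) (fun j : ℕ => j)
    Function.injective_id sA cA).1
  have a2 := (cosPars (mul_pos h2' hh0) (-(Real.pi / 2)) (fun j : {j : ℕ // ¬ n2 ∣ j} => (j : ℕ))
    Subtype.val_injective sB cB).1
  have a3 := sinPars hh0 (-(Real.pi / 2)) (fun j : ℕ => j + 1)
    (fun i j hij => by simpa using hij) (fun i => Nat.succ_ne_zero i) sG cG
  have b1 : ∫ x in (-(Real.pi / 2))..(-(Real.pi / 2) + n1 * h),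
      ‖∑ i ∈ sA, cA i * ((Real.cos (2 * Real.pi * i / (n1 * h) * x) : ℝ) : ℂ)‖ ^ 2 =
      ∫ x in (-(Real.pi / 2))..(-(Real.pi / 2) + n1 * h),
        ‖(∑ j ∈ sA, cA j • cosC (kA n1 n2 j) : C(ℝ, ℂ)) x‖ ^ 2 := by
    refine intervalIntegral.integral_congr fun x _ => ?_
    simp only [sumC_apply]
    rfl
  have b2 : ∫ x in (-(Real.pi / 2))..(-(Real.pi / 2) + n2 * h),
      ‖∑ i ∈ sB, cB i * ((Real.cos (2 * Real.pi * (i : ℕ) / (n2 * h) * x) : ℝ) : ℂ)‖ ^ 2 =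
      ∫ x in (-(Real.pi / 2))..(-(Real.pi / 2) + n2 * h),
        ‖(∑ j ∈ sB, cB j • cosC (kB n1 n2 j) : C(ℝ, ℂ)) x‖ ^ 2 := by
    refine intervalIntegral.integral_congr fun x _ => ?_
    simp only [sumC_apply]
    rfl
  have b3 : ∫ x in (-(Real.pi / 2))..(-(Real.pi / 2) + h),
      ‖∑ i ∈ sG, cG i * ((Real.sin (2 * Real.pi * (i + 1 : ℕ) / h * x) : ℝ) : ℂ)‖ ^ 2 =
      ∫ x in (-(Real.pi / 2))..(-(Real.pi / 2) + h), ‖(GG n1 n2 sG cG) x‖ ^ 2 := by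
    refine intervalIntegral.integral_congr fun x _ => ?_
    simp only [GG, sumC_apply]
    rfl
  rw [b1] at a1
  rw [b2] at a2
  rw [b3] at a3
  have c1 : ∑ i ∈ sA, ‖cA i‖ ^ 2 ≤ 2 / h * I := by
    have := a1.trans i2
    rw [div_mul_eq_mul_div, le_div_iff₀ hh0]
    have h3 : n1 * (h * ∑ i ∈ sA, ‖cA i‖ ^ 2) ≤ n1 * (2 * I) := by linarith
    have := le_of_mul_le_mul_left h3 h1'
    linarith
  have c2 : ∑ i ∈ sB, ‖cB i‖ ^ 2 ≤ 2 / h * I := by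
    have := a2.trans i3
    rw [div_mul_eq_mul_div, le_div_iff₀ hh0]
    have h3 : n2 * (h * ∑ i ∈ sB, ‖cB i‖ ^ 2) ≤ n2 * (2 * I) := by linarith
    have := le_of_mul_le_mul_left h3 h2'
    linarith
  have c3 : ∑ i ∈ sG, ‖cG i‖ ^ 2 ≤ 2 / h * I := by
    rw [a3] at i1
    rw [div_mul_eq_mul_div, le_div_iff₀ hh0]
    linarith
  have e : 6 / h * (KK n1 n2 h (Real.pi / 2) ^ 2 * (n1 + n2 : ℕ)) *
      ‖el (PE n1 n2 sA sB sG cA cB cG)‖ ^ 2 = 2 / h * I + 2 / h * I + 2 / h * I := by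
    rw [hIdef]
    ring
  rw [e]
  linarith

lemma PO_split (s : Finset ℕ) (c : ℕ → ℂ) :
    PO n1 n2 s c = ∑ m ∈ s, (c m * aO n1 n2 m) • cosC (kO m) +
      ∑ m ∈ s, (c m * bO n1 n2 m) • sinC (kO m) := by
  rw [PO, ← Finset.sum_add_distrib]
  refine Finset.sum_congr rfl fun m _ => ?_
  ext x
  simp only [gO, ContinuousMap.smul_apply, ContinuousMap.add_apply, smul_eq_mul]
  ring

lemma sum_coeff_le (s : Finset ℕ) (c : ℕ → ℂ) {b : ℕ → ℝ} (hb : ∀ m, |b m| ≤ 1) :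
    ∑ m ∈ s, ‖c m * (b m : ℂ)‖ ^ 2 ≤ ∑ m ∈ s, ‖c m‖ ^ 2 := by
  refine Finset.sum_le_sum fun m _ => ?_
  rw [norm_mul, Complex.norm_real, Real.norm_eq_abs]
  exact pow_le_pow_left₀ (by positivity) (mul_le_of_le_one_right (norm_nonneg _) (hb m)) 2

lemma Oe_le (s : Finset ℕ) (c : ℕ → ℂ) :
    ‖el (∑ m ∈ s, (c m * aO n1 n2 m) • cosC (kO m))‖ ^ 2 ≤ Real.pi * ∑ m ∈ s, ‖c m‖ ^ 2 := by
  have h1 := (cosPars Real.pi_pos (-(Real.pi / 2)) (fun j : ℕ => j + 1)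
    (fun i j hij => by simpa using hij) s (fun m => c m * aO n1 n2 m)).2
  rw [show -(Real.pi / 2) + Real.pi = Real.pi / 2 by ring] at h1
  rw [norm_el]
  have e : ∫ x in (-(Real.pi / 2))..(Real.pi / 2),
      ‖(∑ m ∈ s, (c m * aO n1 n2 m) • cosC (kO m) : C(ℝ, ℂ)) x‖ ^ 2 =
      ∫ x in (-(Real.pi / 2))..(Real.pi / 2), ‖∑ i ∈ s, (c i * aO n1 n2 i) *
        ((Real.cos (2 * Real.pi * (i + 1 : ℕ) / Real.pi * x) : ℝ) : ℂ)‖ ^ 2 := by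
    refine intervalIntegral.integral_congr fun x _ => ?_
    simp only [sumC_apply]
    rfl
  rw [e]
  exact h1.trans (mul_le_mul_of_nonneg_left (sum_coeff_le s c aO_le) Real.pi_pos.le)

lemma Ov_eq (s : Finset ℕ) (c : ℕ → ℂ) :
    ‖el (∑ m ∈ s, (c m * bO n1 n2 m) • sinC (kO m))‖ ^ 2 =
      Real.pi / 2 * ∑ m ∈ s, ‖c m * (bO n1 n2 m : ℂ)‖ ^ 2 := by
  have h1 := sinPars Real.pi_pos (-(Real.pi / 2)) (fun j : ℕ => j + 1)
    (fun i j hij => by simpa using hij) (fun i => Nat.succ_ne_zero i) s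
    (fun m => c m * bO n1 n2 m)
  rw [show -(Real.pi / 2) + Real.pi = Real.pi / 2 by ring] at h1
  rw [norm_el, ← h1]
  refine intervalIntegral.integral_congr fun x _ => ?_
  simp only [sumC_apply]
  rfl

lemma cosC_neg (k x : ℝ) : cosC k (-x) = cosC k x := by
  simp only [cosC, ContinuousMap.coe_mk, mul_neg, Real.cos_neg]

lemma sinC_neg (k x : ℝ) : sinC k (-x) = -sinC k x := by
  simp only [sinC, ContinuousMap.coe_mk, mul_neg, Real.sin_neg, Complex.ofReal_neg]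

lemma xsinC_neg (k x : ℝ) : xsinC k (-x) = xsinC k x := by
  simp only [xsinC, ContinuousMap.coe_mk, mul_neg, Real.sin_neg, Complex.ofReal_neg]
  ring

lemma PE_even (sA : Finset ℕ) (sB : Finset {j : ℕ // ¬ n2 ∣ j}) (sG : Finset ℕ) (cA : ℕ → ℂ)
    (cB : {j : ℕ // ¬ n2 ∣ j} → ℂ) (cG : ℕ → ℂ) (x : ℝ) :
    PE n1 n2 sA sB sG cA cB cG (-x) = PE n1 n2 sA sB sG cA cB cG x := by
  simp only [PE, ContinuousMap.add_apply, sumC_apply, cosC_neg, xsinC_neg]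

/-- the lower bound -/
lemma lowBd (h1 : 0 < n1) (h2 : 0 < n2) (hc : Nat.Coprime n1 n2) :
    ∃ A : ℝ, 0 < A ∧ ∀ (s : Finset (Ind n2)) (c : Ind n2 → ℂ),
      ∑ i ∈ s, ‖c i‖ ^ 2 ≤ A * ‖∑ i ∈ s, c i • el (gI n1 n2 i)‖ ^ 2 := by
  set A1 := 6 / hh n1 n2 * (KK n1 n2 (hh n1 n2) (Real.pi / 2) ^ 2 * (n1 + n2 : ℕ)) with hA1
  have hA10 : 0 ≤ A1 := by
    have := hh_pos (n2 := n2) h1
    positivity
  have hn0 : (0 : ℝ) < (n1 + n2 : ℕ) := by exact_mod_cast (by omega : 0 < n1 + n2)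
  have hpi := Real.pi_pos
  set q := 2 / Real.pi * (((n1 + n2 : ℕ) : ℝ) / 2) ^ 2 with hq
  have hq0 : 0 < q := by positivity
  refine ⟨A1 * (2 + 2 * Real.pi * q) + q, by positivity, fun s c => ?_⟩
  obtain ⟨sA, sB, sG, sO, cA, cB, cG, cO, e1, e2⟩ := total (n1 := n1) s c
  have e3 : ∑ i ∈ s, c i • el (gI n1 n2 i) =
      el (PE n1 n2 sA sB sG cA cB cG + PO n1 n2 sO cO) := by
    rw [← e1, map_sum]
    exact Finset.sum_congr rfl fun i _ => (map_smul _ _ _).symm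
  rw [e3, e2]
  set g := PE n1 n2 sA sB sG cA cB cG + PO n1 n2 sO cO with hg
  set Oe : C(ℝ, ℂ) := ∑ m ∈ sO, (cO m * aO n1 n2 m) • cosC (kO m) with hOe
  set Ov : C(ℝ, ℂ) := ∑ m ∈ sO, (cO m * bO n1 n2 m) • sinC (kO m) with hOv
  have hsp : g = (PE n1 n2 sA sB sG cA cB cG + Oe) + Ov := by
    rw [hg, PO_split, add_assoc]
  obtain ⟨g1, g2⟩ := even_odd hsp (fun x => by
      rw [ContinuousMap.add_apply, ContinuousMap.add_apply, PE_even, hOe]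
      simp only [sumC_apply, cosC_neg]) (fun x => by
      rw [hOv]
      simp only [sumC_apply, sinC_neg, mul_neg, Finset.sum_neg_distrib])
  set D := ∑ j ∈ sO, ‖cO j‖ ^ 2 with hD
  have hD0 : 0 ≤ D := Finset.sum_nonneg fun _ _ => by positivity
  have hDle : D ≤ q * ‖el g‖ ^ 2 := by
    have h3 : (2 / ((n1 + n2 : ℕ) : ℝ)) ^ 2 * D ≤ ∑ m ∈ sO, ‖cO m * (bO n1 n2 m : ℂ)‖ ^ 2 := by
      rw [hD, Finset.mul_sum]
      refine Finset.sum_le_sum fun m _ => ?_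
      rw [norm_mul, Complex.norm_real, Real.norm_eq_abs, mul_pow, mul_comm]
      exact mul_le_mul_of_nonneg_left (pow_le_pow_left₀ (by positivity) (bO_low h1 h2 hc m) 2)
        (by positivity)
    have h4 := Ov_eq (n1 := n1) (n2 := n2) sO cO
    rw [← hOv] at h4
    have h5 : ‖el Ov‖ ^ 2 ≤ ‖el g‖ ^ 2 := pow_le_pow_left₀ (norm_nonneg _) g2 2
    have h6 : Real.pi / 2 * ((2 / ((n1 + n2 : ℕ) : ℝ)) ^ 2 * D) ≤ ‖el g‖ ^ 2 := by
      refine le_trans ?_ h5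
      rw [h4]
      exact mul_le_mul_of_nonneg_left h3 (by positivity)
    have h7 : D = q * (Real.pi / 2 * ((2 / ((n1 + n2 : ℕ) : ℝ)) ^ 2 * D)) := by
      rw [hq]
      field_simp
    rw [h7]
    exact mul_le_mul_of_nonneg_left h6 hq0.le
  have hOe2 : ‖el Oe‖ ^ 2 ≤ Real.pi * D := Oe_le sO cO
  have hE1 : ‖el (PE n1 n2 sA sB sG cA cB cG)‖ ≤ ‖el g‖ + ‖el Oe‖ := by
    have e4 : PE n1 n2 sA sB sG cA cB cG = (PE n1 n2 sA sB sG cA cB cG + Oe) - Oe := by ring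
    rw [e4, map_sub]
    refine (norm_sub_le _ _).trans ?_
    linarith
  have hE2 : ‖el (PE n1 n2 sA sB sG cA cB cG)‖ ^ 2 ≤ 2 * ‖el g‖ ^ 2 + 2 * ‖el Oe‖ ^ 2 := by
    have h8 : ‖el (PE n1 n2 sA sB sG cA cB cG)‖ ^ 2 ≤ (‖el g‖ + ‖el Oe‖) ^ 2 :=
      pow_le_pow_left₀ (norm_nonneg _) hE1 2
    nlinarith [sq_nonneg (‖el g‖ - ‖el Oe‖)]
  have hmain := evenLow h1 h2 hc sA sB sG cA cB cG
  rw [← hA1] at hmain
  have h9 : ‖el (PE n1 n2 sA sB sG cA cB cG)‖ ^ 2 ≤ (2 + 2 * Real.pi * q) * ‖el g‖ ^ 2 := by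
    have h10 : Real.pi * D ≤ Real.pi * (q * ‖el g‖ ^ 2) := mul_le_mul_of_nonneg_left hDle hpi.le
    nlinarith
  calc _ ≤ A1 * ‖el (PE n1 n2 sA sB sG cA cB cG)‖ ^ 2 + D := by linarith
    _ ≤ A1 * ((2 + 2 * Real.pi * q) * ‖el g‖ ^ 2) + q * ‖el g‖ ^ 2 :=
        add_le_add (mul_le_mul_of_nonneg_left h9 hA10) hDle
    _ = _ := by ring

lemma five_sq (a b c d e : ℝ) : (a + b + c + d + e) ^ 2 ≤
    5 * (a ^ 2 + b ^ 2 + c ^ 2 + d ^ 2 + e ^ 2) := by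
  have h : 5 * (a ^ 2 + b ^ 2 + c ^ 2 + d ^ 2 + e ^ 2) - (a + b + c + d + e) ^ 2 =
      (a - b) ^ 2 + (a - c) ^ 2 + (a - d) ^ 2 + (a - e) ^ 2 + (b - c) ^ 2 + (b - d) ^ 2 +
      (b - e) ^ 2 + (c - d) ^ 2 + (c - e) ^ 2 + (d - e) ^ 2 := by ring
  have h2 : 0 ≤ (a - b) ^ 2 + (a - c) ^ 2 + (a - d) ^ 2 + (a - e) ^ 2 + (b - c) ^ 2 + (b - d) ^ 2 +
      (b - e) ^ 2 + (c - d) ^ 2 + (c - e) ^ 2 + (d - e) ^ 2 := by positivity
  linarith

/-- the upper bound -/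
lemma upBd (h1 : 0 < n1) (h2 : 0 < n2) :
    ∃ B : ℝ, 0 < B ∧ ∀ (s : Finset (Ind n2)) (c : Ind n2 → ℂ),
      ‖∑ i ∈ s, c i • el (gI n1 n2 i)‖ ^ 2 ≤ B * ∑ i ∈ s, ‖c i‖ ^ 2 := by
  have hh0 : 0 < hh n1 n2 := hh_pos h1
  have h1' : (0 : ℝ) < n1 := by exact_mod_cast h1
  have h2' : (0 : ℝ) < n2 := by exact_mod_cast h2
  have hn0 : (0 : ℝ) < (n1 + n2 : ℕ) := by exact_mod_cast (by omega : 0 < n1 + n2)
  have hpi := Real.pi_pos
  set N : ℝ := ((n1 + n2 : ℕ) : ℝ) with hN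
  set B1 : ℝ := N * (n1 * hh n1 n2) with hB1
  set B2 : ℝ := N * (n2 * hh n1 n2) with hB2
  set B3 : ℝ := (Real.pi / 2) ^ 2 * (N * (hh n1 n2 / 2)) with hB3
  have hB10 : 0 < B1 := by positivity
  have hB20 : 0 < B2 := by positivity
  have hB30 : 0 < B3 := by positivity
  have hlen : -(Real.pi / 2) + Real.pi = Real.pi / 2 := by ring
  refine ⟨5 * (B1 + B2 + B3 + 2 * Real.pi), by positivity, fun s c => ?_⟩
  obtain ⟨sA, sB, sG, sO, cA, cB, cG, cO, e1, e2⟩ := total (n1 := n1) s c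
  have e3 : ∑ i ∈ s, c i • el (gI n1 n2 i) =
      el (PE n1 n2 sA sB sG cA cB cG + PO n1 n2 sO cO) := by
    rw [← e1, map_sum]
    exact Finset.sum_congr rfl fun i _ => (map_smul _ _ _).symm
  rw [e3, e2, PO_split, PE]
  set PA : C(ℝ, ℂ) := ∑ j ∈ sA, cA j • cosC (kA n1 n2 j) with hPA
  set PB : C(ℝ, ℂ) := ∑ j ∈ sB, cB j • cosC (kB n1 n2 j) with hPB
  set PG : C(ℝ, ℂ) := ∑ j ∈ sG, cG j • xsinC (kG n1 n2 j) with hPG
  set Oe : C(ℝ, ℂ) := ∑ m ∈ sO, (cO m * aO n1 n2 m) • cosC (kO m) with hOe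
  set Ov : C(ℝ, ℂ) := ∑ m ∈ sO, (cO m * bO n1 n2 m) • sinC (kO m) with hOv
  -- the coprimality is not needed for the periodicity
  have b1 : ‖el PA‖ ^ 2 ≤ B1 * ∑ j ∈ sA, ‖cA j‖ ^ 2 := by
    have h3 := perUp (f := PA) PA.continuous (T := n1 * hh n1 n2) (x0 := -(Real.pi / 2))
      (L := Real.pi) (N := n1 + n2) (fun x => by
        rw [hPA, sumC_apply, sumC_apply]
        refine Finset.sum_congr rfl fun j _ => ?_
        simp only [cosC, ContinuousMap.coe_mk]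
        have e : kA n1 n2 j * (x + n1 * hh n1 n2) = kA n1 n2 j * x + j * (2 * Real.pi) := by
          rw [kA]; field_simp
        rw [e, Real.cos_add_nat_mul_two_pi]) hpi.le (by
        have : (1 : ℝ) ≤ n1 := by exact_mod_cast h1
        have h4 := hh_mul (n2 := n2) h1
        nlinarith [mul_pos hn0 hh0])
    rw [hlen] at h3
    have h4 := (cosPars (mul_pos h1' hh0) (-(Real.pi / 2)) (fun j : ℕ => j)
      Function.injective_id sA cA).2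
    have h5 : ∫ x in (-(Real.pi / 2))..(-(Real.pi / 2) + n1 * hh n1 n2),
        ‖∑ i ∈ sA, cA i * ((Real.cos (2 * Real.pi * i / (n1 * hh n1 n2) * x) : ℝ) : ℂ)‖ ^ 2 =
        ∫ x in (-(Real.pi / 2))..(-(Real.pi / 2) + n1 * hh n1 n2), ‖PA x‖ ^ 2 := by
      refine intervalIntegral.integral_congr fun x _ => ?_
      simp only [hPA, sumC_apply]
      rfl
    rw [h5] at h4
    rw [norm_el]
    refine h3.trans ?_
    rw [hB1, mul_assoc]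
    exact mul_le_mul_of_nonneg_left h4 hn0.le
  have b2 : ‖el PB‖ ^ 2 ≤ B2 * ∑ j ∈ sB, ‖cB j‖ ^ 2 := by
    have h3 := perUp (f := PB) PB.continuous (T := n2 * hh n1 n2) (x0 := -(Real.pi / 2))
      (L := Real.pi) (N := n1 + n2) (fun x => by
        rw [hPB, sumC_apply, sumC_apply]
        refine Finset.sum_congr rfl fun j _ => ?_
        simp only [cosC, ContinuousMap.coe_mk]
        have e : kB n1 n2 j * (x + n2 * hh n1 n2) = kB n1 n2 j * x + (j : ℕ) * (2 * Real.pi) := by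
          rw [kB]; field_simp
        rw [e, Real.cos_add_nat_mul_two_pi]) hpi.le (by
        have : (1 : ℝ) ≤ n2 := by exact_mod_cast h2
        have h4 := hh_mul (n2 := n2) h1
        nlinarith [mul_pos hn0 hh0])
    rw [hlen] at h3
    have h4 := (cosPars (mul_pos h2' hh0) (-(Real.pi / 2))
      (fun j : {j : ℕ // ¬ n2 ∣ j} => (j : ℕ)) Subtype.val_injective sB cB).2
    have h5 : ∫ x in (-(Real.pi / 2))..(-(Real.pi / 2) + n2 * hh n1 n2),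
        ‖∑ i ∈ sB, cB i * ((Real.cos (2 * Real.pi * (i : ℕ) / (n2 * hh n1 n2) * x) : ℝ) : ℂ)‖ ^ 2 =
        ∫ x in (-(Real.pi / 2))..(-(Real.pi / 2) + n2 * hh n1 n2), ‖PB x‖ ^ 2 := by
      refine intervalIntegral.integral_congr fun x _ => ?_
      simp only [hPB, sumC_apply]
      rfl
    rw [h5] at h4
    rw [norm_el]
    refine h3.trans ?_
    rw [hB2, mul_assoc]
    exact mul_le_mul_of_nonneg_left h4 hn0.le
  have b3 : ‖el PG‖ ^ 2 ≤ B3 * ∑ j ∈ sG, ‖cG j‖ ^ 2 := by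
    have h3 := perUp (f := GG n1 n2 sG cG) (GG n1 n2 sG cG).continuous (T := hh n1 n2)
      (x0 := -(Real.pi / 2)) (L := Real.pi) (N := n1 + n2) (fun x => by
        rw [GG, sumC_apply, sumC_apply]
        refine Finset.sum_congr rfl fun j _ => ?_
        simp only [sinC, ContinuousMap.coe_mk]
        have e : kG n1 n2 j * (x + hh n1 n2) = kG n1 n2 j * x + (j + 1 : ℕ) * (2 * Real.pi) := by
          rw [kG]; field_simp
        rw [e, Real.sin_add_nat_mul_two_pi]) hpi.le (hh_mul h1).ge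
    rw [hlen] at h3
    have h4 := sinPars hh0 (-(Real.pi / 2)) (fun j : ℕ => j + 1)
      (fun i j hij => by simpa using hij) (fun i => Nat.succ_ne_zero i) sG cG
    have h5 : ∫ x in (-(Real.pi / 2))..(-(Real.pi / 2) + hh n1 n2),
        ‖∑ i ∈ sG, cG i * ((Real.sin (2 * Real.pi * (i + 1 : ℕ) / hh n1 n2 * x) : ℝ) : ℂ)‖ ^ 2 =
        ∫ x in (-(Real.pi / 2))..(-(Real.pi / 2) + hh n1 n2), ‖(GG n1 n2 sG cG) x‖ ^ 2 := by
      refine intervalIntegral.integral_congr fun x _ => ?_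
      simp only [GG, sumC_apply]
      rfl
    rw [h5] at h4
    rw [norm_el]
    have h6 : ∫ x in (-(Real.pi / 2))..(Real.pi / 2), ‖PG x‖ ^ 2 ≤
        ∫ x in (-(Real.pi / 2))..(Real.pi / 2), (Real.pi / 2) ^ 2 * ‖(GG n1 n2 sG cG) x‖ ^ 2 := by
      refine intervalIntegral.integral_mono_on (by linarith)
        (Continuous.intervalIntegrable (by fun_prop) _ _)
        (Continuous.intervalIntegrable (by fun_prop) _ _) fun x hx => ?_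
      have e : PG x = (x : ℂ) * (GG n1 n2 sG cG) x := by
        rw [hPG, GG, sumC_apply, sumC_apply, Finset.mul_sum]
        refine Finset.sum_congr rfl fun j _ => ?_
        simp only [xsinC, sinC, ContinuousMap.coe_mk]
        ring
      rw [e, norm_mul, mul_pow, Complex.norm_real, Real.norm_eq_abs]
      refine mul_le_mul_of_nonneg_right (pow_le_pow_left₀ (abs_nonneg _) ?_ 2) (by positivity)
      rw [abs_le]
      exact ⟨hx.1, hx.2⟩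
    refine h6.trans ?_
    rw [intervalIntegral.integral_const_mul, hB3, mul_assoc]
    refine mul_le_mul_of_nonneg_left (h3.trans ?_) (by positivity)
    rw [h4, mul_assoc]
  have b4 : ‖el Oe‖ ^ 2 ≤ Real.pi * ∑ j ∈ sO, ‖cO j‖ ^ 2 := Oe_le sO cO
  have b5 : ‖el Ov‖ ^ 2 ≤ Real.pi * ∑ j ∈ sO, ‖cO j‖ ^ 2 := by
    rw [hOv, Ov_eq]
    have h3 := sum_coeff_le (b := bO n1 n2) sO cO bO_le
    have h4 : 0 ≤ ∑ m ∈ sO, ‖cO m * (bO n1 n2 m : ℂ)‖ ^ 2 :=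
      Finset.sum_nonneg fun _ _ => by positivity
    nlinarith
  have h5 : ‖el (PA + PB + PG + (Oe + Ov))‖ ^ 2 ≤
      5 * (‖el PA‖ ^ 2 + ‖el PB‖ ^ 2 + ‖el PG‖ ^ 2 + ‖el Oe‖ ^ 2 + ‖el Ov‖ ^ 2) := by
    have h6 : ‖el (PA + PB + PG + (Oe + Ov))‖ ≤
        ‖el PA‖ + ‖el PB‖ + ‖el PG‖ + ‖el Oe‖ + ‖el Ov‖ := by
      simp only [map_add]
      calc _ ≤ ‖el PA + el PB + el PG‖ + ‖el Oe + el Ov‖ := norm_add_le _ _
        _ ≤ (‖el PA + el PB‖ + ‖el PG‖) + (‖el Oe‖ + ‖el Ov‖) :=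
            add_le_add (norm_add_le _ _) (norm_add_le _ _)
        _ ≤ _ := by
            have := norm_add_le (el PA) (el PB)
            linarith
    refine (pow_le_pow_left₀ (norm_nonneg _) h6 2).trans ?_
    exact five_sq _ _ _ _ _
  refine h5.trans ?_
  have z1 : 0 ≤ ∑ j ∈ sA, ‖cA j‖ ^ 2 := Finset.sum_nonneg fun _ _ => by positivity
  have z2 : 0 ≤ ∑ j ∈ sB, ‖cB j‖ ^ 2 := Finset.sum_nonneg fun _ _ => by positivity
  have z3 : 0 ≤ ∑ j ∈ sG, ‖cG j‖ ^ 2 := Finset.sum_nonneg fun _ _ => by positivity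
  have z4 : 0 ≤ ∑ j ∈ sO, ‖cO j‖ ^ 2 := Finset.sum_nonneg fun _ _ => by positivity
  set SA := ∑ j ∈ sA, ‖cA j‖ ^ 2
  set SB := ∑ j ∈ sB, ‖cB j‖ ^ 2
  set SG := ∑ j ∈ sG, ‖cG j‖ ^ 2
  set SO := ∑ j ∈ sO, ‖cO j‖ ^ 2
  have w : 0 ≤ B1 * (SB + SG + SO) + B2 * (SA + SG + SO) + B3 * (SA + SB + SO) +
      2 * Real.pi * (SA + SB + SG) := by positivity
  have e5 : 5 * (B1 + B2 + B3 + 2 * Real.pi) * (SA + SB + SG + SO) =
      5 * (B1 * SA + B2 * SB + B3 * SG + Real.pi * SO + Real.pi * SO) +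
      5 * (B1 * (SB + SG + SO) + B2 * (SA + SG + SO) + B3 * (SA + SB + SO) +
      2 * Real.pi * (SA + SB + SG)) := by ring
  rw [e5]
  linarith

/-- the bounds -/
theorem bds (h1 : 0 < n1) (h2 : 0 < n2) (hc : Nat.Coprime n1 n2) :
    ∃ A B : ℝ, Bds (fun i : Ind n2 => el (gI n1 n2 i)) A B := by
  obtain ⟨A, hA, hlo⟩ := lowBd h1 h2 hc
  obtain ⟨B, hB, hup⟩ := upBd (n1 := n1) (n2 := n2) h1 h2
  exact ⟨A, B, hA, hB, hlo, hup⟩

end

end Pool.Agent.X115.PR
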