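import Mathlib
import Pool.Agent.X115.PR.Cells

/-!
Completeness of the exponentials.
-/

set_option autoImplicit false

namespace Pool.Agent.X115.PR

open Finset MeasureTheory intervalIntegral Polynomial

noncomputable section

lemma uniq {a b : ℝ} (hab : a < b) {g : ℝ → ℂ} (hg : MemLp g 2 (volume.restrict (Set.Ioc a b)))
    (h : ∀ m : ℤ, ∫ x in a..b, Complex.exp (2 * Real.pi * Complex.I * m * x / ((b - a : ℝ) : ℂ)) *
      g x = 0) :
    ∀ᵐ x ∂(volume.restrict (Set.Ioc a b)), g x = 0 := by
  have h1 := hasSum_sq_fourierCoeffOn hab hg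
  have h2 : ∀ n, fourierCoeffOn hab g n = 0 := by
    intro n
    rw [fourierCoeffOn_eq_integral]
    have h3 := h (-n)
    simp only [fourier_coe_apply, smul_eq_mul]
    rw [h3, smul_zero]
  simp only [h2, norm_zero, ne_eq, OfNat.ofNat_ne_zero, not_false_eq_true, zero_pow] at h1
  have h3 := h1.unique hasSum_zero
  have h4 : ∫ x in a..b, ‖g x‖ ^ 2 = 0 := by
    rw [smul_eq_mul] at h3
    rcases mul_eq_zero.mp h3 with h5 | h5
    · rw [inv_eq_zero] at h5
      linarith
    · exact h5
  rw [intervalIntegral.integral_of_le hab.le,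
    integral_eq_zero_iff_of_nonneg (fun x => by positivity) (by
      have := hg.integrable_norm_pow (by norm_num)
      simpa using this)] at h4
  filter_upwards [h4] with x hx
  have : ‖g x‖ ^ 2 = 0 := hx
  exact norm_eq_zero.mp (pow_eq_zero_iff (by norm_num) |>.mp this)

lemma ii {f : ℝ → ℂ} (hf : MemLp f 2 volume) (a b : ℝ) : IntervalIntegrable f volume a b := by
  rw [intervalIntegrable_iff]
  show Integrable f (volume.restrict (Set.Ioc (min a b) (max a b)))
  exact (hf.restrict _).integrable (by norm_num)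

lemma shift {f : ℝ → ℂ} (hf : MemLp f 2 volume) (c : ℝ) : MemLp (fun x => f (x + c)) 2 volume :=
  hf.comp_measurePreserving (measurePreserving_add_right volume c)

lemma mulBdd {f : ℝ → ℂ} (hf : MemLp f 2 volume) {u : ℝ → ℂ} (hu : Continuous u) (a b : ℝ) :
    MemLp (fun x => u x * f x) 2 (volume.restrict (Set.Ioc a b)) := by
  obtain ⟨C, hC⟩ := (isCompact_Icc (a := a) (b := b)).exists_bound_of_continuousOn hu.continuousOn
  refine MemLp.of_le_mul (c := C) (hf.restrict (Set.Ioc a b))
    (hu.aestronglyMeasurable.mul (hf.restrict _).aestronglyMeasurable) ?_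
  rw [ae_restrict_iff' measurableSet_Ioc]
  refine Filter.Eventually.of_forall fun x hx => ?_
  rw [norm_mul]
  exact mul_le_mul_of_nonneg_right (hC x ⟨hx.1.le, hx.2⟩) (norm_nonneg _)

lemma cellU {f : ℝ → ℂ} (hf : MemLp f 2 volume) {x0 h : ℝ} (hh : 0 < h) {n N : ℕ} (hN : 0 < N)
    {u : ℝ → ℂ} (hu : Continuous u)
    (h0 : ∀ q : ℤ, ∫ x in x0..(x0 + n * h),
      Complex.exp (2 * Real.pi * Complex.I * q * x / (N * h)) * (u x * f x) = 0) (r : ℕ) :
    ∀ᵐ x ∂(volume.restrict (Set.Ioc x0 (x0 + h))),
      ∑ j ∈ range n, Complex.exp (2 * Real.pi * Complex.I * r / N) ^ j *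
        (u (x + j * h) * f (x + j * h)) = 0 := by
  have hN' : (N : ℂ) ≠ 0 := by exact_mod_cast hN.ne'
  have hh' : (h : ℂ) ≠ 0 := by exact_mod_cast hh.ne'
  set ω := Complex.exp (2 * Real.pi * Complex.I * r / N) with hω
  set Y : ℝ → ℂ := fun x => ∑ j ∈ range n, ω ^ j * (u (x + j * h) * f (x + j * h)) with hY
  set E : ℝ → ℂ := fun x => Complex.exp (2 * Real.pi * Complex.I * r * x / (N * h)) with hE
  have hEc : Continuous E := by
    rw [hE]
    fun_prop
  have hmemY : MemLp (fun x => E x * Y x) 2 (volume.restrict (Set.Ioc x0 (x0 + h))) := by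
    have e : (fun x => E x * Y x) = fun x => ∑ j ∈ range n,
        (E x * ω ^ j * u (x + j * h)) * f (x + j * h) := by
      funext x
      rw [hY]
      simp only
      rw [Finset.mul_sum]
      refine Finset.sum_congr rfl fun j _ => ?_
      ring
    rw [e]
    refine memLp_finsetSum _ fun j _ => ?_
    exact mulBdd (shift hf _) (u := fun x => E x * ω ^ j * u (x + j * h)) (by fun_prop) _ _
  have hzero : ∀ m : ℤ, ∫ x in x0..(x0 + h),
      Complex.exp (2 * Real.pi * Complex.I * m * x / ((x0 + h - x0 : ℝ) : ℂ)) * (E x * Y x) = 0 := by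
    intro m
    have h1 := h0 (r + N * m)
    have hint : IntervalIntegrable (fun x => Complex.exp (2 * Real.pi * Complex.I *
        ((r + N * m : ℤ) : ℂ) * x / (N * h)) * (u x * f x)) volume x0 (x0 + n * h) := by
      rw [intervalIntegrable_iff_integrableOn_Ioc_of_le (by
        have : (0 : ℝ) ≤ n * h := by positivity
        linarith)]
      have h2 := mulBdd hf (u := fun x : ℝ => Complex.exp (2 * Real.pi * Complex.I *
        ((r + N * m : ℤ) : ℂ) * x / (N * h)) * u x) (by fun_prop) x0 (x0 + n * h)
      have h3 := h2.integrable (by norm_num : (1 : ENNReal) ≤ 2)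
      refine h3.congr (Filter.Eventually.of_forall fun x => ?_)
      simp only [mul_assoc]
    rw [cells n hh.le hint] at h1
    rw [← h1, ← intervalIntegral.integral_finsetSum]
    · refine intervalIntegral.integral_congr fun x _ => ?_
      simp only [hY, hE]
      rw [Finset.mul_sum, Finset.mul_sum]
      refine Finset.sum_congr rfl fun j _ => ?_
      have e1 : Complex.exp (2 * Real.pi * Complex.I * ((r + N * m : ℤ) : ℂ) *
          ((x + j * h : ℝ) : ℂ) / (N * h)) =
          Complex.exp (2 * Real.pi * Complex.I * m * x / ((x0 + h - x0 : ℝ) : ℂ)) *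
          (Complex.exp (2 * Real.pi * Complex.I * r * x / (N * h)) * ω ^ j) := by
        rw [hω, ← Complex.exp_nat_mul, ← Complex.exp_add, ← Complex.exp_add,
          Complex.exp_eq_exp_iff_exists_int]
        refine ⟨m * j, ?_⟩
        rw [show (x0 + h - x0 : ℝ) = h by ring]
        push_cast
        field_simp
        ring
      rw [e1]
      ring
    · intro j hj
      have h4 : IntervalIntegrable (fun x => Complex.exp (2 * Real.pi * Complex.I *
        ((r + N * m : ℤ) : ℂ) * x / (N * h)) * (u x * f x)) volume (x0 + j * h)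
          (x0 + h + j * h) := by
        refine hint.mono_set ?_
        have h5 : (j : ℝ) + 1 ≤ n := by exact_mod_cast Finset.mem_range.mp hj
        have h6 : (0 : ℝ) ≤ j := Nat.cast_nonneg j
        rw [Set.uIcc_of_le (by linarith), Set.uIcc_of_le (by nlinarith)]
        exact Set.Icc_subset_Icc (by nlinarith) (by nlinarith)
      have h7 := h4.comp_add_right (j * h)
      rw [add_sub_cancel_right, add_sub_cancel_right] at h7
      exact h7
  have h2 := uniq (by linarith : x0 < x0 + h) hmemY hzero
  filter_upwards [h2] with x hx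
  rcases mul_eq_zero.mp hx with h3 | h3
  · exact absurd h3 (Complex.exp_ne_zero _)
  · exact h3

/-- polynomials -/
lemma polyzero {n1 n2 : ℕ} (h1 : 0 < n1) (h2 : 0 < n2) (hc : Nat.Coprime n1 n2) {p : ℂ[X]}
    (hdeg : p.natDegree < n1 + n2)
    (hA : ∀ r : ℕ, p.eval (Complex.exp (2 * Real.pi * Complex.I * r / n1)) = 0)
    (hB : ∀ r : ℕ, p.eval (Complex.exp (2 * Real.pi * Complex.I * r / n2)) = 0)
    (hd : (derivative p).eval 1 = 0) : p = 0 := by
  have key : ∀ n : ℕ, 0 < n → IsPrimitiveRoot (Complex.exp (2 * Real.pi * Complex.I / n)) n :=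
    fun n hn => Complex.isPrimitiveRoot_exp n hn.ne'
  have hpow : ∀ n r : ℕ, Complex.exp (2 * Real.pi * Complex.I * r / n) =
      Complex.exp (2 * Real.pi * Complex.I / n) ^ r := by
    intro n r
    rw [← Complex.exp_nat_mul]
    congr 1
    ring
  have hroot : ∀ n : ℕ, 0 < n → (∀ r : ℕ, p.eval (Complex.exp (2 * Real.pi * Complex.I * r / n)) = 0) →
      ∀ z : ℂ, z ^ n = 1 → p.eval z = 0 := by
    intro n hn h z hz
    have : NeZero n := ⟨hn.ne'⟩
    obtain ⟨i, -, rfl⟩ := (key n hn).eq_pow_of_pow_eq_one hz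
    rw [← hpow]
    exact h i
  have hA' := hroot n1 h1 hA
  have hB' := hroot n2 h2 hB
  -- divisibility by `X ^ n1 - 1`
  have hdvd : (X ^ n1 - 1 : ℂ[X]) ∣ p := by
    rw [X_pow_sub_one_eq_prod h1 (key n1 h1)]
    refine Finset.prod_dvd_of_coprime ?_ ?_
    · intro z _ w _ hzw
      exact pairwise_coprime_X_sub_C (s := (id : ℂ → ℂ)) Function.injective_id hzw
    · intro z hz
      rw [dvd_iff_isRoot]
      rw [mem_nthRootsFinset h1] at hz
      exact hA' z hz
  obtain ⟨q, hq⟩ := hdvd
  by_contra hp
  have hq0 : q ≠ 0 := by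
    rintro rfl
    exact hp (by rw [hq, mul_zero])
  have hX : (X ^ n1 - 1 : ℂ[X]) ≠ 0 := by
    intro h
    exact hp (by rw [hq, h, zero_mul])
  have hdq : q.natDegree < n2 := by
    have h3 : p.natDegree = n1 + q.natDegree := by
      rw [hq, natDegree_mul hX hq0]
      congr 1
      exact natDegree_X_pow_sub_C (n := n1) (r := (1 : ℂ))
    omega
  have hq1 : q.eval 1 = 0 := by
    rw [hq, derivative_mul] at hd
    simp only [derivative_sub, derivative_X_pow, derivative_one, sub_zero, eval_add, eval_mul,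
      eval_pow, eval_X, one_pow, mul_one, eval_sub, eval_one, sub_self, zero_mul,
      add_zero, map_natCast, eval_natCast] at hd
    rcases mul_eq_zero.mp hd with h3 | h3
    · exact absurd h3 (by exact_mod_cast h1.ne')
    · exact h3
  have hqz : ∀ z : ℂ, z ^ n2 = 1 → q.eval z = 0 := by
    intro z hz
    by_cases hz1 : z = 1
    · rw [hz1]; exact hq1
    have h3 := hB' z hz
    rw [hq, eval_mul] at h3
    rcases mul_eq_zero.mp h3 with h4 | h4
    · exfalso
      simp only [eval_sub, eval_pow, eval_X, eval_one] at h4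
      have h5 : z ^ n1 = 1 := sub_eq_zero.mp h4
      have h6 : orderOf z ∣ Nat.gcd n1 n2 :=
        Nat.dvd_gcd (orderOf_dvd_of_pow_eq_one h5) (orderOf_dvd_of_pow_eq_one hz)
      rw [hc] at h6
      have h7 : orderOf z = 1 := Nat.dvd_one.mp h6
      exact hz1 (orderOf_eq_one_iff.mp h7)
    · exact h4
  apply hq0
  have hcard := (key n2 h2).card_nthRootsFinset
  refine eq_zero_of_natDegree_lt_card_of_eval_eq_zero' q (nthRootsFinset n2 (1 : ℂ)) ?_ ?_
  · intro z hz
    rw [mem_nthRootsFinset h2] at hz
    exact hqz z hz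
  · rw [hcard]
    exact hdq

/-- completeness -/
lemma complete {n1 n2 : ℕ} (h1 : 0 < n1) (h2 : 0 < n2) (hc : Nat.Coprime n1 n2) {f : ℝ → ℂ}
    (hf : MemLp f 2 volume) {x0 h : ℝ} (hh : 0 < h)
    (hA : ∀ q : ℤ, ∫ x in x0..(x0 + (n1 + n2 : ℕ) * h),
      Complex.exp (2 * Real.pi * Complex.I * q * x / (n1 * h)) * f x = 0)
    (hB : ∀ q : ℤ, ∫ x in x0..(x0 + (n1 + n2 : ℕ) * h),
      Complex.exp (2 * Real.pi * Complex.I * q * x / (n2 * h)) * f x = 0)
    (hG : ∀ q : ℤ, ∫ x in x0..(x0 + (n1 + n2 : ℕ) * h),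
      Complex.exp (2 * Real.pi * Complex.I * q * x / h) * (x * f x) = 0) :
    ∀ᵐ x ∂(volume.restrict (Set.Ioc x0 (x0 + (n1 + n2 : ℕ) * h))), f x = 0 := by
  set n := n1 + n2 with hn
  have a1 : ∀ᵐ x ∂(volume.restrict (Set.Ioc x0 (x0 + h))), ∀ r : ℕ,
      ∑ j ∈ range n, Complex.exp (2 * Real.pi * Complex.I * r / n1) ^ j * f (x + j * h) = 0 := by
    rw [ae_all_iff]
    intro r
    have := cellU hf hh (x0 := x0) (n := n) h1 (u := fun _ => 1) continuous_const
      (fun q => by simpa using hA q) r
    simpa using this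
  have a2 : ∀ᵐ x ∂(volume.restrict (Set.Ioc x0 (x0 + h))), ∀ r : ℕ,
      ∑ j ∈ range n, Complex.exp (2 * Real.pi * Complex.I * r / n2) ^ j * f (x + j * h) = 0 := by
    rw [ae_all_iff]
    intro r
    have := cellU hf hh (x0 := x0) (n := n) h2 (u := fun _ => 1) continuous_const
      (fun q => by simpa using hB q) r
    simpa using this
  have a3 : ∀ᵐ x ∂(volume.restrict (Set.Ioc x0 (x0 + h))),
      ∑ j ∈ range n, (((x + j * h : ℝ) : ℂ) * f (x + j * h)) = 0 := by
    have := cellU hf hh (x0 := x0) (n := n) (N := 1) one_pos (u := fun x => (x : ℂ))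
      Complex.continuous_ofReal (fun q => by simpa using hG q) 0
    simpa using this
  have hcell : ∀ᵐ x ∂(volume.restrict (Set.Ioc x0 (x0 + h))), ∀ j : ℕ, j < n →
      f (x + j * h) = 0 := by
    filter_upwards [a1, a2, a3] with x b1 b2 b3
    set p : ℂ[X] := ∑ j ∈ range n, C (f (x + j * h)) * X ^ j with hp
    have hev : ∀ z, p.eval z = ∑ j ∈ range n, z ^ j * f (x + j * h) := by
      intro z
      rw [hp, eval_finsetSum]
      refine Finset.sum_congr rfl fun j _ => ?_
      simp only [eval_mul, eval_C, eval_pow, eval_X]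
      ring
    have hdeg : p.natDegree < n1 + n2 := by
      have h3 : p.degree < (n : WithBot ℕ) := by
        rw [hp]
        refine (degree_sum_le _ _).trans_lt ?_
        rw [Finset.sup_lt_iff (by exact_mod_cast WithBot.bot_lt_coe n)]
        intro j hj
        refine (degree_C_mul_X_pow_le j _).trans_lt ?_
        exact_mod_cast Finset.mem_range.mp hj
      by_cases hp0 : p = 0
      · rw [hp0, natDegree_zero]; omega
      · exact (natDegree_lt_iff_degree_lt hp0).mpr h3
    have hder : (derivative p).eval 1 = 0 := by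
      have h3 : (derivative p).eval 1 = ∑ j ∈ range n, (j : ℂ) * f (x + j * h) := by
        rw [hp, derivative_sum, eval_finsetSum]
        refine Finset.sum_congr rfl fun j _ => ?_
        simp only [derivative_mul, derivative_C, zero_mul, derivative_X_pow, zero_add, eval_mul,
          eval_C, eval_pow, eval_X, one_pow, mul_one, map_natCast, eval_natCast]
        ring
      rw [h3]
      have h4 := b1 0
      simp only [Nat.cast_zero, mul_zero, zero_div, Complex.exp_zero, one_pow, one_mul] at h4
      have h5 : ∑ j ∈ range n, (((x + j * h : ℝ) : ℂ) * f (x + j * h)) =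
          x * ∑ j ∈ range n, f (x + j * h) + h * ∑ j ∈ range n, (j : ℂ) * f (x + j * h) := by
        rw [Finset.mul_sum, Finset.mul_sum, ← Finset.sum_add_distrib]
        refine Finset.sum_congr rfl fun j _ => ?_
        push_cast
        ring
      rw [h5, h4, mul_zero, zero_add] at b3
      rcases mul_eq_zero.mp b3 with h6 | h6
      · exact absurd h6 (by exact_mod_cast hh.ne')
      · exact h6
    have hp0 : p = 0 := polyzero h1 h2 hc hdeg (fun r => by rw [hev]; exact b1 r)
      (fun r => by rw [hev]; exact b2 r) hder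
    intro j hj
    have h7 : p.coeff j = f (x + j * h) := by
      rw [hp, finsetSum_coeff]
      simp only [coeff_C_mul, coeff_X_pow]
      rw [Finset.sum_eq_single_of_mem j (Finset.mem_range.mpr hj)]
      · simp
      · intro i _ hi
        rw [if_neg (Ne.symm hi), mul_zero]
    rw [← h7, hp0, coeff_zero]
  have hint : ∫ x in x0..(x0 + n * h), ‖f x‖ ^ 2 = 0 := by
    have hI : IntervalIntegrable (fun x => ‖f x‖ ^ 2) volume x0 (x0 + n * h) := by
      rw [intervalIntegrable_iff, IntegrableOn]
      have := (hf.restrict (Set.uIoc x0 (x0 + n * h))).integrable_norm_pow (by norm_num)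
      simpa using this
    rw [cells n hh.le hI]
    refine Finset.sum_eq_zero fun j hj => ?_
    rw [intervalIntegral.integral_of_le (by linarith)]
    refine integral_eq_zero_of_ae ?_
    filter_upwards [hcell] with x hx
    simp [hx j (Finset.mem_range.mp hj)]
  rw [intervalIntegral.integral_of_le (by
      have : (0 : ℝ) ≤ n * h := by positivity
      linarith), integral_eq_zero_iff_of_nonneg (fun x => by positivity) (by
      have := (hf.restrict (Set.Ioc x0 (x0 + n * h))).integrable_norm_pow (by norm_num)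
      simpa using this)] at hint
  filter_upwards [hint] with x hx
  have : ‖f x‖ ^ 2 = 0 := hx
  exact norm_eq_zero.mp (pow_eq_zero_iff (by norm_num) |>.mp this)

end

end Pool.Agent.X115.PR
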