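import Mathlib
import Pool.Agent.X115.PR.Bounds2
import Pool.Agent.X115.PR.Comp

/-!
Completeness of the root system.
-/

set_option autoImplicit false

namespace Pool.Agent.X115.PR

open Finset MeasureTheory intervalIntegral

noncomputable section

variable {n1 n2 : ℕ}

/-- the even part -/
def fe (F : ℝ → ℂ) (x : ℝ) : ℂ := (F x + F (-x)) / 2

lemma memNeg {F : ℝ → ℂ} (hF : MemLp F 2 volume) : MemLp (fun x => F (-x)) 2 volume :=
  hF.comp_measurePreserving (Measure.measurePreserving_neg volume)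

lemma memFe {F : ℝ → ℂ} (hF : MemLp F 2 volume) : MemLp (fe F) 2 volume := by
  have h := (hF.add (memNeg hF)).const_mul (1 / 2 : ℂ)
  refine (memLp_congr_ae (Filter.Eventually.of_forall fun x => ?_)).mp h
  simp only [fe, Pi.add_apply]
  ring

lemma iiM {F : ℝ → ℂ} (hF : MemLp F 2 volume) {g : ℝ → ℂ} (hg : Continuous g) (a b : ℝ) :
    IntervalIntegrable (fun x => g x * F x) volume a b :=
  (ii hF a b).continuousOn_mul hg.continuousOn

lemma swap (g F : ℝ → ℂ) :
    ∫ x in (-(Real.pi / 2))..(Real.pi / 2), g x * F (-x) =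
      ∫ x in (-(Real.pi / 2))..(Real.pi / 2), g (-x) * F x := by
  have := intervalIntegral.integral_comp_neg (a := -(Real.pi / 2)) (b := Real.pi / 2)
    (fun x => g (-x) * F x)
  rw [neg_neg] at this
  rw [← this]
  simp only [neg_neg]

lemma int_fe {F : ℝ → ℂ} (hF : MemLp F 2 volume) {g : ℝ → ℂ} (hg : Continuous g) :
    ∫ x in (-(Real.pi / 2))..(Real.pi / 2), g x * fe F x =
      ((∫ x in (-(Real.pi / 2))..(Real.pi / 2), g x * F x) +
        (∫ x in (-(Real.pi / 2))..(Real.pi / 2), g (-x) * F x)) / 2 := by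
  rw [← swap, ← intervalIntegral.integral_add (iiM hF hg _ _) (iiM (memNeg hF) hg _ _),
    ← intervalIntegral.integral_div]
  refine intervalIntegral.integral_congr fun x _ => ?_
  simp only [fe]
  ring

lemma evenJ {F : ℝ → ℂ} (hF : MemLp F 2 volume) {g : ℝ → ℂ} (hg : Continuous g)
    (he : ∀ x, g (-x) = g x) : ∫ x in (-(Real.pi / 2))..(Real.pi / 2), g x * fe F x =
      ∫ x in (-(Real.pi / 2))..(Real.pi / 2), g x * F x := by
  rw [int_fe hF hg]
  simp only [he]
  ring

lemma oddJ {F : ℝ → ℂ} (hF : MemLp F 2 volume) {g : ℝ → ℂ} (hg : Continuous g)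
    (he : ∀ x, g (-x) = -g x) : ∫ x in (-(Real.pi / 2))..(Real.pi / 2), g x * fe F x = 0 := by
  rw [int_fe hF hg]
  simp only [he, neg_mul, intervalIntegral.integral_neg]
  ring

lemma cosInt_abs (T x : ℝ) (q : ℤ) :
    Real.cos (2 * Real.pi * q / T * x) = Real.cos (2 * Real.pi * (q.natAbs : ℕ) / T * x) := by
  obtain ⟨m, hm⟩ : ∃ m : ℕ, m = q.natAbs := ⟨_, rfl⟩
  have h := Int.natAbs_eq q
  rw [← hm] at h ⊢
  rcases h with h | h
  · have hq : (q : ℝ) = m := by rw [h]; push_cast; ring
    rw [hq]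
  · have hq : (q : ℝ) = -m := by rw [h]; push_cast; ring
    have e : 2 * Real.pi * (q : ℝ) / T * x = -(2 * Real.pi * m / T * x) := by
      rw [hq]
      ring
    rw [e, Real.cos_neg]

lemma sinInt_abs (T x : ℝ) (q : ℤ) :
    Real.sin (2 * Real.pi * q / T * x) =
      (q.sign : ℝ) * Real.sin (2 * Real.pi * (q.natAbs : ℕ) / T * x) := by
  obtain ⟨m, hm⟩ : ∃ m : ℕ, m = q.natAbs := ⟨_, rfl⟩
  have h := Int.natAbs_eq q
  rw [← hm] at h ⊢
  rcases lt_trichotomy q 0 with h0 | h0 | h0
  · have hq : (q : ℝ) = -m := by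
      have h1 : q = -m := by omega
      rw [h1]; push_cast; ring
    have e : 2 * Real.pi * (q : ℝ) / T * x = -(2 * Real.pi * m / T * x) := by
      rw [hq]
      ring
    rw [Int.sign_eq_neg_one_of_neg h0, e, Real.sin_neg]
    push_cast
    ring
  · subst h0
    simp
  · have hq : (q : ℝ) = m := by
      have h1 : q = m := by omega
      rw [h1]; push_cast; ring
    rw [Int.sign_eq_one_of_pos h0, hq]
    push_cast
    ring

lemma exp_split (T : ℝ) (q : ℤ) (x : ℝ) :
    Complex.exp (2 * Real.pi * Complex.I * q * x / T) =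
      ((Real.cos (2 * Real.pi * q / T * x) : ℝ) : ℂ) +
        Complex.I * ((Real.sin (2 * Real.pi * q / T * x) : ℝ) : ℂ) := by
  have e : (2 * Real.pi * Complex.I * q * x / T : ℂ) =
      ((2 * Real.pi * q / T * x : ℝ) : ℂ) * Complex.I := by
    push_cast
    ring
  rw [e, Complex.exp_mul_I, Complex.ofReal_cos, Complex.ofReal_sin]
  ring

/-- the integral against an exponential -/
lemma exp_int {F : ℝ → ℂ} (hF : MemLp F 2 volume) (T : ℝ) (q : ℤ) {u : ℝ → ℂ}
    (hu : Continuous u) :
    ∫ x in (-(Real.pi / 2))..(Real.pi / 2),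
      Complex.exp (2 * Real.pi * Complex.I * q * x / T) * (u x * F x) =
    (∫ x in (-(Real.pi / 2))..(Real.pi / 2),
      (u x * ((Real.cos (2 * Real.pi * (q.natAbs : ℕ) / T * x) : ℝ) : ℂ)) * F x) +
    Complex.I * q.sign * (∫ x in (-(Real.pi / 2))..(Real.pi / 2),
      (u x * ((Real.sin (2 * Real.pi * (q.natAbs : ℕ) / T * x) : ℝ) : ℂ)) * F x) := by
  rw [← intervalIntegral.integral_const_mul, ← intervalIntegral.integral_add
    (iiM hF (g := fun x => u x * ((Real.cos (2 * Real.pi * (q.natAbs : ℕ) / T * x) : ℝ) : ℂ))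
      (by fun_prop) _ _)
    ((iiM hF (g := fun x => u x * ((Real.sin (2 * Real.pi * (q.natAbs : ℕ) / T * x) : ℝ) : ℂ))
      (by fun_prop) _ _).const_mul _)]
  refine intervalIntegral.integral_congr fun x _ => ?_
  show _ = _
  rw [exp_split, cosInt_abs, sinInt_abs]
  push_cast
  ring

/-- orthogonality as an integral -/
lemma inner_el (g : C(ℝ, ℂ)) (hg : ∀ x, (starRingEnd ℂ) (g x) = g x) (f : XX) {F : ℝ → ℂ}
    (hF : ∀ x ∈ Set.Ioo (-(Real.pi / 2)) (Real.pi / 2), F x = f x) :
    inner ℂ (el g) f = ∫ x in (-(Real.pi / 2))..(Real.pi / 2), g x * F x := by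
  rw [L2.inner_def, intervalIntegral.integral_of_le (by linarith [Real.pi_pos]),
    integral_Ioc_eq_integral_Ioo]
  refine integral_congr_ae ?_
  filter_upwards [el_coe g, ae_restrict_mem measurableSet_Ioo] with x h1 h2
  rw [h1, RCLike.inner_apply, hF x h2, hg]
  ring

lemma dense (h1 : 0 < n1) (h2 : 0 < n2) (hc : Nat.Coprime n1 n2) :
    (Submodule.span ℂ (Set.range fun i : Ind n2 => el (gI n1 n2 i))).topologicalClosure = ⊤ := by
  rw [Submodule.topologicalClosure_eq_top_iff, Submodule.eq_bot_iff]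
  intro f hf
  have hpi := Real.pi_pos
  have hh0 : 0 < hh n1 n2 := hh_pos h1
  have h1' : (0 : ℝ) < n1 := by exact_mod_cast h1
  have h2' : (0 : ℝ) < n2 := by exact_mod_cast h2
  set F : ℝ → ℂ := Set.indicator (Set.Ioo (-(Real.pi / 2)) (Real.pi / 2)) f with hFdef
  have hF : MemLp F 2 volume := by
    rw [hFdef, memLp_indicator_iff_restrict measurableSet_Ioo]
    exact Lp.memLp f
  have hFf : ∀ x ∈ Set.Ioo (-(Real.pi / 2)) (Real.pi / 2), F x = f x := fun x hx =>
    Set.indicator_of_mem hx _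
  have horth : ∀ i : Ind n2, inner ℂ (el (gI n1 n2 i)) f = 0 := fun i =>
    (Submodule.mem_orthogonal _ _).mp hf _ (Submodule.subset_span ⟨i, rfl⟩)
  have oA : ∀ j : ℕ, ∫ x in (-(Real.pi / 2))..(Real.pi / 2), cosC (kA n1 n2 j) x * F x = 0 := by
    intro j
    rw [← inner_el _ (fun x => Complex.conj_ofReal _) f hFf]
    exact horth (Sum.inl j)
  have oB : ∀ j : ℕ, ¬ n2 ∣ j →
      ∫ x in (-(Real.pi / 2))..(Real.pi / 2), cosC (kB n1 n2 j) x * F x = 0 := by
    intro j hj
    rw [← inner_el _ (fun x => Complex.conj_ofReal _) f hFf]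
    exact horth (Sum.inr (Sum.inl ⟨j, hj⟩))
  have oG : ∀ j : ℕ, ∫ x in (-(Real.pi / 2))..(Real.pi / 2), xsinC (kG n1 n2 j) x * F x = 0 := by
    intro j
    rw [← inner_el _ (fun x => by
      simp only [xsinC, ContinuousMap.coe_mk, map_mul, Complex.conj_ofReal]) f hFf]
    exact horth (Sum.inr (Sum.inr (Sum.inl j)))
  have oO : ∀ j : ℕ, ∫ x in (-(Real.pi / 2))..(Real.pi / 2), gO n1 n2 j x * F x = 0 := by
    intro j
    rw [← inner_el _ (fun x => by
      simp only [gO, ContinuousMap.add_apply, ContinuousMap.smul_apply, smul_eq_mul, map_add,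
        map_mul, Complex.conj_ofReal, cosC, sinC, ContinuousMap.coe_mk]) f hFf]
    exact horth (Sum.inr (Sum.inr (Sum.inr j)))
  have hend := pi_int n1 n2 h1
  -- the even part vanishes
  have hfe0 : ∀ᵐ x ∂(volume.restrict (Set.Ioc (-(Real.pi / 2)) (Real.pi / 2))), fe F x = 0 := by
    have key := complete h1 h2 hc (memFe hF) (x0 := -(Real.pi / 2)) hh0 ?_ ?_ ?_
    · rw [hend] at key
      exact key
    · intro q
      rw [hend]
      have e := exp_int (memFe hF) (n1 * hh n1 n2) q (u := fun _ => 1) continuous_const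
      simp only [one_mul] at e
      push_cast at e ⊢
      rw [e]
      have e1 := evenJ hF (g := cosC (kA n1 n2 q.natAbs)) (ContinuousMap.continuous _) (cosC_neg _)
      have e2 := oddJ hF (g := sinC (kA n1 n2 q.natAbs)) (ContinuousMap.continuous _) (sinC_neg _)
      rw [oA] at e1
      simp only [cosC, sinC, kA, ContinuousMap.coe_mk] at e1 e2
      push_cast at e1 e2
      rw [e1, e2]
      ring
    · intro q
      rw [hend]
      have e := exp_int (memFe hF) (n2 * hh n1 n2) q (u := fun _ => 1) continuous_const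
      simp only [one_mul] at e
      push_cast at e ⊢
      rw [e]
      have e1 := evenJ hF (g := cosC (kB n1 n2 q.natAbs)) (ContinuousMap.continuous _) (cosC_neg _)
      have e2 := oddJ hF (g := sinC (kB n1 n2 q.natAbs)) (ContinuousMap.continuous _) (sinC_neg _)
      have e3 : ∫ x in (-(Real.pi / 2))..(Real.pi / 2), cosC (kB n1 n2 q.natAbs) x * F x = 0 := by
        by_cases hd : n2 ∣ q.natAbs
        · obtain ⟨t, ht⟩ := hd
          have hk : kB n1 n2 q.natAbs = kA n1 n2 (n1 * t) := by
            rw [kA, kB, ht]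
            push_cast
            field_simp
          rw [hk]
          exact oA _
        · exact oB _ hd
      rw [e3] at e1
      simp only [cosC, sinC, kB, ContinuousMap.coe_mk] at e1 e2
      push_cast at e1 e2
      rw [e1, e2]
      ring
    · intro q
      rw [hend]
      have e := exp_int (memFe hF) (hh n1 n2) q (u := fun x => (x : ℂ)) Complex.continuous_ofReal
      rw [e]
      have e2 : ∫ x in (-(Real.pi / 2))..(Real.pi / 2),
          (x * ((Real.cos (2 * Real.pi * (q.natAbs : ℕ) / hh n1 n2 * x) : ℝ) : ℂ)) * fe F x = 0 :=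
        oddJ hF (g := fun x : ℝ => (x : ℂ) *
          ((Real.cos (2 * Real.pi * (q.natAbs : ℕ) / hh n1 n2 * x) : ℝ) : ℂ)) (by fun_prop)
          (fun x => by simp only [mul_neg, Real.cos_neg, Complex.ofReal_neg, neg_mul])
      rw [e2, zero_add]
      by_cases hq : q.natAbs = 0
      · rw [hq]
        simp
      · obtain ⟨t, ht⟩ := Nat.exists_eq_succ_of_ne_zero hq
        have e1 := evenJ hF (g := xsinC (kG n1 n2 t)) (ContinuousMap.continuous _) (xsinC_neg _)
        rw [oG] at e1
        simp only [xsinC, kG, ContinuousMap.coe_mk] at e1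
        rw [ht, Nat.succ_eq_add_one, e1, mul_zero]
  have hfeInt : ∀ g : ℝ → ℂ,
      ∫ x in (-(Real.pi / 2))..(Real.pi / 2), g x * fe F x = 0 := by
    intro g
    rw [intervalIntegral.integral_of_le (by linarith)]
    refine integral_eq_zero_of_ae ?_
    filter_upwards [hfe0] with x hx
    simp [hx]
  have oS : ∀ j : ℕ, ∫ x in (-(Real.pi / 2))..(Real.pi / 2), sinC (kO j) x * F x = 0 := by
    intro j
    have e1 := evenJ hF (g := cosC (kO j)) (ContinuousMap.continuous _) (cosC_neg _)
    rw [hfeInt] at e1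
    have e2 := oO j
    have e3 : ∫ x in (-(Real.pi / 2))..(Real.pi / 2), gO n1 n2 j x * F x =
        (bO n1 n2 j : ℂ) * (∫ x in (-(Real.pi / 2))..(Real.pi / 2), sinC (kO j) x * F x) +
        (aO n1 n2 j : ℂ) * (∫ x in (-(Real.pi / 2))..(Real.pi / 2), cosC (kO j) x * F x) := by
      rw [← intervalIntegral.integral_const_mul, ← intervalIntegral.integral_const_mul,
        ← intervalIntegral.integral_add
          ((iiM hF (ContinuousMap.continuous _) _ _).const_mul _)
          ((iiM hF (ContinuousMap.continuous _) _ _).const_mul _)]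
      refine intervalIntegral.integral_congr fun x _ => ?_
      simp only [gO, ContinuousMap.add_apply, ContinuousMap.smul_apply, smul_eq_mul]
      ring
    rw [e3, ← e1, mul_zero, add_zero] at e2
    rcases mul_eq_zero.mp e2 with h3 | h3
    · exfalso
      have h4 := bO_low h1 h2 hc j
      have h5 : bO n1 n2 j = 0 := by exact_mod_cast h3
      rw [h5, abs_zero] at h4
      have : (0 : ℝ) < (n1 + n2 : ℕ) := by exact_mod_cast (by omega : 0 < n1 + n2)
      have : 0 < 2 / ((n1 + n2 : ℕ) : ℝ) := by positivity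
      linarith
    · exact h3
  have hF0 : ∀ᵐ x ∂(volume.restrict (Set.Ioc (-(Real.pi / 2)) (Real.pi / 2))), F x = 0 := by
    refine uniq (by linarith) (hF.restrict _) fun q => ?_
    have hT : (Real.pi / 2 - -(Real.pi / 2) : ℝ) = Real.pi := by ring
    rw [hT]
    have e := exp_int hF Real.pi q (u := fun _ => 1) continuous_const
    simp only [one_mul] at e
    rw [e]
    have e1 := evenJ hF (g := cosC (2 * Real.pi * (q.natAbs : ℕ) / Real.pi))
      (ContinuousMap.continuous _) (cosC_neg _)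
    rw [hfeInt] at e1
    simp only [cosC, ContinuousMap.coe_mk] at e1
    rw [← e1, zero_add]
    by_cases hq : q.natAbs = 0
    · rw [hq]
      simp
    · obtain ⟨t, ht⟩ := Nat.exists_eq_succ_of_ne_zero hq
      have e2 := oS t
      simp only [sinC, kO, ContinuousMap.coe_mk] at e2
      rw [ht, Nat.succ_eq_add_one, e2, mul_zero]
  refine Lp.ext ?_
  have h3 : ∀ᵐ x ∂mu0, F x = 0 := by
    refine ae_mono (Measure.restrict_mono Set.Ioo_subset_Ioc_self le_rfl) hF0
  filter_upwards [h3, ae_restrict_mem measurableSet_Ioo, Lp.coeFn_zero ℂ 2 mu0] with x h4 h5 h6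
  rw [h6, ← hFf x h5, h4]
  rfl

end

end Pool.Agent.X115.PR
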