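import Mathlib
import Pool.Agent.X115.PR.Space

/-!
The operator, its root vectors and the differential equation.
-/

set_option autoImplicit false

namespace Pool.Agent.X115.PR

open Finset MeasureTheory intervalIntegral

noncomputable section

/-- `ψ` lies in the domain of `H` and `H ψ = φ` -/
def IsH (a : ℝ) (ψ φ : XX) : Prop :=
  ∃ u v : ℝ → ℂ, ψ =ᵐ[mu0] u ∧
    (∀ x ∈ Set.Icc (-(Real.pi / 2)) (Real.pi / 2),
      u x = u (-(Real.pi / 2)) + ∫ t in (-(Real.pi / 2))..x, v t) ∧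
    (∀ x ∈ Set.Icc (-(Real.pi / 2)) (Real.pi / 2),
      v x = v (-(Real.pi / 2)) - ∫ t in (-(Real.pi / 2))..x, φ t) ∧
    u (-(Real.pi / 2)) = u (Real.pi / 2 * a) ∧ u (Real.pi / 2 * a) = u (Real.pi / 2)

/-- `ψ` lies in the kernel of the `k`-th power of `H - z` -/
def InKer (a : ℝ) (z : ℂ) : ℕ → XX → Prop
  | 0, ψ => ψ = 0
  | k + 1, ψ => ∃ φ, IsH a ψ φ ∧ InKer a z k (φ - z • ψ)

lemma mu0_eq : mu0 = volume.restrict (Set.Ioc (-(Real.pi / 2)) (Real.pi / 2)) :=
  Measure.restrict_congr_set Ioo_ae_eq_Ioc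

lemma piI : -(Real.pi / 2) ≤ Real.pi / 2 := by linarith [Real.pi_pos]

lemma phi_int (φ : XX) : IntervalIntegrable φ volume (-(Real.pi / 2)) (Real.pi / 2) := by
  rw [intervalIntegrable_iff_integrableOn_Ioo_of_le piI]
  exact (Lp.memLp φ).integrable (by norm_num)

lemma ae_of {p : ℝ → Prop} (h : ∀ᵐ x ∂mu0, p x) {x : ℝ}
    (hx : x ∈ Set.Icc (-(Real.pi / 2)) (Real.pi / 2)) :
    ∀ᵐ t ∂volume, t ∈ Set.uIoc (-(Real.pi / 2)) x → p t := by
  rw [mu0_eq, ae_restrict_iff' measurableSet_Ioc] at h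
  filter_upwards [h] with t ht h2
  rw [Set.uIoc_of_le hx.1] at h2
  exact ht ⟨h2.1, h2.2.trans hx.2⟩

lemma prim_cont {f : ℝ → ℂ} (hf : IntervalIntegrable f volume (-(Real.pi / 2)) (Real.pi / 2)) :
    ContinuousOn (fun x => ∫ t in (-(Real.pi / 2))..x, f t)
      (Set.Icc (-(Real.pi / 2)) (Real.pi / 2)) := by
  have := continuousOn_primitive_interval' hf (Set.left_mem_uIcc)
  rwa [Set.uIcc_of_le piI] at this

/-- the derivative is continuous -/
lemma v_cont {v : ℝ → ℂ} {φ : XX} (hv : ∀ x ∈ Set.Icc (-(Real.pi / 2)) (Real.pi / 2),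
      v x = v (-(Real.pi / 2)) - ∫ t in (-(Real.pi / 2))..x, φ t) :
    ContinuousOn v (Set.Icc (-(Real.pi / 2)) (Real.pi / 2)) :=
  (continuousOn_const.sub (prim_cont (phi_int φ))).congr hv

lemma v_int {v : ℝ → ℂ} {φ : XX} (hv : ∀ x ∈ Set.Icc (-(Real.pi / 2)) (Real.pi / 2),
      v x = v (-(Real.pi / 2)) - ∫ t in (-(Real.pi / 2))..x, φ t) :
    IntervalIntegrable v volume (-(Real.pi / 2)) (Real.pi / 2) := by
  apply ContinuousOn.intervalIntegrable
  rw [Set.uIcc_of_le piI]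
  exact v_cont hv

lemma ii_mono {v : ℝ → ℂ} (h : IntervalIntegrable v volume (-(Real.pi / 2)) (Real.pi / 2))
    {x : ℝ} (hx : x ∈ Set.Icc (-(Real.pi / 2)) (Real.pi / 2)) :
    IntervalIntegrable v volume (-(Real.pi / 2)) x := by
  refine h.mono_set ?_
  rw [Set.uIcc_of_le piI, Set.uIcc_of_le hx.1]
  exact Set.Icc_subset_Icc le_rfl hx.2

lemma IsH.add {a : ℝ} {f φ g γ : XX} (h : IsH a f φ) (h' : IsH a g γ) :
    IsH a (f + g) (φ + γ) := by
  obtain ⟨u, v, h1, h2, h3, h4, h5⟩ := h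
  obtain ⟨u', v', h1', h2', h3', h4', h5'⟩ := h'
  refine ⟨u + u', v + v', ?_, fun x hx => ?_, fun x hx => ?_, ?_, ?_⟩
  · filter_upwards [h1, h1', Lp.coeFn_add f g] with x e1 e2 e3
    rw [e3, Pi.add_apply, Pi.add_apply, e1, e2]
  · simp only [Pi.add_apply]
    rw [intervalIntegral.integral_add (ii_mono (v_int h3) hx) (ii_mono (v_int h3') hx),
      h2 x hx, h2' x hx]
    ring
  · simp only [Pi.add_apply]
    have e : ∫ t in (-(Real.pi / 2))..x, (φ + γ : XX) t =
        ∫ t in (-(Real.pi / 2))..x, (φ t + γ t) := by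
      refine intervalIntegral.integral_congr_ae (ae_of ?_ hx)
      filter_upwards [Lp.coeFn_add φ γ] with t ht
      rw [ht, Pi.add_apply]
    rw [e, intervalIntegral.integral_add (ii_mono (phi_int φ) hx) (ii_mono (phi_int γ) hx),
      h3 x hx, h3' x hx]
    ring
  · simp only [Pi.add_apply]
    rw [h4, h4']
  · simp only [Pi.add_apply]
    rw [h5, h5']

lemma IsH.smul {a : ℝ} {f φ : XX} (c : ℂ) (h : IsH a f φ) :
    IsH a (c • f) (c • φ) := by
  obtain ⟨u, v, h1, h2, h3, h4, h5⟩ := h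
  refine ⟨c • u, c • v, ?_, fun x hx => ?_, fun x hx => ?_, ?_, ?_⟩
  · filter_upwards [h1, Lp.coeFn_smul c f] with x e1 e3
    rw [e3, Pi.smul_apply, Pi.smul_apply, e1]
  · simp only [Pi.smul_apply]
    rw [intervalIntegral.integral_smul, h2 x hx, smul_add]
  · simp only [Pi.smul_apply]
    have e : ∫ t in (-(Real.pi / 2))..x, (c • φ : XX) t =
        ∫ t in (-(Real.pi / 2))..x, c • φ t := by
      refine intervalIntegral.integral_congr_ae (ae_of ?_ hx)
      filter_upwards [Lp.coeFn_smul c φ] with t ht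
      rw [ht, Pi.smul_apply]
    rw [e, intervalIntegral.integral_smul, h3 x hx, smul_sub]
  · simp only [Pi.smul_apply]
    rw [h4]
  · simp only [Pi.smul_apply]
    rw [h5]

lemma InKer.zero {a : ℝ} {z : ℂ} : ∀ k, InKer a z k 0
  | 0 => rfl
  | k + 1 => by
    refine ⟨0, ?_, ?_⟩
    · refine ⟨0, 0, ?_, fun x _ => ?_, fun x hx => ?_, rfl, rfl⟩
      · exact Lp.coeFn_zero ℂ 2 mu0
      · simp
      · have e : ∫ t in (-(Real.pi / 2))..x, (0 : XX) t =
            ∫ t in (-(Real.pi / 2))..x, (0 : ℂ) := by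
          refine intervalIntegral.integral_congr_ae (ae_of ?_ hx)
          filter_upwards [Lp.coeFn_zero ℂ 2 mu0] with t ht
          rw [ht, Pi.zero_apply]
        rw [e]
        simp
    · rw [smul_zero, sub_zero]
      exact InKer.zero k

lemma InKer.add {a : ℝ} {z : ℂ} : ∀ (k : ℕ) {f g : XX}, InKer a z k f → InKer a z k g →
    InKer a z k (f + g)
  | 0, f, g, hf, hg => by
    have hf' : f = 0 := hf
    have hg' : g = 0 := hg
    show f + g = 0
    rw [hf', hg', add_zero]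
  | k + 1, f, g, hf, hg => by
    obtain ⟨φ, h1, h2⟩ := hf
    obtain ⟨γ, h3, h4⟩ := hg
    refine ⟨φ + γ, h1.add h3, ?_⟩
    have := InKer.add k h2 h4
    have e : φ + γ - z • (f + g) = φ - z • f + (γ - z • g) := by
      rw [smul_add]; abel
    rw [e]
    exact this

lemma InKer.smul {a : ℝ} {z : ℂ} : ∀ (k : ℕ) (c : ℂ) {f : XX}, InKer a z k f →
    InKer a z k (c • f)
  | 0, c, f, hf => by
    have hf' : f = 0 := hf
    show c • f = 0
    rw [hf', smul_zero]
  | k + 1, c, f, hf => by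
    obtain ⟨φ, h1, h2⟩ := hf
    refine ⟨c • φ, h1.smul c, ?_⟩
    have := InKer.smul k c h2
    have e : c • φ - z • c • f = c • (φ - z • f) := by
      rw [smul_sub, smul_comm]
    rw [e]
    exact this

/-- twice differentiable functions with the boundary condition -/
lemma isH_of {a : ℝ} (g g1 g2 : C(ℝ, ℂ)) (h1 : ∀ x, HasDerivAt g (g1 x) x)
    (h2 : ∀ x, HasDerivAt g1 (-g2 x) x) (h3 : g (-(Real.pi / 2)) = g (Real.pi / 2 * a))
    (h4 : g (Real.pi / 2 * a) = g (Real.pi / 2)) : IsH a (el g) (el g2) := by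
  refine ⟨g, g1, el_coe g, fun x hx => ?_, fun x hx => ?_, h3, h4⟩
  · rw [intervalIntegral.integral_eq_sub_of_hasDerivAt (fun t _ => h1 t)
      (g1.continuous.intervalIntegrable _ _)]
    ring
  · have e : ∫ t in (-(Real.pi / 2))..x, (el g2) t =
        ∫ t in (-(Real.pi / 2))..x, g2 t := by
      refine intervalIntegral.integral_congr_ae (ae_of ?_ hx)
      exact el_coe g2
    have e2 := intervalIntegral.integral_eq_sub_of_hasDerivAt (a := -(Real.pi / 2)) (b := x)
      (fun t _ => h2 t) ((g2.continuous.neg).intervalIntegrable _ _)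
    rw [intervalIntegral.integral_neg] at e2
    rw [e]
    linear_combination -e2

/-- regularity -/
lemma reg {a : ℝ} (ha : -1 ≤ a) (ha' : a ≤ 1) {f φ : XX} {z : ℂ} {W : C(ℝ, ℂ)} (h : IsH a f φ)
    (hw : φ - z • f = el W) :
    ∃ U V : ℝ → ℂ, (∀ x, HasDerivAt U (V x) x) ∧
      (∀ x ∈ Set.Icc (-(Real.pi / 2)) (Real.pi / 2), HasDerivAt V (-(z * U x + W x)) x) ∧
      f =ᵐ[mu0] U ∧ U (-(Real.pi / 2)) = U (Real.pi / 2 * a) ∧
      U (Real.pi / 2 * a) = U (Real.pi / 2) := by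
  obtain ⟨u, v, h1, h2, h3, h4, h5⟩ := h
  have hvc := v_cont h3
  have huc : ContinuousOn u (Set.Icc (-(Real.pi / 2)) (Real.pi / 2)) :=
    (continuousOn_const.add (prim_cont (v_int h3))).congr h2
  set ut : ℝ → ℂ := Set.IccExtend piI (Set.domRestrict (Set.Icc (-(Real.pi / 2)) (Real.pi / 2)) u)
    with hut
  have hutc : Continuous ut := (continuousOn_iff_continuous_domRestrict.mp huc).Icc_extend'
  have hute : ∀ x ∈ Set.Icc (-(Real.pi / 2)) (Real.pi / 2), ut x = u x := by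
    intro x hx
    rw [hut, Set.IccExtend_of_mem piI _ hx]
    rfl
  set g : ℝ → ℂ := fun x => z * ut x + W x with hg
  have hgc : Continuous g := by
    have := W.continuous
    fun_prop
  set V : ℝ → ℂ := fun x => v (-(Real.pi / 2)) - ∫ t in (-(Real.pi / 2))..x, g t with hV
  have hVd : ∀ x, HasDerivAt V (-g x) x := by
    intro x
    have := (hgc.integral_hasStrictDerivAt (-(Real.pi / 2)) x).hasDerivAt
    have := this.const_sub (v (-(Real.pi / 2)))
    exact this
  have hVc : Continuous V := continuous_iff_continuousAt.mpr fun x => (hVd x).continuousAt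
  have hae : ∀ᵐ x ∂mu0, φ x = g x := by
    have e1 : φ = z • f + el W := by rw [← hw]; abel
    have e2 := Lp.coeFn_add (z • f) (el W)
    rw [← e1] at e2
    filter_upwards [e2, Lp.coeFn_smul z f, el_coe W, h1, ae_restrict_mem measurableSet_Ioo]
      with x q1 q2 q3 q4 q5
    rw [q1, Pi.add_apply, q2, Pi.smul_apply, q3, q4, hg]
    simp only [smul_eq_mul]
    rw [hute x ⟨q5.1.le, q5.2.le⟩]
  have hVv : ∀ x ∈ Set.Icc (-(Real.pi / 2)) (Real.pi / 2), V x = v x := by
    intro x hx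
    rw [h3 x hx, hV]
    simp only
    congr 1
    refine intervalIntegral.integral_congr_ae (ae_of ?_ hx)
    filter_upwards [hae] with t ht
    exact ht.symm
  set U : ℝ → ℂ := fun x => u (-(Real.pi / 2)) + ∫ t in (-(Real.pi / 2))..x, V t with hU
  have hUd : ∀ x, HasDerivAt U (V x) x := by
    intro x
    have := (hVc.integral_hasStrictDerivAt (-(Real.pi / 2)) x).hasDerivAt
    exact this.const_add (u (-(Real.pi / 2)))
  have hUu : ∀ x ∈ Set.Icc (-(Real.pi / 2)) (Real.pi / 2), U x = u x := by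
    intro x hx
    rw [h2 x hx, hU]
    simp only
    congr 1
    refine intervalIntegral.integral_congr fun t ht => ?_
    rw [Set.uIcc_of_le hx.1] at ht
    exact hVv t ⟨ht.1, ht.2.trans hx.2⟩
  have hpi := Real.pi_pos
  have ma : Real.pi / 2 * a ∈ Set.Icc (-(Real.pi / 2)) (Real.pi / 2) := by
    constructor <;> nlinarith
  have ml : -(Real.pi / 2) ∈ Set.Icc (-(Real.pi / 2)) (Real.pi / 2) := ⟨le_rfl, piI⟩
  have mr : Real.pi / 2 ∈ Set.Icc (-(Real.pi / 2)) (Real.pi / 2) := ⟨piI, le_rfl⟩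
  refine ⟨U, V, hUd, fun x hx => ?_, ?_, ?_, ?_⟩
  · have := hVd x
    rw [hg] at this
    simp only at this
    rw [hUu x hx, ← hute x hx]
    exact this
  · filter_upwards [h1, ae_restrict_mem measurableSet_Ioo] with x q1 q2
    rw [q1, hUu x ⟨q2.1.le, q2.2.le⟩]
  · rw [hUu _ ml, hUu _ ma, h4]
  · rw [hUu _ ma, hUu _ mr, h5]

/-- constants -/
lemma const_of {F : ℝ → ℂ} (h : ∀ x ∈ Set.Icc (-(Real.pi / 2)) (Real.pi / 2), HasDerivAt F 0 x) :
    ∀ x ∈ Set.Icc (-(Real.pi / 2)) (Real.pi / 2), F x = F (-(Real.pi / 2)) := by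
  refine constant_of_has_deriv_right_zero (fun x hx => (h x hx).continuousAt.continuousWithinAt)
    fun x hx => (h x ⟨hx.1, hx.2.le⟩).hasDerivWithinAt

lemma cosD (k : ℂ) (x : ℝ) :
    HasDerivAt (fun x : ℝ => Complex.cos (k * x)) (-(k * Complex.sin (k * x))) x := by
  have := (((hasDerivAt_id (x : ℂ)).const_mul k).ccos).comp_ofReal
  simp only [id] at this
  convert this using 1
  ring

lemma sinD (k : ℂ) (x : ℝ) :
    HasDerivAt (fun x : ℝ => Complex.sin (k * x)) (k * Complex.cos (k * x)) x := by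
  have := (((hasDerivAt_id (x : ℂ)).const_mul k).csin).comp_ofReal
  simp only [id] at this
  convert this using 1
  ring

lemma idD (x : ℝ) : HasDerivAt (fun x : ℝ => (x : ℂ)) 1 x := by
  have := (hasDerivAt_id (x : ℂ)).comp_ofReal
  simpa using this

/-- a particular solution -/
def PP (k c1 c2 c3 : ℂ) (x : ℝ) : ℂ :=
  -c1 * (x * Complex.sin (k * x)) / (2 * k) + c2 * (x * Complex.cos (k * x)) / (2 * k) +
    c3 * (x * (x * Complex.cos (k * x)) / (4 * k) - x * Complex.sin (k * x) / (4 * k ^ 2))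

/-- its derivative -/
def P1 (k c1 c2 c3 : ℂ) (x : ℝ) : ℂ :=
  -c1 * (Complex.sin (k * x) + k * (x * Complex.cos (k * x))) / (2 * k) +
    c2 * (Complex.cos (k * x) - k * (x * Complex.sin (k * x))) / (2 * k) +
    c3 * (x * Complex.cos (k * x) / (4 * k) - x * (x * Complex.sin (k * x)) / 4 -
      Complex.sin (k * x) / (4 * k ^ 2))

lemma PPd {k : ℂ} (hk : k ≠ 0) (c1 c2 c3 : ℂ) (x : ℝ) :
    HasDerivAt (PP k c1 c2 c3) (P1 k c1 c2 c3 x) x := by
  have s := sinD k x
  have c := cosD k x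
  have i := idD x
  have xs := i.mul s
  have xc := i.mul c
  have h := (((xs.const_mul (-c1)).div_const (2 * k)).add
    ((xc.const_mul c2).div_const (2 * k))).add
    ((((i.mul xc).div_const (4 * k)).sub (xs.div_const (4 * k ^ 2))).const_mul c3)
  refine h.congr_deriv ?_
  simp only [P1, Pi.mul_apply]
  field_simp
  ring

lemma P1d {k : ℂ} (hk : k ≠ 0) (c1 c2 c3 : ℂ) (x : ℝ) :
    HasDerivAt (P1 k c1 c2 c3) (-(k ^ 2 * PP k c1 c2 c3 x + (c1 * Complex.cos (k * x) +
      c2 * Complex.sin (k * x) + c3 * (x * Complex.sin (k * x))))) x := by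
  have s := sinD k x
  have c := cosD k x
  have i := idD x
  have xs := i.mul s
  have xc := i.mul c
  have h := ((((s.add (xc.const_mul k)).const_mul (-c1)).div_const (2 * k)).add
    (((c.sub (xs.const_mul k)).const_mul c2).div_const (2 * k))).add
    ((((xc.div_const (4 * k)).sub ((i.mul xs).div_const 4)).sub
      (s.div_const (4 * k ^ 2))).const_mul c3)
  refine h.congr_deriv ?_
  simp only [PP, Pi.mul_apply]
  field_simp
  ring

/-- the solutions -/
lemma ode {k : ℂ} (hk : k ≠ 0) {U V : ℝ → ℂ} {c1 c2 c3 : ℂ} (hU : ∀ x, HasDerivAt U (V x) x)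
    (hV : ∀ x ∈ Set.Icc (-(Real.pi / 2)) (Real.pi / 2), HasDerivAt V
      (-(k ^ 2 * U x + (c1 * Complex.cos (k * x) +
      c2 * Complex.sin (k * x) + c3 * (x * Complex.sin (k * x))))) x) :
    ∃ α β : ℂ, ∀ x ∈ Set.Icc (-(Real.pi / 2)) (Real.pi / 2),
      U x = PP k c1 c2 c3 x + α * Complex.cos (k * x) + β * Complex.sin (k * x) := by
  set F1 : ℝ → ℂ := fun x => (U x - PP k c1 c2 c3 x) * Complex.cos (k * x) -
    (V x - P1 k c1 c2 c3 x) / k * Complex.sin (k * x) with hF1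
  set F2 : ℝ → ℂ := fun x => (U x - PP k c1 c2 c3 x) * Complex.sin (k * x) +
    (V x - P1 k c1 c2 c3 x) / k * Complex.cos (k * x) with hF2
  have d1 : ∀ x ∈ Set.Icc (-(Real.pi / 2)) (Real.pi / 2), HasDerivAt F1 0 x := by
    intro x hx
    have h := (((hU x).sub (PPd hk c1 c2 c3 x)).mul (cosD k x)).sub
      ((((hV x hx).sub (P1d hk c1 c2 c3 x)).div_const k).mul (sinD k x))
    refine h.congr_deriv ?_
    simp only [Pi.sub_apply]
    field_simp
    ring
  have d2 : ∀ x ∈ Set.Icc (-(Real.pi / 2)) (Real.pi / 2), HasDerivAt F2 0 x := by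
    intro x hx
    have h := (((hU x).sub (PPd hk c1 c2 c3 x)).mul (sinD k x)).add
      ((((hV x hx).sub (P1d hk c1 c2 c3 x)).div_const k).mul (cosD k x))
    refine h.congr_deriv ?_
    simp only [Pi.sub_apply]
    field_simp
    ring
  refine ⟨F1 (-(Real.pi / 2)), F2 (-(Real.pi / 2)), fun x hx => ?_⟩
  rw [← const_of d1 x hx, ← const_of d2 x hx, hF1, hF2]
  simp only
  have h := Complex.sin_sq_add_cos_sq (k * x)
  linear_combination (-(U x - PP k c1 c2 c3 x)) * h

/-- the solutions for the zero eigenvalue -/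
lemma ode0 {U V : ℝ → ℂ} {c : ℂ} (hU : ∀ x, HasDerivAt U (V x) x)
    (hV : ∀ x ∈ Set.Icc (-(Real.pi / 2)) (Real.pi / 2), HasDerivAt V (-c) x) :
    ∃ α β : ℂ, ∀ x ∈ Set.Icc (-(Real.pi / 2)) (Real.pi / 2),
      U x = -c * (x * x) / 2 + α + β * x := by
  have d1 : ∀ x ∈ Set.Icc (-(Real.pi / 2)) (Real.pi / 2),
      HasDerivAt (fun x : ℝ => V x + c * x) 0 x := by
    intro x hx
    have h := (hV x hx).add ((idD x).const_mul c)
    refine h.congr_deriv ?_
    ring
  have e1 := const_of d1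
  set β := V (-(Real.pi / 2)) + c * ((-(Real.pi / 2) : ℝ) : ℂ) with hβ
  have d2 : ∀ x ∈ Set.Icc (-(Real.pi / 2)) (Real.pi / 2),
      HasDerivAt (fun x : ℝ => U x + c * (x * x) / 2 - β * x) 0 x := by
    intro x hx
    have h := ((hU x).add (((((idD x).mul (idD x))).const_mul c).div_const 2)).sub
      ((idD x).const_mul β)
    refine h.congr_deriv ?_
    have e2 := e1 x hx
    linear_combination e2
  have e3 := const_of d2
  refine ⟨U (-(Real.pi / 2)) + c * (((-(Real.pi / 2) : ℝ) : ℂ) * ((-(Real.pi / 2) : ℝ) : ℂ)) / 2 -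
    β * ((-(Real.pi / 2) : ℝ) : ℂ), β, fun x hx => ?_⟩
  have e4 := e3 x hx
  rw [← e4]
  ring

end

end Pool.Agent.X115.PR
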