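import Mathlib
import Pool.Agent.X115.PR.Bounds
import Pool.Agent.X115.PR.Ode

/-!
The root subspaces.
-/

set_option autoImplicit false

namespace Pool.Agent.X115.PR

open Finset MeasureTheory intervalIntegral

noncomputable section

lemma core {a : ℝ} (ha : -1 ≤ a) (ha' : a ≤ 1) {f φ : XX} {k : ℂ} (hk : k ≠ 0) {c1 c2 c3 : ℂ}
    {W : C(ℝ, ℂ)} (hW : ∀ x : ℝ, W x = c1 * Complex.cos (k * x) + c2 * Complex.sin (k * x) +
      c3 * (x * Complex.sin (k * x))) (h : IsH a f φ) (hw : φ - k ^ 2 • f = el W) :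
    ∃ α β : ℂ, (f =ᵐ[mu0] fun x => PP k c1 c2 c3 x + α * Complex.cos (k * x) +
        β * Complex.sin (k * x)) ∧
      2 * β * Complex.sin (k * (Real.pi / 2 : ℝ)) +
        c2 * (Real.pi / 2 : ℝ) * Complex.cos (k * (Real.pi / 2 : ℝ)) / k = 0 ∧
      -c1 * ((Real.pi / 2 : ℝ) * Complex.sin (k * (Real.pi / 2 : ℝ))) / (2 * k) +
        c3 * ((Real.pi / 2 : ℝ) * ((Real.pi / 2 : ℝ) * Complex.cos (k * (Real.pi / 2 : ℝ))) /
          (4 * k) -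
          (Real.pi / 2 : ℝ) * Complex.sin (k * (Real.pi / 2 : ℝ)) / (4 * k ^ 2)) +
        α * Complex.cos (k * (Real.pi / 2 : ℝ)) =
      PP k c1 c2 c3 (Real.pi / 2 * a) + α * Complex.cos (k * (Real.pi / 2 * a : ℝ)) +
        β * Complex.sin (k * (Real.pi / 2 * a : ℝ)) := by
  obtain ⟨U, V, hU, hV, hf, b1, b2⟩ := reg ha ha' h hw
  have hV' : ∀ x ∈ Set.Icc (-(Real.pi / 2)) (Real.pi / 2), HasDerivAt V
      (-(k ^ 2 * U x + (c1 * Complex.cos (k * x) +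
      c2 * Complex.sin (k * x) + c3 * (x * Complex.sin (k * x))))) x := by
    intro x hx
    have := hV x hx
    rwa [hW] at this
  obtain ⟨α, β, hs⟩ := ode hk hU hV'
  have hpi := Real.pi_pos
  have ma : Real.pi / 2 * a ∈ Set.Icc (-(Real.pi / 2)) (Real.pi / 2) := by
    constructor <;> nlinarith
  have ml : -(Real.pi / 2) ∈ Set.Icc (-(Real.pi / 2)) (Real.pi / 2) := ⟨le_rfl, piI⟩
  have mr : Real.pi / 2 ∈ Set.Icc (-(Real.pi / 2)) (Real.pi / 2) := ⟨piI, le_rfl⟩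
  have el' := hs _ ml
  have er := hs _ mr
  have ea := hs _ ma
  have es : Complex.sin (k * ((-(Real.pi / 2) : ℝ) : ℂ)) =
      -Complex.sin (k * (Real.pi / 2 : ℝ)) := by
    rw [Complex.ofReal_neg, mul_neg, Complex.sin_neg]
  have ec : Complex.cos (k * ((-(Real.pi / 2) : ℝ) : ℂ)) =
      Complex.cos (k * (Real.pi / 2 : ℝ)) := by
    rw [Complex.ofReal_neg, mul_neg, Complex.cos_neg]
  have epl : PP k c1 c2 c3 (-(Real.pi / 2)) =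
      -c1 * ((Real.pi / 2 : ℝ) * Complex.sin (k * (Real.pi / 2 : ℝ))) / (2 * k) -
      c2 * ((Real.pi / 2 : ℝ) * Complex.cos (k * (Real.pi / 2 : ℝ))) / (2 * k) +
        c3 * ((Real.pi / 2 : ℝ) * ((Real.pi / 2 : ℝ) * Complex.cos (k * (Real.pi / 2 : ℝ))) /
          (4 * k) -
          (Real.pi / 2 : ℝ) * Complex.sin (k * (Real.pi / 2 : ℝ)) / (4 * k ^ 2)) := by
    rw [PP, es, ec, Complex.ofReal_neg]
    ring
  have epr : PP k c1 c2 c3 (Real.pi / 2) =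
      -c1 * ((Real.pi / 2 : ℝ) * Complex.sin (k * (Real.pi / 2 : ℝ))) / (2 * k) +
      c2 * ((Real.pi / 2 : ℝ) * Complex.cos (k * (Real.pi / 2 : ℝ))) / (2 * k) +
        c3 * ((Real.pi / 2 : ℝ) * ((Real.pi / 2 : ℝ) * Complex.cos (k * (Real.pi / 2 : ℝ))) /
          (4 * k) -
          (Real.pi / 2 : ℝ) * Complex.sin (k * (Real.pi / 2 : ℝ)) / (4 * k ^ 2)) := by
    rw [PP]
  rw [es, ec, epl] at el'
  rw [epr] at er
  refine ⟨α, β, ?_, ?_, ?_⟩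
  · filter_upwards [hf, ae_restrict_mem measurableSet_Ioo] with x q1 q2
    rw [q1, hs x ⟨q2.1.le, q2.2.le⟩]
  · have e1 := b1.trans b2
    have e2 : c2 * (Real.pi / 2 : ℝ) * Complex.cos (k * (Real.pi / 2 : ℝ)) / k =
        2 * (c2 * ((Real.pi / 2 : ℝ) * Complex.cos (k * (Real.pi / 2 : ℝ))) / (2 * k)) := by
      field_simp
    rw [e2]
    linear_combination el' - er - e1
  · rw [← ea]
    linear_combination (-1 / 2) * er - (1 / 2) * el' + (1 / 2 : ℂ) * b1 - (1 / 2) * b2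

/-- the eigenvalues -/
def evI (n1 n2 : ℕ) : Ind n2 → ℂ :=
  Sum.elim (fun j => (kA n1 n2 j : ℂ) ^ 2) (Sum.elim (fun j => (kB n1 n2 j : ℂ) ^ 2)
    (Sum.elim (fun j => (kG n1 n2 j : ℂ) ^ 2) (fun m => (kO m : ℂ) ^ 2)))

/-- the span of the chosen functions for the eigenvalue `z` -/
def WW (n1 n2 : ℕ) (z : ℂ) : Submodule ℂ XX :=
  Submodule.span ℂ ((fun i : Ind n2 => el (gI n1 n2 i)) '' {i | evI n1 n2 i = z})

variable {n1 n2 : ℕ}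

lemma memA {z : ℂ} (j : ℕ) (h : (kA n1 n2 j : ℂ) ^ 2 = z) :
    el (cosC (kA n1 n2 j)) ∈ WW n1 n2 z :=
  Submodule.subset_span ⟨Sum.inl j, h, rfl⟩

lemma memB {z : ℂ} (j : {j : ℕ // ¬ n2 ∣ j}) (h : (kB n1 n2 j : ℂ) ^ 2 = z) :
    el (cosC (kB n1 n2 j)) ∈ WW n1 n2 z :=
  Submodule.subset_span ⟨Sum.inr (Sum.inl j), h, rfl⟩

lemma memG {z : ℂ} (j : ℕ) (h : (kG n1 n2 j : ℂ) ^ 2 = z) :
    el (xsinC (kG n1 n2 j)) ∈ WW n1 n2 z :=
  Submodule.subset_span ⟨Sum.inr (Sum.inr (Sum.inl j)), h, rfl⟩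

lemma memO {z : ℂ} (j : ℕ) (h : (kO j : ℂ) ^ 2 = z) :
    el (gO n1 n2 j) ∈ WW n1 n2 z :=
  Submodule.subset_span ⟨Sum.inr (Sum.inr (Sum.inr j)), h, rfl⟩

lemma WW_le {z : ℂ} {S : Submodule ℂ XX}
    (hA : ∀ j : ℕ, (kA n1 n2 j : ℂ) ^ 2 = z → el (cosC (kA n1 n2 j)) ∈ S)
    (hB : ∀ j : {j : ℕ // ¬ n2 ∣ j}, (kB n1 n2 j : ℂ) ^ 2 = z → el (cosC (kB n1 n2 j)) ∈ S)
    (hG : ∀ j : ℕ, (kG n1 n2 j : ℂ) ^ 2 = z → el (xsinC (kG n1 n2 j)) ∈ S)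
    (hO : ∀ j : ℕ, (kO j : ℂ) ^ 2 = z → el (gO n1 n2 j) ∈ S) : WW n1 n2 z ≤ S := by
  rw [WW, Submodule.span_le]
  rintro _ ⟨i, hi, rfl⟩
  rcases i with j | j | j | j
  · exact hA j hi
  · exact hB j hi
  · exact hG j hi
  · exact hO j hi

lemma sq_eq {x y : ℝ} (hx : 0 ≤ x) (hy : 0 ≤ y) (h : (x : ℂ) ^ 2 = (y : ℂ) ^ 2) : x = y := by
  have h' : x ^ 2 = y ^ 2 := by exact_mod_cast h
  exact (pow_left_inj₀ hx hy (by norm_num)).mp h'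

lemma kA_nn (h1 : 0 < n1) (j : ℕ) : 0 ≤ kA n1 n2 j := by
  have := hh_pos (n2 := n2) h1
  have := Real.pi_pos
  rw [kA]; positivity

lemma kB_nn (h1 : 0 < n1) (j : ℕ) : 0 ≤ kB n1 n2 j := by
  have := hh_pos (n2 := n2) h1
  have := Real.pi_pos
  rw [kB]; positivity

lemma kG_pos (h1 : 0 < n1) (j : ℕ) : 0 < kG n1 n2 j := by
  have := hh_pos (n2 := n2) h1
  have := Real.pi_pos
  rw [kG]; positivity

lemma kO_pos (j : ℕ) : 0 < kO j := by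
  have := Real.pi_pos
  rw [kO]; positivity

lemma kO_eq (j : ℕ) : kO j = 2 * (j + 1 : ℕ) := by
  have := Real.pi_pos
  rw [kO]; field_simp

lemma of_ae {f : XX} {g : C(ℝ, ℂ)} (h : f =ᵐ[mu0] g) : f = el g :=
  Lp.ext (h.trans (el_coe g).symm)

lemma c0A {a : ℝ} (h1 : 0 < n1) (ha : a = ((n1 : ℝ) - n2) / (n1 + n2)) :
    Real.pi / 2 * a = n1 * hh n1 n2 - Real.pi / 2 := by
  have : (0 : ℝ) < (n1 : ℝ) + n2 := by
    have : (0 : ℝ) < n1 := by exact_mod_cast h1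
    positivity
  rw [ha, hh]
  push_cast
  field_simp
  ring

lemma c0B {a : ℝ} (h1 : 0 < n1) (ha : a = ((n1 : ℝ) - n2) / (n1 + n2)) :
    Real.pi / 2 * a = Real.pi / 2 - n2 * hh n1 n2 := by
  have : (0 : ℝ) < (n1 : ℝ) + n2 := by
    have : (0 : ℝ) < n1 := by exact_mod_cast h1
    positivity
  rw [ha, hh]
  push_cast
  field_simp
  ring

lemma exN (m : ℤ) : ∃ N : ℕ, ((N : ℂ)) ^ 2 = (m : ℂ) ^ 2 ∧ (m ≠ 0 → 0 < N) := by
  obtain ⟨N, hN, hN'⟩ : ∃ N : ℕ, ((N : ℤ)) ^ 2 = m ^ 2 ∧ (m ≠ 0 → 0 < N) :=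
    ⟨m.natAbs, Int.natAbs_sq m, fun h => Int.natAbs_pos.mpr h⟩
  exact ⟨N, by exact_mod_cast hN, hN'⟩

lemma sin_zero {k : ℂ} (hk : k ≠ 0) (h : Complex.sin (k * (Real.pi / 2 : ℝ)) = 0) :
    ∃ m : ℕ, k ^ 2 = (kO m : ℂ) ^ 2 := by
  rw [Complex.sin_eq_zero_iff] at h
  obtain ⟨m, hm⟩ := h
  have hpi : (Real.pi : ℂ) ≠ 0 := by exact_mod_cast Real.pi_ne_zero
  have e : k = 2 * m := by
    push_cast at hm
    have : k * Real.pi = (2 * m) * Real.pi := by linear_combination 2 * hm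
    exact mul_right_cancel₀ hpi this
  have hm0 : m ≠ 0 := by
    rintro rfl
    apply hk
    rw [e]; simp
  obtain ⟨N, hN, hN'⟩ := exN m
  have hn0 : 0 < N := hN' hm0
  refine ⟨N - 1, ?_⟩
  rw [kO_eq, Nat.sub_add_cancel hn0, e]
  push_cast
  rw [mul_pow, mul_pow, hN]

lemma cos_eq' {k : ℂ} {a : ℝ} (h1 : 0 < n1) (h2 : 0 < n2)
    (ha : a = ((n1 : ℝ) - n2) / (n1 + n2))
    (h : Complex.cos (k * (Real.pi / 2 : ℝ)) = Complex.cos (k * (Real.pi / 2 * a : ℝ))) :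
    (∃ j : ℕ, k ^ 2 = (kA n1 n2 j : ℂ) ^ 2) ∨ (∃ j : ℕ, k ^ 2 = (kB n1 n2 j : ℂ) ^ 2) := by
  rw [Complex.cos_eq_cos_iff] at h
  obtain ⟨m, hm⟩ := h
  have hh0 : hh n1 n2 ≠ 0 := (hh_pos h1).ne'
  have hh0' : (hh n1 n2 : ℂ) ≠ 0 := by exact_mod_cast hh0
  have h10 : (n1 : ℂ) ≠ 0 := by exact_mod_cast h1.ne'
  have h20 : (n2 : ℂ) ≠ 0 := by exact_mod_cast h2.ne'
  obtain ⟨N, hsq, -⟩ := exN m
  rcases hm with hm | hm
  · right
    refine ⟨N, ?_⟩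
    rw [c0B h1 ha] at hm
    push_cast at hm
    have e : k = -(2 * Real.pi * m / (n2 * hh n1 n2)) := by
      field_simp
      linear_combination -hm
    rw [e, kB]
    push_cast
    rw [neg_sq, div_pow, div_pow, mul_pow, mul_pow (2 * (Real.pi : ℂ)), hsq]
  · left
    refine ⟨N, ?_⟩
    rw [c0A h1 ha] at hm
    push_cast at hm
    have e : k = (2 * Real.pi * m / (n1 * hh n1 n2)) := by
      field_simp
      linear_combination hm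
    rw [e, kA]
    push_cast
    rw [div_pow, div_pow, mul_pow, mul_pow (2 * (Real.pi : ℂ)), hsq]

/-- values at the restart point -/
lemma trA {k : ℂ} {a : ℝ} (h1 : 0 < n1) (ha : a = ((n1 : ℝ) - n2) / (n1 + n2)) {j : ℕ}
    (hk : k * (n1 * hh n1 n2) = j * (2 * Real.pi)) :
    Complex.cos (k * (Real.pi / 2 * a : ℝ)) = Complex.cos (k * (Real.pi / 2 : ℝ)) ∧
    Complex.sin (k * (Real.pi / 2 * a : ℝ)) = -Complex.sin (k * (Real.pi / 2 : ℝ)) := by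
  have e : k * (Real.pi / 2 * a : ℝ) = j * (2 * Real.pi) - k * (Real.pi / 2 : ℝ) := by
    rw [c0A h1 ha, ← hk]
    push_cast
    ring
  rw [e, Complex.cos_nat_mul_two_pi_sub, Complex.sin_nat_mul_two_pi_sub]
  exact ⟨rfl, rfl⟩

lemma trB {k : ℂ} {a : ℝ} (h1 : 0 < n1) (ha : a = ((n1 : ℝ) - n2) / (n1 + n2)) {j : ℕ}
    (hk : k * (n2 * hh n1 n2) = j * (2 * Real.pi)) :
    Complex.cos (k * (Real.pi / 2 * a : ℝ)) = Complex.cos (k * (Real.pi / 2 : ℝ)) ∧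
    Complex.sin (k * (Real.pi / 2 * a : ℝ)) = Complex.sin (k * (Real.pi / 2 : ℝ)) := by
  have e : k * (Real.pi / 2 * a : ℝ) = k * (Real.pi / 2 : ℝ) - j * (2 * Real.pi) := by
    rw [c0B h1 ha, ← hk]
    push_cast
    ring
  rw [e, Complex.cos_sub_nat_mul_two_pi, Complex.sin_sub_nat_mul_two_pi]
  exact ⟨rfl, rfl⟩

end

end Pool.Agent.X115.PR
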