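import Mathlib
import Pool.Agent.X115.PR.Root

/-!
The root subspaces, continued.
-/

set_option autoImplicit false

namespace Pool.Agent.X115.PR

open Finset MeasureTheory intervalIntegral

noncomputable section

variable {n1 n2 : ℕ}

/-- the interval condition -/
lemma a_mem {a : ℝ} (h1 : 0 < n1) (h2 : 0 < n2) (ha : a = ((n1 : ℝ) - n2) / (n1 + n2)) :
    -1 < a ∧ a < 1 := by
  have t1 : (0 : ℝ) < n1 := by exact_mod_cast h1
  have t2 : (0 : ℝ) < n2 := by exact_mod_cast h2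
  rw [ha]
  constructor
  · rw [lt_div_iff₀ (by positivity)]
    linarith
  · rw [div_lt_iff₀ (by positivity)]
    linarith

/-- zero eigenvalue -/
lemma key0 (h1 : 0 < n1) (h2 : 0 < n2) {a : ℝ} (ha : a = ((n1 : ℝ) - n2) / (n1 + n2))
    {f φ : XX} (h : IsH a f φ) (hw : φ - (0 : ℂ) • f ∈ WW n1 n2 0) : f ∈ WW n1 n2 0 := by
  obtain ⟨ha1, ha2⟩ := a_mem h1 h2 ha
  have hle : WW n1 n2 0 ≤ Submodule.span ℂ {el (cosC 0)} := by
    refine WW_le (fun j hj => ?_) (fun j hj => ?_) (fun j hj => ?_) (fun j hj => ?_)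
    · have e : kA n1 n2 j = 0 := by
        have := pow_eq_zero_iff (by norm_num : (2 : ℕ) ≠ 0) |>.mp hj
        exact_mod_cast this
      rw [e]
      exact Submodule.mem_span_singleton_self _
    · have e : kB n1 n2 j = 0 := by
        have := pow_eq_zero_iff (by norm_num : (2 : ℕ) ≠ 0) |>.mp hj
        exact_mod_cast this
      rw [e]
      exact Submodule.mem_span_singleton_self _
    · exfalso
      have e : kG n1 n2 j = 0 := by
        have := pow_eq_zero_iff (by norm_num : (2 : ℕ) ≠ 0) |>.mp hj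
        exact_mod_cast this
      exact (kG_pos h1 j).ne' e
    · exfalso
      have e : kO j = 0 := by
        have := pow_eq_zero_iff (by norm_num : (2 : ℕ) ≠ 0) |>.mp hj
        exact_mod_cast this
      exact (kO_pos j).ne' e
  obtain ⟨c, hc⟩ := Submodule.mem_span_singleton.mp (hle hw)
  have hcC : ∀ x : ℝ, (c • cosC 0) x = c := by
    intro x
    simp [cosC]
  obtain ⟨U, V, hU, hV, hf, b1, b2⟩ := reg ha1.le ha2.le (W := c • cosC 0) h
    (by rw [map_smul]; exact hc.symm)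
  have hV' : ∀ x ∈ Set.Icc (-(Real.pi / 2)) (Real.pi / 2), HasDerivAt V (-c) x := by
    intro x hx
    have := hV x hx
    rwa [hcC, zero_mul, zero_add] at this
  obtain ⟨α, β, hs⟩ := ode0 hU hV'
  have hpi := Real.pi_pos
  have hpiC : (Real.pi : ℂ) ≠ 0 := by exact_mod_cast hpi.ne'
  have ma : Real.pi / 2 * a ∈ Set.Icc (-(Real.pi / 2)) (Real.pi / 2) := by
    constructor <;> nlinarith
  have ml : -(Real.pi / 2) ∈ Set.Icc (-(Real.pi / 2)) (Real.pi / 2) := ⟨le_rfl, piI⟩
  have mr : Real.pi / 2 ∈ Set.Icc (-(Real.pi / 2)) (Real.pi / 2) := ⟨piI, le_rfl⟩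
  have e1 := hs _ ml
  have e2 := hs _ mr
  have e3 := hs _ ma
  have hβ : β = 0 := by
    have e4 := b1.trans b2
    rw [e1, e2] at e4
    push_cast at e4
    have : β * Real.pi = 0 := by linear_combination -e4
    rcases mul_eq_zero.mp this with h | h
    · exact h
    · exact absurd h hpiC
  have hc0 : c = 0 := by
    rw [e3, e2, hβ] at b2
    push_cast at b2
    have e5 : c * (((Real.pi / 2) ^ 2 * (1 - a ^ 2) : ℝ) : ℂ) = 0 := by
      push_cast
      linear_combination 2 * b2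
    rcases mul_eq_zero.mp e5 with h | h
    · exact h
    · exfalso
      have h' : (Real.pi / 2) ^ 2 * (1 - a ^ 2) = 0 := by exact_mod_cast h
      have h'' : 0 < 1 - a ^ 2 := by nlinarith
      have : 0 < (Real.pi / 2) ^ 2 * (1 - a ^ 2) := by positivity
      linarith
  have hfe : f = el (α • cosC 0) := by
    refine of_ae ?_
    filter_upwards [hf, ae_restrict_mem measurableSet_Ioo] with x q1 q2
    rw [q1, hs x ⟨q2.1.le, q2.2.le⟩, hβ, hc0]
    simp [cosC]
  rw [hfe, map_smul]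
  apply Submodule.smul_mem
  have e : kA n1 n2 0 = 0 := by simp [kA]
  have := memA (n1 := n1) (n2 := n2) (z := 0) 0 (by rw [e]; simp)
  rwa [e] at this

lemma cosC_ap (k : ℝ) (x : ℝ) : cosC k x = Complex.cos ((k : ℂ) * x) := by
  simp [cosC]

lemma sinC_ap (k : ℝ) (x : ℝ) : sinC k x = Complex.sin ((k : ℂ) * x) := by
  simp [sinC]

lemma xsinC_ap (k : ℝ) (x : ℝ) : xsinC k x = x * Complex.sin ((k : ℂ) * x) := by
  simp [xsinC]

/-- threefold eigenvalues -/
lemma keyG (h1 : 0 < n1) (h2 : 0 < n2) {a : ℝ} (ha : a = ((n1 : ℝ) - n2) / (n1 + n2))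
    (j : ℕ) {f φ : XX} (h : IsH a f φ)
    (hw : φ - (kG n1 n2 j : ℂ) ^ 2 • f ∈ WW n1 n2 ((kG n1 n2 j : ℂ) ^ 2)) :
    f ∈ WW n1 n2 ((kG n1 n2 j : ℂ) ^ 2) := by
  obtain ⟨ha1, ha2⟩ := a_mem h1 h2 ha
  set κ := kG n1 n2 j with hκ
  have hκ0 : 0 < κ := kG_pos h1 j
  have hle : WW n1 n2 ((κ : ℂ) ^ 2) ≤
      Submodule.span ℂ {el (cosC κ), el (sinC κ), el (xsinC κ)} := by
    have m1 : el (cosC κ) ∈ Submodule.span ℂ {el (cosC κ), el (sinC κ), el (xsinC κ)} :=
      Submodule.subset_span (by simp)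
    have m2 : el (sinC κ) ∈ Submodule.span ℂ {el (cosC κ), el (sinC κ), el (xsinC κ)} :=
      Submodule.subset_span (by simp)
    have m3 : el (xsinC κ) ∈ Submodule.span ℂ {el (cosC κ), el (sinC κ), el (xsinC κ)} :=
      Submodule.subset_span (by simp)
    refine WW_le (fun i hi => ?_) (fun i hi => ?_) (fun i hi => ?_) (fun i hi => ?_)
    · rw [sq_eq (kA_nn h1 i) hκ0.le hi]
      exact m1
    · rw [sq_eq (kB_nn h1 i) hκ0.le hi]
      exact m1
    · rw [sq_eq (kG_pos h1 i).le hκ0.le hi]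
      exact m3
    · rw [gO, sq_eq (kO_pos i).le hκ0.le hi, map_add, map_smul, map_smul]
      exact Submodule.add_mem _ (Submodule.smul_mem _ _ m2) (Submodule.smul_mem _ _ m1)
  obtain ⟨c1, c2, c3, hc⟩ := Submodule.mem_span_triple.mp (hle hw)
  have hk : (κ : ℂ) ≠ 0 := by exact_mod_cast hκ0.ne'
  obtain ⟨α, β, hf, E1, E2⟩ := core ha1.le ha2.le hk (c1 := c1) (c2 := c2) (c3 := c3)
    (W := c1 • cosC κ + c2 • sinC κ + c3 • xsinC κ) (by
      intro x
      simp only [ContinuousMap.add_apply, ContinuousMap.smul_apply, smul_eq_mul, cosC_ap, sinC_ap,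
        xsinC_ap]) h (by
      rw [map_add, map_add, map_smul, map_smul, map_smul]
      exact hc.symm)
  have hh0 : (hh n1 n2 : ℂ) ≠ 0 := by exact_mod_cast (hh_pos (n2 := n2) h1).ne'
  have hpi := Real.pi_pos
  have hn : (hh n1 n2 : ℂ) * (n1 + n2) = Real.pi := by
    have := hh_mul (n2 := n2) h1
    have h' : (((n1 + n2 : ℕ) : ℝ) * hh n1 n2 : ℝ) = Real.pi := this
    have h'' : ((((n1 + n2 : ℕ) : ℝ) * hh n1 n2 : ℝ) : ℂ) = (Real.pi : ℂ) := by rw [h']
    push_cast at h''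
    linear_combination h''
  have eκ : (κ : ℂ) * hh n1 n2 = (j + 1) * (2 * Real.pi) := by
    rw [hκ, kG]
    push_cast
    field_simp
  have eS : Complex.sin ((κ : ℂ) * (Real.pi / 2 : ℝ)) = 0 := by
    rw [Complex.sin_eq_zero_iff]
    refine ⟨((j + 1) * (n1 + n2) : ℕ), ?_⟩
    push_cast
    rw [← hn]
    linear_combination (n1 + n2 : ℂ) / 2 * eκ - (j + 1 : ℂ) * (n1 + n2) * hn
  have eC : Complex.cos ((κ : ℂ) * (Real.pi / 2 : ℝ)) ≠ 0 := by
    intro h0
    have := Complex.sin_sq_add_cos_sq ((κ : ℂ) * (Real.pi / 2 : ℝ))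
    rw [eS, h0] at this
    norm_num at this
  obtain ⟨t1, t2⟩ := trA (k := (κ : ℂ)) (j := (j + 1) * n1) h1 ha (by
    push_cast
    linear_combination (n1 : ℂ) * eκ)
  have hpiC : ((Real.pi / 2 : ℝ) : ℂ) ≠ 0 := by exact_mod_cast (by positivity : Real.pi / 2 ≠ 0)
  have hc2 : c2 = 0 := by
    rw [eS, mul_zero, zero_add, div_eq_zero_iff] at E1
    rcases E1 with h0 | h0
    · rcases mul_eq_zero.mp h0 with h0 | h0
      · rcases mul_eq_zero.mp h0 with h0 | h0
        · exact h0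
        · exact absurd h0 hpiC
      · exact absurd h0 eC
    · exact absurd h0 hk
  have hc3 : c3 = 0 := by
    rw [PP, t1, t2, eS, hc2] at E2
    have e5 : c3 * (Complex.cos ((κ : ℂ) * (Real.pi / 2 : ℝ)) / (4 * κ)) *
        (((Real.pi / 2) ^ 2 * (1 - a ^ 2) : ℝ) : ℂ) = 0 := by
      push_cast at E2 ⊢
      linear_combination E2
    rcases mul_eq_zero.mp e5 with h0 | h0
    · rcases mul_eq_zero.mp h0 with h0 | h0
      · exact h0
      · rw [div_eq_zero_iff] at h0
        rcases h0 with h0 | h0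
        · exact absurd h0 eC
        · exact absurd h0 (mul_ne_zero (by norm_num) hk)
    · exfalso
      have h' : (Real.pi / 2) ^ 2 * (1 - a ^ 2) = 0 := by exact_mod_cast h0
      have h'' : 0 < 1 - a ^ 2 := by nlinarith
      have : 0 < (Real.pi / 2) ^ 2 * (1 - a ^ 2) := by positivity
      linarith
  have hfe : f = el ((-c1 / (2 * κ)) • xsinC κ + α • cosC κ + β • sinC κ) := by
    refine of_ae ?_
    filter_upwards [hf] with x q1
    rw [q1, PP, hc2, hc3]
    simp only [ContinuousMap.add_apply, ContinuousMap.smul_apply, smul_eq_mul, cosC_ap, sinC_ap,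
        xsinC_ap]
    ring
  have mc : el (cosC κ) ∈ WW n1 n2 ((κ : ℂ) ^ 2) := by
    have e : kA n1 n2 ((j + 1) * n1) = κ := by
      rw [hκ, kA, kG]
      have : (n1 : ℝ) ≠ 0 := by exact_mod_cast h1.ne'
      have := (hh_pos (n2 := n2) h1).ne'
      push_cast
      field_simp
    have := memA (n1 := n1) (n2 := n2) (z := (κ : ℂ) ^ 2) ((j + 1) * n1) (by rw [e])
    rwa [e] at this
  have ms : el (sinC κ) ∈ WW n1 n2 ((κ : ℂ) ^ 2) := by
    have hpos : 0 < (j + 1) * (n1 + n2) := by positivity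
    have e1 : (j + 1) * (n1 + n2) - 1 + 1 = (j + 1) * (n1 + n2) := Nat.sub_add_cancel hpos
    have e : kO ((j + 1) * (n1 + n2) - 1) = κ := by
      rw [hκ, kO_eq, kG, e1, hh]
      have : ((n1 + n2 : ℕ) : ℝ) ≠ 0 := by exact_mod_cast (by omega : n1 + n2 ≠ 0)
      push_cast
      push_cast at this
      field_simp
    have := memO (n1 := n1) (n2 := n2) (z := (κ : ℂ) ^ 2) ((j + 1) * (n1 + n2) - 1) (by rw [e])
    have e2 : gO n1 n2 ((j + 1) * (n1 + n2) - 1) = sinC κ := by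
      rw [gO, aO, bO, e1, if_pos (Dvd.intro_left _ rfl), if_pos (Dvd.intro_left _ rfl), e,
        Complex.ofReal_one, Complex.ofReal_zero, one_smul]
      ext x
      simp
    rwa [e2] at this
  have mx : el (xsinC κ) ∈ WW n1 n2 ((κ : ℂ) ^ 2) := memG j rfl
  rw [hfe, map_add, map_add, map_smul, map_smul, map_smul]
  exact Submodule.add_mem _ (Submodule.add_mem _ (Submodule.smul_mem _ _ mx)
    (Submodule.smul_mem _ _ mc)) (Submodule.smul_mem _ _ ms)

end

end Pool.Agent.X115.PR
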