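import Mathlib
import Pool.Agent.X115.PR.Root2

/-!
The root subspaces, end.
-/

set_option autoImplicit false

namespace Pool.Agent.X115.PR

open Finset MeasureTheory intervalIntegral

noncomputable section

variable {n1 n2 : ℕ}

/-- the frequencies `2 m`, `n ∤ m` -/
lemma keyO (h1 : 0 < n1) (h2 : 0 < n2) (hc : Nat.Coprime n1 n2) {a : ℝ}
    (ha : a = ((n1 : ℝ) - n2) / (n1 + n2))
    (j : ℕ) (hj : ¬ (n1 + n2) ∣ (j + 1)) {f φ : XX} (h : IsH a f φ)
    (hw : φ - (kO j : ℂ) ^ 2 • f ∈ WW n1 n2 ((kO j : ℂ) ^ 2)) :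
    f ∈ WW n1 n2 ((kO j : ℂ) ^ 2) := by
  obtain ⟨ha1, ha2⟩ := a_mem h1 h2 ha
  have hpi := Real.pi_pos
  have hn : 0 < n1 + n2 := by omega
  have hnR : ((n1 + n2 : ℕ) : ℝ) ≠ 0 := by exact_mod_cast hn.ne'
  have hnR' : (n1 : ℝ) + n2 ≠ 0 := by exact_mod_cast hn.ne'
  have h1R : (n1 : ℝ) ≠ 0 := by exact_mod_cast h1.ne'
  have h2R : (n2 : ℝ) ≠ 0 := by exact_mod_cast h2.ne'
  have cop1 : Nat.Coprime (n1 + n2) n1 := by
    rw [Nat.Coprime, Nat.gcd_comm, Nat.gcd_self_add_right]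
    exact hc
  have cop2 : Nat.Coprime (n1 + n2) n2 := by
    rw [add_comm, Nat.Coprime, Nat.gcd_comm, Nat.gcd_self_add_right]
    exact hc.symm
  set κ := kO j with hκ
  have hκ0 : 0 < κ := kO_pos j
  have eκ : κ = 2 * (j + 1 : ℕ) := kO_eq j
  have hle : WW n1 n2 ((κ : ℂ) ^ 2) ≤ Submodule.span ℂ {el (gO n1 n2 j)} := by
    refine WW_le (fun i hi => ?_) (fun i hi => ?_) (fun i hi => ?_) (fun i hi => ?_)
    · exfalso
      have e := sq_eq (kA_nn h1 i) hκ0.le hi
      rw [eκ, kA, hh] at e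
      have e2 : ((n1 + n2 : ℕ) : ℝ) * i = n1 * (j + 1 : ℕ) := by
        push_cast at e ⊢
        field_simp at e
        linarith
      have e3 : (n1 + n2) * i = n1 * (j + 1) := by exact_mod_cast e2
      exact hj (cop1.dvd_of_dvd_mul_left ⟨i, e3.symm⟩)
    · exfalso
      have e := sq_eq (kB_nn h1 i) hκ0.le hi
      rw [eκ, kB, hh] at e
      have e2 : ((n1 + n2 : ℕ) : ℝ) * (i : ℕ) = n2 * (j + 1 : ℕ) := by
        push_cast at e ⊢
        field_simp at e
        linarith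
      have e3 : (n1 + n2) * (i : ℕ) = n2 * (j + 1) := by exact_mod_cast e2
      exact hj (cop2.dvd_of_dvd_mul_left ⟨i, e3.symm⟩)
    · exfalso
      have e := sq_eq (kG_pos h1 i).le hκ0.le hi
      rw [eκ, kG, hh] at e
      have e2 : ((n1 + n2 : ℕ) : ℝ) * (i + 1 : ℕ) = (j + 1 : ℕ) := by
        push_cast at e ⊢
        field_simp at e
        linarith
      have e3 : (n1 + n2) * (i + 1) = j + 1 := by exact_mod_cast e2
      exact hj ⟨i + 1, e3.symm⟩
    · have e := sq_eq (kO_pos i).le hκ0.le hi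
      rw [eκ, kO_eq] at e
      have e2 : ((i + 1 : ℕ) : ℝ) = (j + 1 : ℕ) := by linarith
      have e3 : i = j := by
        have : i + 1 = j + 1 := by exact_mod_cast e2
        omega
      rw [e3]
      exact Submodule.mem_span_singleton_self _
  obtain ⟨c, hcc⟩ := Submodule.mem_span_singleton.mp (hle hw)
  have hk : (κ : ℂ) ≠ 0 := by exact_mod_cast hκ0.ne'
  set b := bO n1 n2 j with hb
  set d := aO n1 n2 j with hd
  have gO_eq : gO n1 n2 j = (b : ℂ) • sinC κ + (d : ℂ) • cosC κ := rfl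
  obtain ⟨α, β, hf, E1, E2⟩ := core ha1.le ha2.le hk (c1 := c * d) (c2 := c * b) (c3 := 0)
    (W := c • gO n1 n2 j) (by
      intro x
      rw [gO_eq]
      simp only [ContinuousMap.add_apply, ContinuousMap.smul_apply, smul_eq_mul, cosC_ap, sinC_ap]
      ring) h (by
      rw [map_smul]
      exact hcc.symm)
  have eS : Complex.sin ((κ : ℂ) * (Real.pi / 2 : ℝ)) = 0 := by
    rw [Complex.sin_eq_zero_iff]
    refine ⟨((j + 1) : ℕ), ?_⟩
    rw [eκ]
    push_cast
    ring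
  have eC : Complex.cos ((κ : ℂ) * (Real.pi / 2 : ℝ)) ≠ 0 := by
    intro h0
    have := Complex.sin_sq_add_cos_sq ((κ : ℂ) * (Real.pi / 2 : ℝ))
    rw [eS, h0] at this
    norm_num at this
  have hpiC : ((Real.pi / 2 : ℝ) : ℂ) ≠ 0 := by exact_mod_cast (by positivity : Real.pi / 2 ≠ 0)
  have hb0 : (b : ℂ) ≠ 0 := by
    have h4 := bO_low h1 h2 hc j
    intro h5
    have h6 : b = 0 := by exact_mod_cast h5
    rw [← hb, h6, abs_zero] at h4
    have : (0 : ℝ) < (n1 + n2 : ℕ) := by exact_mod_cast hn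
    have : 0 < 2 / ((n1 + n2 : ℕ) : ℝ) := by positivity
    linarith
  have hc0 : c = 0 := by
    rw [eS, mul_zero, zero_add, div_eq_zero_iff] at E1
    rcases E1 with h0 | h0
    · rcases mul_eq_zero.mp h0 with h0 | h0
      · rcases mul_eq_zero.mp h0 with h0 | h0
        · rcases mul_eq_zero.mp h0 with h0 | h0
          · exact h0
          · exact absurd h0 hb0
        · exact absurd h0 hpiC
      · exact absurd h0 eC
    · exact absurd h0 hk
  -- the addition formulas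
  set σ : ℝ := n1 * hh n1 n2 / 2 with hσ
  set τ : ℝ := n2 * hh n1 n2 / 2 with hτ
  have hst : Real.pi / 2 = σ + τ := by
    rw [hσ, hτ, hh]
    push_cast
    field_simp
  have hsa : Real.pi / 2 * a = σ - τ := by
    rw [c0A h1 ha, hst, hσ, hτ]
    ring
  have hbe : b = Real.sin (κ * σ) := by
    rw [hb, bO, if_neg hj]
  have hde : d = Real.cos (κ * σ) := by
    rw [hd, aO, if_neg hj]
  have hτ0 : (Real.sin (κ * τ) : ℂ) ≠ 0 := by
    have h3 : ¬ (n1 + n2) ∣ (j + 1) * n2 := fun h => hj (cop2.dvd_of_dvd_mul_right h)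
    have h4 := sinlow hn h3
    have e : Real.pi * ((j + 1) * n2 : ℕ) / (n1 + n2 : ℕ) = κ * τ := by
      rw [eκ, hτ, hh]
      push_cast
      field_simp
    rw [e] at h4
    intro h5
    have h6 : Real.sin (κ * τ) = 0 := by exact_mod_cast h5
    rw [h6, abs_zero] at h4
    have : (0 : ℝ) < (n1 + n2 : ℕ) := by exact_mod_cast hn
    have : 0 < 2 / ((n1 + n2 : ℕ) : ℝ) := by positivity
    linarith
  have q1 : Complex.cos ((κ : ℂ) * (Real.pi / 2 : ℝ)) =
      d * Real.cos (κ * τ) - b * Real.sin (κ * τ) := by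
    rw [hst, hbe, hde]
    push_cast
    rw [mul_add, Complex.cos_add]
  have q2 : Complex.sin ((κ : ℂ) * (Real.pi / 2 : ℝ)) =
      b * Real.cos (κ * τ) + d * Real.sin (κ * τ) := by
    rw [hst, hbe, hde]
    push_cast
    rw [mul_add, Complex.sin_add]
  have q3 : Complex.cos ((κ : ℂ) * (Real.pi / 2 * a : ℝ)) =
      d * Real.cos (κ * τ) + b * Real.sin (κ * τ) := by
    rw [hsa, hbe, hde]
    push_cast
    rw [mul_sub, Complex.cos_sub]
  have q4 : Complex.sin ((κ : ℂ) * (Real.pi / 2 * a : ℝ)) =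
      b * Real.cos (κ * τ) - d * Real.sin (κ * τ) := by
    rw [hsa, hbe, hde]
    push_cast
    rw [mul_sub, Complex.sin_sub]
  have hab : α * b = β * d := by
    rw [q2] at eS
    rw [hc0, PP, q2, eS, q1, q3, q4] at E2
    have e5 : (α * b - β * d) * (Real.sin (κ * τ) : ℂ) = 0 := by
      linear_combination (-1 / 2) * E2 - (1 / 2) * β * eS
    rcases mul_eq_zero.mp e5 with h0 | h0
    · exact sub_eq_zero.mp h0
    · exact absurd h0 hτ0
  have hone : (b : ℂ) ^ 2 + (d : ℂ) ^ 2 = 1 := by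
    have : b ^ 2 + d ^ 2 = 1 := by
      rw [hbe, hde]
      exact Real.sin_sq_add_cos_sq _
    exact_mod_cast this
  have hfe : f = el ((α * d + β * b) • gO n1 n2 j) := by
    refine of_ae ?_
    filter_upwards [hf] with x q
    rw [q, PP, hc0, gO_eq]
    simp only [ContinuousMap.add_apply, ContinuousMap.smul_apply, smul_eq_mul, cosC_ap, sinC_ap]
    linear_combination (-α * Complex.cos (κ * x) - β * Complex.sin (κ * x)) * hone +
      (b * Complex.cos (κ * x) - d * Complex.sin (κ * x)) * hab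
  rw [hfe, map_smul]
  exact Submodule.smul_mem _ _ (memO j rfl)

/-- frequencies with even eigenfunctions -/
lemma keyAB (h1 : 0 < n1) (h2 : 0 < n2) {a : ℝ} (ha : a = ((n1 : ℝ) - n2) / (n1 + n2))
    {κ : ℝ} (hκ0 : 0 < κ) (hO : ∀ m, (κ : ℂ) ^ 2 ≠ (kO m : ℂ) ^ 2)
    (hO' : ∀ j, (κ : ℂ) ^ 2 ≠ (kG n1 n2 j : ℂ) ^ 2)
    (hm : el (cosC κ) ∈ WW n1 n2 ((κ : ℂ) ^ 2))
    (hAB : (∃ j : ℕ, (κ : ℂ) * (n1 * hh n1 n2) = j * (2 * Real.pi)) ∨
      (∃ j : ℕ, (κ : ℂ) * (n2 * hh n1 n2) = j * (2 * Real.pi))) {f φ : XX} (h : IsH a f φ)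
    (hw : φ - (κ : ℂ) ^ 2 • f ∈ WW n1 n2 ((κ : ℂ) ^ 2)) :
    f ∈ WW n1 n2 ((κ : ℂ) ^ 2) := by
  obtain ⟨ha1, ha2⟩ := a_mem h1 h2 ha
  have hpi := Real.pi_pos
  have hle : WW n1 n2 ((κ : ℂ) ^ 2) ≤ Submodule.span ℂ {el (cosC κ)} := by
    refine WW_le (fun i hi => ?_) (fun i hi => ?_) (fun i hi => ?_) (fun i hi => ?_)
    · rw [sq_eq (kA_nn h1 i) hκ0.le hi]
      exact Submodule.mem_span_singleton_self _
    · rw [sq_eq (kB_nn h1 i) hκ0.le hi]
      exact Submodule.mem_span_singleton_self _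
    · exact absurd hi.symm (hO' i)
    · exact absurd hi.symm (hO i)
  obtain ⟨c, hcc⟩ := Submodule.mem_span_singleton.mp (hle hw)
  have hk : (κ : ℂ) ≠ 0 := by exact_mod_cast hκ0.ne'
  obtain ⟨α, β, hf, E1, E2⟩ := core ha1.le ha2.le hk (c1 := c) (c2 := 0) (c3 := 0)
    (W := c • cosC κ) (by
      intro x
      simp only [ContinuousMap.smul_apply, smul_eq_mul, cosC_ap]
      ring) h (by
      rw [map_smul]
      exact hcc.symm)
  have eS : Complex.sin ((κ : ℂ) * (Real.pi / 2 : ℝ)) ≠ 0 := by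
    intro h0
    obtain ⟨m, hm⟩ := sin_zero hk h0
    exact hO m hm
  have hpiC : ((Real.pi / 2 : ℝ) : ℂ) ≠ 0 := by exact_mod_cast (by positivity : Real.pi / 2 ≠ 0)
  have hβ : β = 0 := by
    have e : β * Complex.sin ((κ : ℂ) * (Real.pi / 2 : ℝ)) = 0 := by
      linear_combination (1 / 2) * E1
    exact (mul_eq_zero.mp e).resolve_right eS
  have hc0 : c = 0 := by
    rw [PP, hβ] at E2
    rcases hAB with ⟨j, hj⟩ | ⟨j, hj⟩
    · obtain ⟨t1, t2⟩ := trA (k := (κ : ℂ)) h1 ha hj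
      rw [t1, t2] at E2
      have e : c * (Complex.sin ((κ : ℂ) * (Real.pi / 2 : ℝ)) / (2 * κ)) *
          ((Real.pi / 2 * (1 + a) : ℝ) : ℂ) = 0 := by
        push_cast at E2 ⊢
        linear_combination -E2
      rcases mul_eq_zero.mp e with h0 | h0
      · rcases mul_eq_zero.mp h0 with h0 | h0
        · exact h0
        · rw [div_eq_zero_iff] at h0
          rcases h0 with h0 | h0
          · exact absurd h0 eS
          · exact absurd h0 (mul_ne_zero (by norm_num) hk)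
      · exfalso
        have h' : Real.pi / 2 * (1 + a) = 0 := by exact_mod_cast h0
        have : 0 < 1 + a := by linarith
        have : 0 < Real.pi / 2 * (1 + a) := by positivity
        linarith
    · obtain ⟨t1, t2⟩ := trB (k := (κ : ℂ)) h1 ha hj
      rw [t1, t2] at E2
      have e : c * (Complex.sin ((κ : ℂ) * (Real.pi / 2 : ℝ)) / (2 * κ)) *
          ((Real.pi / 2 * (1 - a) : ℝ) : ℂ) = 0 := by
        push_cast at E2 ⊢
        linear_combination -E2
      rcases mul_eq_zero.mp e with h0 | h0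
      · rcases mul_eq_zero.mp h0 with h0 | h0
        · exact h0
        · rw [div_eq_zero_iff] at h0
          rcases h0 with h0 | h0
          · exact absurd h0 eS
          · exact absurd h0 (mul_ne_zero (by norm_num) hk)
      · exfalso
        have h' : Real.pi / 2 * (1 - a) = 0 := by exact_mod_cast h0
        have : 0 < 1 - a := by linarith
        have : 0 < Real.pi / 2 * (1 - a) := by positivity
        linarith
  have hfe : f = el (α • cosC κ) := by
    refine of_ae ?_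
    filter_upwards [hf] with x q
    rw [q, PP, hc0, hβ]
    simp only [ContinuousMap.smul_apply, smul_eq_mul, cosC_ap]
    ring
  rw [hfe, map_smul]
  exact Submodule.smul_mem _ _ hm

/-- no eigenvalue -/
lemma keyN (h1 : 0 < n1) (h2 : 0 < n2) {a : ℝ} (ha : a = ((n1 : ℝ) - n2) / (n1 + n2))
    {k : ℂ} (hk : k ≠ 0) (hO : ∀ m, k ^ 2 ≠ (kO m : ℂ) ^ 2)
    (hG : ∀ j, k ^ 2 ≠ (kG n1 n2 j : ℂ) ^ 2)
    (hA : ∀ j, k ^ 2 ≠ (kA n1 n2 j : ℂ) ^ 2) (hB : ∀ j, k ^ 2 ≠ (kB n1 n2 j : ℂ) ^ 2)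
    {f φ : XX} (h : IsH a f φ) (hw : φ - k ^ 2 • f ∈ WW n1 n2 (k ^ 2)) :
    f ∈ WW n1 n2 (k ^ 2) := by
  obtain ⟨ha1, ha2⟩ := a_mem h1 h2 ha
  have hle : WW n1 n2 (k ^ 2) ≤ ⊥ := by
    refine WW_le (fun i hi => ?_) (fun i hi => ?_) (fun i hi => ?_) (fun i hi => ?_)
    · exact absurd hi.symm (hA i)
    · exact absurd hi.symm (hB i)
    · exact absurd hi.symm (hG i)
    · exact absurd hi.symm (hO i)
  have hw0 : φ - k ^ 2 • f = 0 := by
    have := hle hw
    rwa [Submodule.mem_bot] at this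
  obtain ⟨α, β, hf, E1, E2⟩ := core ha1.le ha2.le hk (c1 := 0) (c2 := 0) (c3 := 0)
    (W := 0) (by
      intro x
      simp) h (by
      rw [map_zero]
      exact hw0)
  have eS : Complex.sin (k * (Real.pi / 2 : ℝ)) ≠ 0 := by
    intro h0
    obtain ⟨m, hm⟩ := sin_zero hk h0
    exact hO m hm
  have hβ : β = 0 := by
    have e : β * Complex.sin (k * (Real.pi / 2 : ℝ)) = 0 := by
      linear_combination (1 / 2) * E1
    exact (mul_eq_zero.mp e).resolve_right eS
  have hα : α = 0 := by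
    by_contra hα
    rw [PP, hβ] at E2
    have e : α * Complex.cos (k * (Real.pi / 2 : ℝ)) =
        α * Complex.cos (k * (Real.pi / 2 * a : ℝ)) := by
      linear_combination E2
    have e2 := mul_left_cancel₀ hα e
    rcases cos_eq' h1 h2 ha e2 with ⟨j, hj⟩ | ⟨j, hj⟩
    · exact hA j hj
    · exact hB j hj
  have hfe : f = el 0 := by
    refine of_ae ?_
    filter_upwards [hf] with x q
    rw [q, PP, hα, hβ]
    simp
  rw [hfe, map_zero]
  exact Submodule.zero_mem _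

/-- the main step -/
theorem key (h1 : 0 < n1) (h2 : 0 < n2) (hc : Nat.Coprime n1 n2) {a : ℝ}
    (ha : a = ((n1 : ℝ) - n2) / (n1 + n2)) {z : ℂ} {f φ : XX} (h : IsH a f φ)
    (hw : φ - z • f ∈ WW n1 n2 z) : f ∈ WW n1 n2 z := by
  by_cases hz : z = 0
  · subst hz
    exact key0 h1 h2 ha h hw
  by_cases hG : ∃ j, z = (kG n1 n2 j : ℂ) ^ 2
  · obtain ⟨j, rfl⟩ := hG
    exact keyG h1 h2 ha j h hw
  push Not at hG
  by_cases hO : ∃ m, z = (kO m : ℂ) ^ 2
  · obtain ⟨m, rfl⟩ := hO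
    refine keyO h1 h2 hc ha m (fun hd => ?_) h hw
    obtain ⟨t, ht⟩ := hd
    have ht0 : 0 < t := by
      rcases Nat.eq_zero_or_pos t with h0 | h0
      · rw [h0, mul_zero] at ht
        omega
      · exact h0
    refine hG (t - 1) ?_
    congr 2
    rw [kO_eq, kG, Nat.sub_add_cancel ht0, ht, hh]
    have : ((n1 + n2 : ℕ) : ℝ) ≠ 0 := by exact_mod_cast (by omega : n1 + n2 ≠ 0)
    have := Real.pi_pos
    push_cast
    push_cast at this
    field_simp
  push Not at hO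
  have hh0 : (hh n1 n2 : ℂ) ≠ 0 := by exact_mod_cast (hh_pos (n2 := n2) h1).ne'
  have h10 : (n1 : ℂ) ≠ 0 := by exact_mod_cast h1.ne'
  have h20 : (n2 : ℂ) ≠ 0 := by exact_mod_cast h2.ne'
  by_cases hA : ∃ j, z = (kA n1 n2 j : ℂ) ^ 2
  · obtain ⟨j, rfl⟩ := hA
    have hpos : 0 < kA n1 n2 j := by
      rcases (kA_nn (n2 := n2) h1 j).eq_or_lt with h0 | h0
      · exfalso
        apply hz
        rw [← h0]
        simp
      · exact h0
    refine keyAB h1 h2 ha hpos hO hG (memA j rfl) (Or.inl ⟨j, ?_⟩) h hw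
    rw [kA]
    push_cast
    field_simp
  push Not at hA
  by_cases hB : ∃ j, z = (kB n1 n2 j : ℂ) ^ 2
  · obtain ⟨j, rfl⟩ := hB
    have hnd : ¬ n2 ∣ j := by
      rintro ⟨t, rfl⟩
      refine hA (n1 * t) ?_
      congr 2
      rw [kA, kB]
      have : (n1 : ℝ) ≠ 0 := by exact_mod_cast h1.ne'
      have : (n2 : ℝ) ≠ 0 := by exact_mod_cast h2.ne'
      have := (hh_pos (n2 := n2) h1).ne'
      push_cast
      field_simp
    have hpos : 0 < kB n1 n2 j := by
      rcases (kB_nn (n2 := n2) h1 j).eq_or_lt with h0 | h0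
      · exfalso
        apply hz
        rw [← h0]
        simp
      · exact h0
    refine keyAB h1 h2 ha hpos hO hG (memB ⟨j, hnd⟩ rfl) (Or.inr ⟨j, ?_⟩) h hw
    rw [kB]
    push_cast
    field_simp
  push Not at hB
  obtain ⟨k, rfl⟩ := IsAlgClosed.exists_pow_nat_eq z (by norm_num : 0 < 2)
  refine keyN h1 h2 ha (fun h0 => hz (by rw [h0]; norm_num)) hO hG hA hB h hw

end

end Pool.Agent.X115.PR
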