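import Mathlib
import Pool.Agent.X115.PR.Root3

/-!
The chosen functions are root vectors.
-/

set_option autoImplicit false

namespace Pool.Agent.X115.PR

open Finset MeasureTheory intervalIntegral

noncomputable section

variable {n1 n2 : ℕ}

/-- `x` times the cosine -/
def xcosC (k : ℝ) : C(ℝ, ℂ) := ⟨fun x => (x : ℂ) * ((Real.cos (k * x) : ℝ) : ℂ), by fun_prop⟩

lemma xcosC_ap (k : ℝ) (x : ℝ) : xcosC k x = x * Complex.cos ((k : ℂ) * x) := by
  simp [xcosC]

lemma zs (g : C(ℝ, ℂ)) : (0 : ℂ) • g = 0 := by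
  ext x
  simp

lemma os (g : C(ℝ, ℂ)) : (1 : ℂ) • g = g := by
  ext x
  simp

lemma isH_gen {a : ℝ} (k : ℝ) (p q r : ℂ)
    (b1 : (p • cosC k + q • sinC k + r • xsinC k) (-(Real.pi / 2)) =
      (p • cosC k + q • sinC k + r • xsinC k) (Real.pi / 2 * a))
    (b2 : (p • cosC k + q • sinC k + r • xsinC k) (Real.pi / 2 * a) =
      (p • cosC k + q • sinC k + r • xsinC k) (Real.pi / 2)) :
    IsH a (el (p • cosC k + q • sinC k + r • xsinC k))
      (el (((k : ℂ) ^ 2) • (p • cosC k + q • sinC k + r • xsinC k) -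
        (2 * k * r) • cosC k)) := by
  refine isH_of _ ((-p * k) • sinC k + (q * k) • cosC k + r • (sinC k + (k : ℂ) • xcosC k)) _
    (fun x => ?_) (fun x => ?_) b1 b2
  · have c := cosD k x
    have s := sinD k x
    have xs := (idD x).mul s
    have h := ((c.const_mul p).add (s.const_mul q)).add (xs.const_mul r)
    have e : ((p • cosC k + q • sinC k + r • xsinC k : C(ℝ, ℂ)) : ℝ → ℂ) =
        fun x : ℝ => p * Complex.cos (k * x) + q * Complex.sin (k * x) +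
          r * (x * Complex.sin (k * x)) := by
      funext y
      simp only [ContinuousMap.add_apply, ContinuousMap.smul_apply, smul_eq_mul, cosC_ap, sinC_ap,
        xsinC_ap]
    rw [e]
    refine h.congr_deriv ?_
    simp only [ContinuousMap.add_apply, ContinuousMap.smul_apply, smul_eq_mul, cosC_ap, sinC_ap,
        xcosC_ap]
    ring
  · have c := cosD k x
    have s := sinD k x
    have xc := (idD x).mul c
    have h := ((s.const_mul (-p * k)).add (c.const_mul (q * k))).add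
      ((s.add (xc.const_mul (k : ℂ))).const_mul r)
    have e : (((-p * k) • sinC k + (q * k) • cosC k + r • (sinC k + (k : ℂ) • xcosC k) :
        C(ℝ, ℂ)) : ℝ → ℂ) =
        fun x : ℝ => (-p * k) * Complex.sin (k * x) + (q * k) * Complex.cos (k * x) +
          r * (Complex.sin (k * x) + k * (x * Complex.cos (k * x))) := by
      funext y
      simp only [ContinuousMap.add_apply, ContinuousMap.smul_apply, smul_eq_mul, cosC_ap, sinC_ap,
        xcosC_ap]
    rw [e]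
    refine h.congr_deriv ?_
    simp only [ContinuousMap.add_apply, ContinuousMap.sub_apply, ContinuousMap.smul_apply,
      smul_eq_mul, cosC_ap, sinC_ap, xsinC_ap]
    ring

lemma ker1 {a : ℝ} (k : ℝ) (p q : ℂ)
    (b1 : (p • cosC k + q • sinC k) (-(Real.pi / 2)) =
      (p • cosC k + q • sinC k) (Real.pi / 2 * a))
    (b2 : (p • cosC k + q • sinC k) (Real.pi / 2 * a) =
      (p • cosC k + q • sinC k) (Real.pi / 2)) :
    InKer a ((k : ℂ) ^ 2) 1 (el (p • cosC k + q • sinC k)) := by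
  have e : p • cosC k + q • sinC k = p • cosC k + q • sinC k + (0 : ℂ) • xsinC k := by
    rw [zs, add_zero]
  rw [e] at b1 b2 ⊢
  refine ⟨_, isH_gen k p q 0 b1 b2, ?_⟩
  show _ = (0 : XX)
  rw [mul_zero, zs (cosC k), sub_zero, map_smul, sub_self]

lemma ker_succ {a : ℝ} {z : ℂ} {f : XX} (h : InKer a z 1 f) : InKer a z 2 f := by
  obtain ⟨φ, h1, h2⟩ := h
  refine ⟨φ, h1, ?_⟩
  have h3 : φ - z • f = 0 := h2
  rw [h3]
  exact InKer.zero 1

lemma cosB {a : ℝ} (k : ℝ)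
    (h : Complex.cos (k * (Real.pi / 2 * a : ℝ)) = Complex.cos (k * (Real.pi / 2 : ℝ))) :
    InKer a ((k : ℂ) ^ 2) 1 (el (cosC k)) := by
  have e : cosC k = (1 : ℂ) • cosC k + (0 : ℂ) • sinC k := by
    rw [zs, add_zero, os]
  rw [e]
  refine ker1 k 1 0 ?_ ?_
  · rw [← e, cosC_ap, cosC_ap, h, Complex.ofReal_neg, mul_neg, Complex.cos_neg]
  · rw [← e, cosC_ap, cosC_ap, h]

lemma kerA (h1 : 0 < n1) {a : ℝ} (ha : a = ((n1 : ℝ) - n2) / (n1 + n2)) (j : ℕ) :
    InKer a ((kA n1 n2 j : ℂ) ^ 2) 1 (el (cosC (kA n1 n2 j))) := by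
  have hh0 : (hh n1 n2 : ℂ) ≠ 0 := by exact_mod_cast (hh_pos (n2 := n2) h1).ne'
  have h10 : (n1 : ℂ) ≠ 0 := by exact_mod_cast h1.ne'
  refine cosB _ (trA (k := (kA n1 n2 j : ℂ)) (j := j) h1 ha ?_).1
  rw [kA]
  push_cast
  field_simp

lemma kerB (h1 : 0 < n1) (h2 : 0 < n2) {a : ℝ} (ha : a = ((n1 : ℝ) - n2) / (n1 + n2)) (j : ℕ) :
    InKer a ((kB n1 n2 j : ℂ) ^ 2) 1 (el (cosC (kB n1 n2 j))) := by
  have hh0 : (hh n1 n2 : ℂ) ≠ 0 := by exact_mod_cast (hh_pos (n2 := n2) h1).ne'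
  have h20 : (n2 : ℂ) ≠ 0 := by exact_mod_cast h2.ne'
  refine cosB _ (trB (k := (kB n1 n2 j : ℂ)) (j := j) h1 ha ?_).1
  rw [kB]
  push_cast
  field_simp

/-- the frequencies `2 n j` -/
lemma valG (h1 : 0 < n1) {a : ℝ} (ha : a = ((n1 : ℝ) - n2) / (n1 + n2)) (j : ℕ) :
    Complex.sin ((kG n1 n2 j : ℂ) * (Real.pi / 2 : ℝ)) = 0 ∧
    Complex.sin ((kG n1 n2 j : ℂ) * (Real.pi / 2 * a : ℝ)) = 0 ∧
    Complex.cos ((kG n1 n2 j : ℂ) * (Real.pi / 2 * a : ℝ)) =
      Complex.cos ((kG n1 n2 j : ℂ) * (Real.pi / 2 : ℝ)) := by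
  have hh0 : (hh n1 n2 : ℂ) ≠ 0 := by exact_mod_cast (hh_pos (n2 := n2) h1).ne'
  have hn : (hh n1 n2 : ℂ) * (n1 + n2) = Real.pi := by
    have h' : (((n1 + n2 : ℕ) : ℝ) * hh n1 n2 : ℝ) = Real.pi := hh_mul (n2 := n2) h1
    have h'' : ((((n1 + n2 : ℕ) : ℝ) * hh n1 n2 : ℝ) : ℂ) = (Real.pi : ℂ) := by rw [h']
    push_cast at h''
    linear_combination h''
  have eκ : (kG n1 n2 j : ℂ) * hh n1 n2 = (j + 1) * (2 * Real.pi) := by
    rw [kG]
    push_cast
    field_simp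
  have eS : Complex.sin ((kG n1 n2 j : ℂ) * (Real.pi / 2 : ℝ)) = 0 := by
    rw [Complex.sin_eq_zero_iff]
    refine ⟨((j + 1) * (n1 + n2) : ℕ), ?_⟩
    push_cast
    rw [← hn]
    linear_combination (n1 + n2 : ℂ) / 2 * eκ - (j + 1 : ℂ) * (n1 + n2) * hn
  obtain ⟨t1, t2⟩ := trA (k := (kG n1 n2 j : ℂ)) (j := (j + 1) * n1) h1 ha (by
    push_cast
    linear_combination (n1 : ℂ) * eκ)
  refine ⟨eS, ?_, t1⟩
  rw [t2, eS, neg_zero]

lemma kerG (h1 : 0 < n1) {a : ℝ} (ha : a = ((n1 : ℝ) - n2) / (n1 + n2)) (j : ℕ) :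
    InKer a ((kG n1 n2 j : ℂ) ^ 2) 2 (el (xsinC (kG n1 n2 j))) := by
  obtain ⟨s1, s2, s3⟩ := valG h1 ha j
  set k := kG n1 n2 j
  have e : xsinC k = (0 : ℂ) • cosC k + (0 : ℂ) • sinC k + (1 : ℂ) • xsinC k := by
    rw [zs, zs, zero_add, zero_add, os]
  have hH := isH_gen (a := a) k 0 0 1 (by
      rw [← e, xsinC_ap, xsinC_ap, s2, Complex.ofReal_neg, mul_neg, Complex.sin_neg, s1]
      simp) (by
      rw [← e, xsinC_ap, xsinC_ap, s2, s1]
      simp)
  rw [← e] at hH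
  refine ⟨_, hH, ?_⟩
  have e2 : el ((k : ℂ) ^ 2 • xsinC k - (2 * (k : ℂ) * 1) • cosC k) -
      (k : ℂ) ^ 2 • el (xsinC k) = (-(2 * (k : ℂ) * 1)) • el (cosC k) := by
    rw [map_sub, map_smul, map_smul, neg_smul]
    abel
  rw [e2]
  exact (cosB k s3).smul 1 _

lemma kerO (h1 : 0 < n1) (h2 : 0 < n2) {a : ℝ} (ha : a = ((n1 : ℝ) - n2) / (n1 + n2)) (j : ℕ) :
    InKer a ((kO j : ℂ) ^ 2) 1 (el (gO n1 n2 j)) := by
  have hn : 0 < n1 + n2 := by omega
  have hnR : ((n1 + n2 : ℕ) : ℝ) ≠ 0 := by exact_mod_cast hn.ne'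
  have hnR' : (n1 : ℝ) + n2 ≠ 0 := by exact_mod_cast hn.ne'
  have hpi := Real.pi_pos
  have e0 : gO n1 n2 j = (aO n1 n2 j : ℂ) • cosC (kO j) + (bO n1 n2 j : ℂ) • sinC (kO j) := by
    rw [gO, add_comm]
  have eS : Complex.sin ((kO j : ℂ) * (Real.pi / 2 : ℝ)) = 0 := by
    rw [Complex.sin_eq_zero_iff]
    refine ⟨((j + 1) : ℕ), ?_⟩
    rw [kO_eq]
    push_cast
    ring
  have eSn : Complex.sin ((kO j : ℂ) * ((-(Real.pi / 2) : ℝ) : ℂ)) = 0 := by
    rw [Complex.ofReal_neg, mul_neg, Complex.sin_neg, eS, neg_zero]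
  have eCn : Complex.cos ((kO j : ℂ) * ((-(Real.pi / 2) : ℝ) : ℂ)) =
      Complex.cos ((kO j : ℂ) * (Real.pi / 2 : ℝ)) := by
    rw [Complex.ofReal_neg, mul_neg, Complex.cos_neg]
  rw [e0]
  by_cases hd : (n1 + n2) ∣ (j + 1)
  · obtain ⟨t, ht⟩ := hd
    have ht0 : 0 < t := by
      rcases Nat.eq_zero_or_pos t with h0 | h0
      · rw [h0, mul_zero] at ht
        omega
      · exact h0
    have ek : kO j = kG n1 n2 (t - 1) := by
      rw [kO_eq, kG, Nat.sub_add_cancel ht0, ht, hh]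
      push_cast
      field_simp
    have hb : bO n1 n2 j = 1 := by rw [bO, if_pos ⟨t, ht⟩]
    have ha' : aO n1 n2 j = 0 := by rw [aO, if_pos ⟨t, ht⟩]
    obtain ⟨s1, s2, s3⟩ := valG (n2 := n2) h1 ha (t - 1)
    rw [← ek] at s1 s2 s3
    refine ker1 _ _ _ ?_ ?_
    · simp only [ContinuousMap.add_apply, ContinuousMap.smul_apply, smul_eq_mul, cosC_ap, sinC_ap]
      rw [eSn, s2, ha']
      simp
    · simp only [ContinuousMap.add_apply, ContinuousMap.smul_apply, smul_eq_mul, cosC_ap, sinC_ap]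
      rw [eS, s2, ha']
      simp
  · set κ := kO j with hκ
    have eκ : κ = 2 * (j + 1 : ℕ) := kO_eq j
    set σ : ℝ := n1 * hh n1 n2 / 2 with hσ
    set τ : ℝ := n2 * hh n1 n2 / 2 with hτ
    have hst : Real.pi / 2 = σ + τ := by
      rw [hσ, hτ, hh]
      push_cast
      field_simp
    have hsa : Real.pi / 2 * a = σ - τ := by
      rw [c0A h1 ha, hst, hσ, hτ]
      ring
    set b := bO n1 n2 j with hb
    set d := aO n1 n2 j with hd'
    have hbe : b = Real.sin (κ * σ) := by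
      rw [hb, bO, if_neg hd]
    have hde : d = Real.cos (κ * σ) := by
      rw [hd', aO, if_neg hd]
    have q1 : Complex.cos ((κ : ℂ) * (Real.pi / 2 : ℝ)) =
        d * Real.cos (κ * τ) - b * Real.sin (κ * τ) := by
      rw [hst, hbe, hde]
      push_cast
      rw [mul_add, Complex.cos_add]
    have q2 : Complex.sin ((κ : ℂ) * (Real.pi / 2 : ℝ)) =
        b * Real.cos (κ * τ) + d * Real.sin (κ * τ) := by
      rw [hst, hbe, hde]
      push_cast
      rw [mul_add, Complex.sin_add]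
    have q3 : Complex.cos ((κ : ℂ) * (Real.pi / 2 * a : ℝ)) =
        d * Real.cos (κ * τ) + b * Real.sin (κ * τ) := by
      rw [hsa, hbe, hde]
      push_cast
      rw [mul_sub, Complex.cos_sub]
    have q4 : Complex.sin ((κ : ℂ) * (Real.pi / 2 * a : ℝ)) =
        b * Real.cos (κ * τ) - d * Real.sin (κ * τ) := by
      rw [hsa, hbe, hde]
      push_cast
      rw [mul_sub, Complex.sin_sub]
    have hone : (b : ℂ) ^ 2 + (d : ℂ) ^ 2 = 1 := by
      have : b ^ 2 + d ^ 2 = 1 := by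
        rw [hbe, hde]
        exact Real.sin_sq_add_cos_sq _
      exact_mod_cast this
    have E0 : (b : ℂ) * Real.cos (κ * τ) + d * Real.sin (κ * τ) = 0 := by rw [← q2, eS]
    refine ker1 _ _ _ ?_ ?_
    · simp only [ContinuousMap.add_apply, ContinuousMap.smul_apply, smul_eq_mul, cosC_ap, sinC_ap]
      rw [eSn, eCn, q1, q3, q4]
      linear_combination (-b : ℂ) * E0
    · simp only [ContinuousMap.add_apply, ContinuousMap.smul_apply, smul_eq_mul, cosC_ap, sinC_ap]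
      rw [q1, q2, q3, q4]
      ring

/-- the chosen functions lie in the kernels -/
lemma ker_all (h1 : 0 < n1) (h2 : 0 < n2) {a : ℝ} (ha : a = ((n1 : ℝ) - n2) / (n1 + n2))
    (i : Ind n2) : InKer a (evI n1 n2 i) 2 (el (gI n1 n2 i)) := by
  rcases i with j | j | j | j
  · exact ker_succ (kerA h1 ha j)
  · exact ker_succ (kerB h1 h2 ha j)
  · exact kerG h1 ha j
  · exact ker_succ (kerO h1 h2 ha j)

/-- the root subspaces -/
theorem root_iff (h1 : 0 < n1) (h2 : 0 < n2) (hc : Nat.Coprime n1 n2) {a : ℝ}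
    (ha : a = ((n1 : ℝ) - n2) / (n1 + n2)) (z : ℂ) (f : XX) :
    f ∈ WW n1 n2 z ↔ ∃ k, InKer a z k f := by
  constructor
  · intro hf
    refine ⟨2, ?_⟩
    rw [WW] at hf
    induction hf using Submodule.span_induction with
    | mem x hx =>
      obtain ⟨i, hi, rfl⟩ := hx
      have := ker_all h1 h2 ha i
      rw [hi] at this
      exact this
    | zero => exact InKer.zero 2
    | add x y _ _ hx hy => exact InKer.add 2 hx hy
    | smul c x _ hx => exact InKer.smul 2 c hx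
  · rintro ⟨k, hk⟩
    induction k generalizing f with
    | zero =>
      have : f = 0 := hk
      rw [this]
      exact Submodule.zero_mem _
    | succ k ih =>
      obtain ⟨φ, hφ, h3⟩ := hk
      exact key h1 h2 hc ha hφ (ih _ h3)

end

end Pool.Agent.X115.PR
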